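import Pool.Agent.H16.PLR.Flow

/-! Cells of the rough flow, corrections, and the final assembly. -/

set_option autoImplicit false

open Set Filter Topology
open scoped commutatorElement

namespace Pool.Agent.H16.PLR

/-- chart coordinate of the fixed point in boundary block `k` -/
noncomputable def fpt (k : ℤ) (ι : ℝ) : ℝ := if k % 4 = 0 then 2 - ι else 2 + 2 * ι

theorem fpt_range {k : ℤ} {ι : ℝ} (h0 : 0 ≤ ι) (h1 : ι ≤ 1) : 1 ≤ fpt k ι ∧ fpt k ι ≤ 4 := by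
  unfold fpt
  split_ifs <;> constructor <;> linarith

/-- the boundary points of the cells -/
noncomputable def Xp (χ : ℤ → Hm) (ι : ℤ → ℝ) (n : ℤ) : ℝ := (χ (2 * n))⁻¹ (fpt (2 * n) (ι (2 * n)))

/-- data common to both flows -/
structure Ord (χ : ℤ → Hm) (ι : ℤ → ℝ) : Prop where
  mem : ∀ k, χ k ∈ P
  i0 : ∀ k, 0 ≤ ι k
  i1 : ∀ k, ι k ≤ 1
  sep : ∀ k, (χ k)⁻¹ 380 < (χ (k + 1))⁻¹ (-8)

theorem inv_lt {χ : Hm} {a b : ℝ} (h : a < b) : χ⁻¹ a < χ⁻¹ b := (χ⁻¹).strictMono h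
theorem inv_le {χ : Hm} {a b : ℝ} (h : a ≤ b) : χ⁻¹ a ≤ χ⁻¹ b := (χ⁻¹).monotone h

theorem Xp_lo {χ : ℤ → Hm} {ι : ℤ → ℝ} (O : Ord χ ι) (n : ℤ) :
    (χ (2 * n))⁻¹ 1 ≤ Xp χ ι n ∧ Xp χ ι n ≤ (χ (2 * n))⁻¹ 4 := by
  have := fpt_range (k := 2 * n) (O.i0 (2 * n)) (O.i1 (2 * n))
  exact ⟨inv_le this.1, inv_le this.2⟩

theorem chi_lt {χ : Hm} {x y : ℝ} (h : x < χ⁻¹ y) : χ x < y := by
  have := χ.strictMono h; rwa [RelIso.apply_inv_self] at this
theorem lt_chi {χ : Hm} {x y : ℝ} (h : χ⁻¹ y < x) : y < χ x := by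
  have := χ.strictMono h; rwa [RelIso.apply_inv_self] at this
theorem chi_le {χ : Hm} {x y : ℝ} (h : x ≤ χ⁻¹ y) : χ x ≤ y := by
  have := χ.monotone h; rwa [RelIso.apply_inv_self] at this
theorem le_chi {χ : Hm} {x y : ℝ} (h : χ⁻¹ y ≤ x) : y ≤ χ x := by
  have := χ.monotone h; rwa [RelIso.apply_inv_self] at this
theorem lt_inv_of {χ : Hm} {x y : ℝ} (h : χ x < y) : x < χ⁻¹ y := by
  rw [← χ.lt_iff_lt, RelIso.apply_inv_self]; exact h
theorem inv_lt_of {χ : Hm} {x y : ℝ} (h : y < χ x) : χ⁻¹ y < x := by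
  rw [← χ.lt_iff_lt, RelIso.apply_inv_self]; exact h

section cells

variable {χ : ℤ → Hm} {ι : ℤ → ℝ} {t : Hm}

theorem Flow.fix (O : Ord χ ι) (F : Flow χ ι t) (n : ℤ) : t (Xp χ ι n) = Xp χ ι n := by
  have h0 := O.i0 (2 * n)
  have h1 := O.i1 (2 * n)
  have hr := fpt_range (k := 2 * n) h0 h1
  unfold Xp
  rw [F.blk (2 * n) _ (inv_le (by linarith)) (inv_le (by linarith))]
  rw [RelIso.apply_inv_self]
  congr 1
  rcases (by omega : (2 * n) % 4 = 0 ∨ (2 * n) % 4 = 2) with h | h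
  · have : fpt (2 * n) (ι (2 * n)) = 2 - ι (2 * n) := by unfold fpt; rw [if_pos h]
    rw [this, Lam_0 h, NP_2 (by linarith) (by linarith)]; ring
  · have : fpt (2 * n) (ι (2 * n)) = 2 + 2 * ι (2 * n) := by
      unfold fpt; rw [if_neg (by omega)]
    rw [this, Lam_2 h, PN_2 (by linarith) (by linarith)]; ring

theorem Flow.slopes (O : Ord χ ι) (F : Flow χ ι t) (n : ℤ) {σ : ℝ}
    (hσ : ((2 * n) % 4 = 0 ∧ σ = 2) ∨ ((2 * n) % 4 = 2 ∧ σ = 1 / 2)) :
    SlR t (Xp χ ι n) σ ∧ SlL t (Xp χ ι n) σ := by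
  have h0 := O.i0 (2 * n)
  have h1 := O.i1 (2 * n)
  have hr := fpt_range (k := 2 * n) h0 h1
  obtain ⟨y, hy⟩ : ∃ y, y = fpt (2 * n) (ι (2 * n)) := ⟨_, rfl⟩
  obtain ⟨M, hM⟩ : ∃ M, M = tr (ι (2 * n)) * Lam (2 * n) := ⟨_, rfl⟩
  rw [← hy] at hr
  have hMx : ∀ x, M x = Lam (2 * n) x + ι (2 * n) := fun x => by
    rw [hM]; simp only [RelIso.mul_apply, tr_apply]
  have hlin : ∀ x, 0 < x → x < 3 ∨ ((2 * n) % 4 = 2 ∧ x < 6) → M x = y + σ * (x - y) := by
    intro x hx hx'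
    rw [hMx]
    rcases hσ with ⟨h, rfl⟩ | ⟨h, rfl⟩
    · have e : y = 2 - ι (2 * n) := by rw [hy]; unfold fpt; rw [if_pos h]
      have hx3 : x < 3 := by
        rcases hx' with h' | h'
        · exact h'
        · omega
      rw [Lam_0 h, NP_2 hx.le hx3.le, e]; ring
    · have e : y = 2 + 2 * ι (2 * n) := by rw [hy]; unfold fpt; rw [if_neg (by omega)]
      have hx6 : x < 6 := by
        rcases hx' with h' | h'
        · linarith
        · exact h'.2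
      rw [Lam_2 h, PN_2 hx.le hx6.le, e]; ring
  have hev : ∀ᶠ x in 𝓝 y, M x = y + σ * (x - y) := by
    rcases hσ with ⟨h, _⟩ | ⟨h, _⟩
    · have e : y = 2 - ι (2 * n) := by rw [hy]; unfold fpt; rw [if_pos h]
      filter_upwards [lt_mem_nhds (show (0 : ℝ) < y by linarith),
        gt_mem_nhds (show y < 3 by linarith)] with x hx hx'
      exact hlin x hx (Or.inl hx')
    · filter_upwards [lt_mem_nhds (show (0 : ℝ) < y by linarith),
        gt_mem_nhds (show y < 6 by linarith)] with x hx hx'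
      exact hlin x hx (Or.inr ⟨h, hx'⟩)
  have hMy : M y = y := by
    have := hev.self_of_nhds
    rw [this]; ring
  have hR : SlR M y σ := nhdsWithin_le_nhds hev
  have hL : SlL M y σ := nhdsWithin_le_nhds hev
  have hχ := P.inv_mem (O.mem (2 * n))
  have hR' := hR.conj hχ hMy
  have hL' := hL.conj hχ hMy
  rw [inv_inv] at hR' hL'
  have hXy : (χ (2 * n))⁻¹ y = Xp χ ι n := by rw [hy]; rfl
  rw [hXy] at hR' hL'
  have hloc : ∀ᶠ x in 𝓝 (Xp χ ι n), t x = ((χ (2 * n))⁻¹ * M * χ (2 * n)) x := by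
    have l1 : (χ (2 * n))⁻¹ (-5) < Xp χ ι n := by rw [← hXy]; exact inv_lt (by linarith)
    have l2 : Xp χ ι n < (χ (2 * n))⁻¹ 371 := by rw [← hXy]; exact inv_lt (by linarith)
    filter_upwards [lt_mem_nhds l1, gt_mem_nhds l2] with x hx hx'
    rw [F.blk (2 * n) x hx.le hx'.le]
    simp only [RelIso.mul_apply]
    rw [hMx]
  constructor
  · unfold SlR at hR' ⊢
    filter_upwards [hR', nhdsWithin_le_nhds hloc] with x hx hx'
    rw [hx', hx]
  · unfold SlL at hL' ⊢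
    filter_upwards [hL', nhdsWithin_le_nhds hloc] with x hx hx'
    rw [hx', hx]

theorem Xp_lt (O : Ord χ ι) (n : ℤ) : Xp χ ι n < Xp χ ι (n + 1) := by
  have h1 := (Xp_lo O n).2
  have h2 := (Xp_lo O (n + 1)).1
  have s1 := O.sep (2 * n)
  have s2 := O.sep (2 * n + 1)
  have e : 2 * n + 1 + 1 = 2 * (n + 1) := by ring
  rw [e] at s2
  have l1 : (χ (2 * n))⁻¹ 4 < (χ (2 * n))⁻¹ 380 := inv_lt (by norm_num)
  have l2 : (χ (2 * n + 1))⁻¹ (-8) < (χ (2 * n + 1))⁻¹ 380 := inv_lt (by norm_num)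
  have l3 : (χ (2 * (n + 1)))⁻¹ (-8) < (χ (2 * (n + 1)))⁻¹ 1 := inv_lt (by norm_num)
  linarith

theorem Flow.posCell (O : Ord χ ι) (F : Flow χ ι t) (n : ℤ) (hn : (2 * n) % 4 = 0) :
    PosCell t (Xp χ ι n) (Xp χ ι (n + 1)) := by
  refine ⟨F.mem, Xp_lt O n, F.fix O n, F.fix O (n + 1), fun x hx hx' => ?_,
    (F.slopes O n (Or.inl ⟨hn, rfl⟩)).1,
    (F.slopes O (n + 1) (Or.inr ⟨by omega, rfl⟩)).2⟩
  have h0 := O.i0
  have h1 := O.i1
  rcases le_total x ((χ (2 * n))⁻¹ 371) with c1 | c1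
  · have hlo : (χ (2 * n))⁻¹ (-5) ≤ x := by
      have := (Xp_lo O n).1
      have l : (χ (2 * n))⁻¹ (-5) < (χ (2 * n))⁻¹ 1 := inv_lt (by norm_num)
      linarith
    rw [F.blk (2 * n) x hlo c1]
    apply lt_inv_of
    have hy : fpt (2 * n) (ι (2 * n)) < χ (2 * n) x := lt_chi hx
    have e : fpt (2 * n) (ι (2 * n)) = 2 - ι (2 * n) := by unfold fpt; rw [if_pos hn]
    rw [e] at hy
    rw [Lam_0 hn]
    exact NP_gt (h0 _) (h1 _) hy
  rcases le_total x ((χ (2 * n + 1))⁻¹ (-5)) with c2 | c2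
  · exact F.gp (2 * n) (Or.inl hn) x c1 c2
  rcases le_total x ((χ (2 * n + 1))⁻¹ 371) with c3 | c3
  · rw [F.blk (2 * n + 1) x c2 c3]
    apply lt_inv_of
    rw [Lam_1 (by omega), tr_apply]
    linarith [h0 (2 * n + 1)]
  have e2 : 2 * n + 1 + 1 = 2 * (n + 1) := by ring
  rcases le_total x ((χ (2 * (n + 1)))⁻¹ (-5)) with c4 | c4
  · exact F.gp (2 * n + 1) (Or.inr (by omega)) x c3 (by rw [e2]; exact c4)
  · have hhi : x ≤ (χ (2 * (n + 1)))⁻¹ 371 := by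
      have := (Xp_lo O (n + 1)).2
      have l : (χ (2 * (n + 1)))⁻¹ 4 < (χ (2 * (n + 1)))⁻¹ 371 := inv_lt (by norm_num)
      linarith
    rw [F.blk (2 * (n + 1)) x c4 hhi]
    apply lt_inv_of
    have hy : χ (2 * (n + 1)) x < fpt (2 * (n + 1)) (ι (2 * (n + 1))) := chi_lt hx'
    have e : fpt (2 * (n + 1)) (ι (2 * (n + 1))) = 2 + 2 * ι (2 * (n + 1)) := by
      unfold fpt; rw [if_neg (by omega)]
    rw [e] at hy
    rw [Lam_2 (by omega)]
    exact PN_gt (h0 _) (h1 _) hy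

theorem Flow.negCell (O : Ord χ ι) (F : Flow χ ι t) (n : ℤ) (hn : (2 * n) % 4 = 2) :
    NegCell t (Xp χ ι n) (Xp χ ι (n + 1)) := by
  refine ⟨F.mem, Xp_lt O n, F.fix O n, F.fix O (n + 1), fun x hx hx' => ?_,
    (F.slopes O n (Or.inr ⟨hn, rfl⟩)).1,
    (F.slopes O (n + 1) (Or.inl ⟨by omega, rfl⟩)).2⟩
  have h0 := O.i0
  have h1 := O.i1
  rcases le_total x ((χ (2 * n))⁻¹ 371) with c1 | c1
  · have hlo : (χ (2 * n))⁻¹ (-5) ≤ x := by
      have := (Xp_lo O n).1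
      have l : (χ (2 * n))⁻¹ (-5) < (χ (2 * n))⁻¹ 1 := inv_lt (by norm_num)
      linarith
    rw [F.blk (2 * n) x hlo c1]
    apply inv_lt_of
    have hy : fpt (2 * n) (ι (2 * n)) < χ (2 * n) x := lt_chi hx
    have e : fpt (2 * n) (ι (2 * n)) = 2 + 2 * ι (2 * n) := by
      unfold fpt; rw [if_neg (by omega)]
    rw [e] at hy
    rw [Lam_2 hn]
    exact PN_lt (h0 _) (h1 _) hy
  rcases le_total x ((χ (2 * n + 1))⁻¹ (-5)) with c2 | c2
  · exact F.gn (2 * n) (Or.inl hn) x c1 c2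
  rcases le_total x ((χ (2 * n + 1))⁻¹ 371) with c3 | c3
  · rw [F.blk (2 * n + 1) x c2 c3]
    apply inv_lt_of
    rw [Lam_3 (by omega), tr_apply]
    linarith [h1 (2 * n + 1)]
  have e2 : 2 * n + 1 + 1 = 2 * (n + 1) := by ring
  rcases le_total x ((χ (2 * (n + 1)))⁻¹ (-5)) with c4 | c4
  · exact F.gn (2 * n + 1) (Or.inr (by omega)) x c3 (by rw [e2]; exact c4)
  · have hhi : x ≤ (χ (2 * (n + 1)))⁻¹ 371 := by
      have := (Xp_lo O (n + 1)).2
      have l : (χ (2 * (n + 1)))⁻¹ 4 < (χ (2 * (n + 1)))⁻¹ 371 := inv_lt (by norm_num)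
      linarith
    rw [F.blk (2 * (n + 1)) x c4 hhi]
    apply inv_lt_of
    have hy : χ (2 * (n + 1)) x < fpt (2 * (n + 1)) (ι (2 * (n + 1))) := chi_lt hx'
    have e : fpt (2 * (n + 1)) (ι (2 * (n + 1))) = 2 - ι (2 * (n + 1)) := by
      unfold fpt; rw [if_pos (by omega)]
    rw [e] at hy
    rw [Lam_0 (by omega)]
    exact NP_lt (h1 _) hy (h0 _)

theorem Flow.zoneval (F : Flow χ ι t) (k : ℤ) {x : ℝ} (h1 : -4 ≤ χ k x) (h2 : χ k x ≤ 370) :
    χ k (t x) = Lam k (χ k x) + ι k := by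
  rw [F.blk k x (by rw [← (χ k).le_iff_le, RelIso.apply_inv_self]; linarith)
    (by rw [← (χ k).le_iff_le, RelIso.apply_inv_self]; linarith), RelIso.apply_inv_self]

theorem zone_margin (O : Ord χ ι) (n : ℤ) :
    χ (2 * n + 1) (Xp χ ι n) < -4 ∧ 370 < χ (2 * n + 1) (Xp χ ι (n + 1)) := by
  have h1 := (Xp_lo O n).2
  have h2 := (Xp_lo O (n + 1)).1
  have s1 := O.sep (2 * n)
  have s2 := O.sep (2 * n + 1)
  have e : 2 * n + 1 + 1 = 2 * (n + 1) := by ring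
  rw [e] at s2
  have l1 : (χ (2 * n))⁻¹ 4 < (χ (2 * n))⁻¹ 380 := inv_lt (by norm_num)
  have l3 : (χ (2 * (n + 1)))⁻¹ (-8) < (χ (2 * (n + 1)))⁻¹ 1 := inv_lt (by norm_num)
  constructor
  · have : Xp χ ι n < (χ (2 * n + 1))⁻¹ (-8) := by linarith
    have := chi_lt this; linarith
  · have : (χ (2 * n + 1))⁻¹ 380 < Xp χ ι (n + 1) := by linarith
    have := lt_chi this; linarith

end cells

theorem exists_std_pos {t : Hm} (ht : t ∈ P) {p q : ℝ} (h : p < q) (hp : t p = p)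
    (hq : t q = q) : ∃ K ∈ PS p q, IsStd (t * K) p q 0 := by
  obtain ⟨a, ha, B, hB, ap, aq, -, Bp, Bq, hint, -, -⟩ := exists_bump h
  obtain ⟨K, hK, hK'⟩ := exists_restr (P.mul_mem (P.inv_mem ht) ha) h.le
    (by rw [RelIso.mul_apply, ap, fix_inv hp]) (by rw [RelIso.mul_apply, aq, fix_inv hq])
  refine ⟨K, hK, B, hB, Bp, by rw [Bq]; norm_num, fun x hx hx' => ?_⟩
  rw [RelIso.mul_apply, hK' x hx hx', RelIso.mul_apply, RelIso.apply_inv_self, hint x hx hx']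

theorem exists_std_neg {t : Hm} (ht : t ∈ P) {p q : ℝ} (h : p < q) (hp : t p = p)
    (hq : t q = q) : ∃ K ∈ PS p q, IsStd (t * K) p q (-1) := by
  obtain ⟨K, hK, hK'⟩ := exists_std_pos (rf_mem ht) (p := -q) (q := -p) (by linarith)
    (by rw [rf_apply, neg_neg, hq]) (by rw [rf_apply, neg_neg, hp])
  refine ⟨rf K, ?_, ?_⟩
  · have := rf_PS hK
    rwa [neg_neg, neg_neg] at this
  · apply rf_IsStd
    rwa [rf_mul, rf_rf]

theorem IsStd.congr {t t' : Hm} {p q n : ℝ} (h : IsStd t p q n)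
    (htt : ∀ x, p ≤ x → x ≤ q → t' x = t x) : IsStd t' p q n := by
  obtain ⟨g, hg, g1, g2, g3⟩ := h
  exact ⟨g, hg, g1, g2, fun x hx hx' => by rw [htt x hx hx', g3 x hx hx']⟩

/-- correction of one cell -/
theorem correct_cell {f s : Hm} {χ : ℤ → Hm} {i j : ℤ → ℝ} (B : BSeq f χ i j)
    (Fi : Flow χ i s) (Fj : Flow χ j (f * s)) (n : ℤ) :
    ∃ K ∈ PS (max (Xp χ i n) (Xp χ j n)) (min (Xp χ i (n + 1)) (Xp χ j (n + 1))),
      IsStd (s * K) (Xp χ i n) (Xp χ i (n + 1)) n ∧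
      IsStd (f * s * K) (Xp χ j n) (Xp χ j (n + 1)) n := by
  have Oi : Ord χ i := ⟨fun k => (B.blk k).mem, fun k => (B.blk k).i01.1,
    fun k => (B.blk k).i01.2.1, B.sep⟩
  have Oj : Ord χ j := ⟨fun k => (B.blk k).mem, fun k => (B.blk k).i01.2.2.1,
    fun k => (B.blk k).i01.2.2.2, B.sep⟩
  have mi := zone_margin Oi n
  have mj := zone_margin Oj n
  have hsub : PS ((χ (2 * n + 1))⁻¹ 0) ((χ (2 * n + 1))⁻¹ 366) ≤
      PS (max (Xp χ i n) (Xp χ j n)) (min (Xp χ i (n + 1)) (Xp χ j (n + 1))) := by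
    apply PS_mono
    · apply max_le
      · exact (lt_inv_of (by linarith [mi.1])).le
      · exact (lt_inv_of (by linarith [mj.1])).le
    · apply le_min
      · exact (inv_lt_of (by linarith [mi.2])).le
      · exact (inv_lt_of (by linarith [mj.2])).le
  rcases (by omega : (2 * n) % 4 = 0 ∨ (2 * n) % 4 = 2) with hn | hn
  · -- positive cell
    obtain ⟨m, hm⟩ : ∃ m : ℤ, n = 2 * m := ⟨n / 2, by omega⟩
    have hshift : (n : ℝ) = 0 + m * 2 := by rw [hm]; push_cast; ring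
    have ci := Fi.posCell Oi n hn
    have cj := Fj.posCell Oj n hn
    have zi : ∀ x, -4 ≤ χ (2 * n + 1) x → χ (2 * n + 1) x ≤ 370 →
        χ (2 * n + 1) (s x) = χ (2 * n + 1) x + (1 + i (2 * n + 1)) := by
      intro x h1 h2
      rw [Fi.zoneval _ h1 h2, Lam_1 (by omega), tr_apply]; ring
    have zj : ∀ x, -4 ≤ χ (2 * n + 1) x → χ (2 * n + 1) x ≤ 370 →
        χ (2 * n + 1) ((f * s) x) = χ (2 * n + 1) x + (1 + j (2 * n + 1)) := by
      intro x h1 h2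
      rw [Fj.zoneval _ h1 h2, Lam_1 (by omega), tr_apply]; ring
    rw [hshift]
    rcases (B.blk (2 * n + 1)).ij with ⟨hi, hj⟩ | ⟨hi, hj⟩ | ⟨hi, hj⟩
    · obtain ⟨K, hK, s1, s2⟩ := two_cells (B.blk (2 * n + 1)).mem ci cj
        (fun x h1 h2 => by rw [zi x h1 h2, hi]; ring)
        (fun x h1 h2 => by rw [zj x h1 h2, hj]; ring) mi.1 mj.1 mi.2 mj.2
      exact ⟨K, hsub hK, s1.shift m, s2.shift m⟩
    · obtain ⟨K, hK, s1, s2⟩ := two_cells (B.blk (2 * n + 1)).mem cj ci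
        (fun x h1 h2 => by rw [zj x h1 h2, hj]; ring)
        (fun x h1 h2 => by rw [zi x h1 h2, hi]; ring) mj.1 mi.1 mj.2 mi.2
      exact ⟨K, hsub hK, s2.shift m, s1.shift m⟩
    · have triv := B.triv n hi hj
      have hblk : ∀ k, k = 2 * n ∨ k = 2 * n + 2 → i k = j k := by
        intro k hk
        have h1 : (χ (2 * n))⁻¹ (-8) ≤ (χ k)⁻¹ 0 ∧ (χ k)⁻¹ 0 ≤ (χ (2 * n + 2))⁻¹ 380 := by
          have s1 := B.sep (2 * n)
          have s2 := B.sep (2 * n + 1)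
          have e : 2 * n + 1 + 1 = 2 * n + 2 := by ring
          rw [e] at s2
          have l1 : (χ (2 * n))⁻¹ (-8) < (χ (2 * n))⁻¹ 0 := inv_lt (by norm_num)
          have l2 : (χ (2 * n))⁻¹ 0 < (χ (2 * n))⁻¹ 380 := inv_lt (by norm_num)
          have l3 : (χ (2 * n + 1))⁻¹ (-8) < (χ (2 * n + 1))⁻¹ 380 := inv_lt (by norm_num)
          have l4 : (χ (2 * n + 2))⁻¹ (-8) < (χ (2 * n + 2))⁻¹ 0 := inv_lt (by norm_num)
          have l5 : (χ (2 * n + 2))⁻¹ 0 < (χ (2 * n + 2))⁻¹ 380 := inv_lt (by norm_num)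
          rcases hk with rfl | rfl
          · constructor <;> linarith
          · constructor <;> linarith
        have h2 := triv _ h1.1 h1.2
        have h3 := (B.blk k).eq ((χ k)⁻¹ 0) (by rw [RelIso.apply_inv_self]; norm_num)
          (by rw [RelIso.apply_inv_self]; norm_num)
        rw [h2] at h3
        linarith
      have hX : ∀ m', m' = n ∨ m' = n + 1 → Xp χ i m' = Xp χ j m' := by
        intro m' hm'
        unfold Xp
        rw [hblk (2 * m') (by rcases hm' with rfl | rfl <;> [left; right] <;> ring)]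
      have hXn := hX n (Or.inl rfl)
      have hXn' := hX (n + 1) (Or.inr rfl)
      obtain ⟨K, hK, s1⟩ := exists_std_pos Fi.mem ci.pq ci.tp ci.tq
      refine ⟨K, ?_, s1.shift m, ?_⟩
      · rw [← hXn, ← hXn', max_self, min_self]; exact hK
      · rw [← hXn, ← hXn']
        refine (s1.shift m).congr fun x hx hx' => ?_
        rw [mul_assoc, RelIso.mul_apply]
        have hKx := PS_maps hK hx hx'
        apply triv
        · calc (χ (2 * n))⁻¹ (-8) ≤ (χ (2 * n))⁻¹ 1 := inv_le (by norm_num)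
            _ ≤ Xp χ i n := (Xp_lo Oi n).1
            _ = s (Xp χ i n) := ci.tp.symm
            _ ≤ s (K x) := s.monotone hKx.1
        · calc (s * K) x = s (K x) := rfl
            _ ≤ s (Xp χ i (n + 1)) := s.monotone hKx.2
            _ = Xp χ i (n + 1) := ci.tq
            _ ≤ (χ (2 * (n + 1)))⁻¹ 4 := (Xp_lo Oi (n + 1)).2
            _ = (χ (2 * n + 2))⁻¹ 4 := by rw [mul_add, mul_one]
            _ ≤ _ := inv_le (by norm_num)
  · -- negative cell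
    obtain ⟨m, hm⟩ : ∃ m : ℤ, n = 2 * m + 1 := ⟨n / 2, by omega⟩
    have hshift : (n : ℝ) = -1 + (m + 1 : ℤ) * 2 := by rw [hm]; push_cast; ring
    have ci := Fi.negCell Oi n hn
    have cj := Fj.negCell Oj n hn
    have zi : ∀ x, -4 ≤ χ (2 * n + 1) x → χ (2 * n + 1) x ≤ 370 →
        χ (2 * n + 1) (s x) = χ (2 * n + 1) x - (2 - i (2 * n + 1)) := by
      intro x h1 h2
      rw [Fi.zoneval _ h1 h2, Lam_3 (by omega), tr_apply]; ring
    have zj : ∀ x, -4 ≤ χ (2 * n + 1) x → χ (2 * n + 1) x ≤ 370 →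
        χ (2 * n + 1) ((f * s) x) = χ (2 * n + 1) x - (2 - j (2 * n + 1)) := by
      intro x h1 h2
      rw [Fj.zoneval _ h1 h2, Lam_3 (by omega), tr_apply]; ring
    rw [hshift]
    rcases (B.blk (2 * n + 1)).ij with ⟨hi, hj⟩ | ⟨hi, hj⟩ | ⟨hi, hj⟩
    · obtain ⟨K, hK, s1, s2⟩ := two_cells_neg (B.blk (2 * n + 1)).mem cj ci
        (fun x h1 h2 => by rw [zj x h1 h2, hj]; ring)
        (fun x h1 h2 => by rw [zi x h1 h2, hi]; ring) mj.1 mi.1 mj.2 mi.2
      exact ⟨K, hsub hK, s2.shift (m + 1), s1.shift (m + 1)⟩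
    · obtain ⟨K, hK, s1, s2⟩ := two_cells_neg (B.blk (2 * n + 1)).mem ci cj
        (fun x h1 h2 => by rw [zi x h1 h2, hi]; ring)
        (fun x h1 h2 => by rw [zj x h1 h2, hj]; ring) mi.1 mj.1 mi.2 mj.2
      exact ⟨K, hsub hK, s1.shift (m + 1), s2.shift (m + 1)⟩
    · have triv := B.triv n hi hj
      have hblk : ∀ k, k = 2 * n ∨ k = 2 * n + 2 → i k = j k := by
        intro k hk
        have h1 : (χ (2 * n))⁻¹ (-8) ≤ (χ k)⁻¹ 0 ∧ (χ k)⁻¹ 0 ≤ (χ (2 * n + 2))⁻¹ 380 := by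
          have s1 := B.sep (2 * n)
          have s2 := B.sep (2 * n + 1)
          have e : 2 * n + 1 + 1 = 2 * n + 2 := by ring
          rw [e] at s2
          have l1 : (χ (2 * n))⁻¹ (-8) < (χ (2 * n))⁻¹ 0 := inv_lt (by norm_num)
          have l2 : (χ (2 * n))⁻¹ 0 < (χ (2 * n))⁻¹ 380 := inv_lt (by norm_num)
          have l3 : (χ (2 * n + 1))⁻¹ (-8) < (χ (2 * n + 1))⁻¹ 380 := inv_lt (by norm_num)
          have l4 : (χ (2 * n + 2))⁻¹ (-8) < (χ (2 * n + 2))⁻¹ 0 := inv_lt (by norm_num)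
          have l5 : (χ (2 * n + 2))⁻¹ 0 < (χ (2 * n + 2))⁻¹ 380 := inv_lt (by norm_num)
          rcases hk with rfl | rfl
          · constructor <;> linarith
          · constructor <;> linarith
        have h2 := triv _ h1.1 h1.2
        have h3 := (B.blk k).eq ((χ k)⁻¹ 0) (by rw [RelIso.apply_inv_self]; norm_num)
          (by rw [RelIso.apply_inv_self]; norm_num)
        rw [h2] at h3
        linarith
      have hX : ∀ m', m' = n ∨ m' = n + 1 → Xp χ i m' = Xp χ j m' := by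
        intro m' hm'
        unfold Xp
        rw [hblk (2 * m') (by rcases hm' with rfl | rfl <;> [left; right] <;> ring)]
      have hXn := hX n (Or.inl rfl)
      have hXn' := hX (n + 1) (Or.inr rfl)
      obtain ⟨K, hK, s1⟩ := exists_std_neg Fi.mem ci.pq ci.tp ci.tq
      refine ⟨K, ?_, s1.shift (m + 1), ?_⟩
      · rw [← hXn, ← hXn', max_self, min_self]; exact hK
      · rw [← hXn, ← hXn']
        refine (s1.shift (m + 1)).congr fun x hx hx' => ?_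
        rw [mul_assoc, RelIso.mul_apply]
        have hKx := PS_maps hK hx hx'
        apply triv
        · calc (χ (2 * n))⁻¹ (-8) ≤ (χ (2 * n))⁻¹ 1 := inv_le (by norm_num)
            _ ≤ Xp χ i n := (Xp_lo Oi n).1
            _ = s (Xp χ i n) := ci.tp.symm
            _ ≤ s (K x) := s.monotone hKx.1
        · calc (s * K) x = s (K x) := rfl
            _ ≤ s (Xp χ i (n + 1)) := s.monotone hKx.2
            _ = Xp χ i (n + 1) := ci.tq
            _ ≤ (χ (2 * (n + 1)))⁻¹ 4 := (Xp_lo Oi (n + 1)).2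
            _ = (χ (2 * n + 2))⁻¹ 4 := by rw [mul_add, mul_one]
            _ ≤ _ := inv_le (by norm_num)

end Pool.Agent.H16.PLR
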