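import Mathlib

/-! Piecewise affine homeomorphisms of the line: basic constructions. -/

set_option autoImplicit false

open Set Filter Topology

namespace Pool.Agent.H16.PLR

/-- right germ at `x` is affine -/
def RA (f : ℝ → ℝ) (x : ℝ) : Prop := ∃ a b : ℝ, ∀ᶠ t in 𝓝[≥] x, f t = a * t + b

/-- left germ at `x` is affine -/
def LA (f : ℝ → ℝ) (x : ℝ) : Prop := ∃ a b : ℝ, ∀ᶠ t in 𝓝[≤] x, f t = a * t + b

/-- piecewise affine, in germ form -/
def IsPL (f : ℝ → ℝ) : Prop := ∀ x, RA f x ∧ LA f x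

abbrev Hm := ℝ ≃o ℝ

theorem Hm.tendsto_ge (g : Hm) (x : ℝ) : Tendsto g (𝓝[≥] x) (𝓝[≥] (g x)) := by
  apply tendsto_nhdsWithin_of_tendsto_nhds_of_eventually_within
  · exact (g.continuous.tendsto x).mono_left nhdsWithin_le_nhds
  · filter_upwards [self_mem_nhdsWithin] with t ht
    exact g.monotone ht

theorem Hm.tendsto_le (g : Hm) (x : ℝ) : Tendsto g (𝓝[≤] x) (𝓝[≤] (g x)) := by
  apply tendsto_nhdsWithin_of_tendsto_nhds_of_eventually_within
  · exact (g.continuous.tendsto x).mono_left nhdsWithin_le_nhds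
  · filter_upwards [self_mem_nhdsWithin] with t ht
    exact g.monotone ht

theorem RA.comp {f : ℝ → ℝ} {g : Hm} {x : ℝ} (hf : RA f (g x)) (hg : RA g x) :
    RA (fun t => f (g t)) x := by
  obtain ⟨a, b, h⟩ := hf
  obtain ⟨c, d, h'⟩ := hg
  refine ⟨a * c, a * d + b, ?_⟩
  filter_upwards [(g.tendsto_ge x).eventually h, h'] with t h1 h2
  rw [h1, h2]; ring

theorem LA.comp {f : ℝ → ℝ} {g : Hm} {x : ℝ} (hf : LA f (g x)) (hg : LA g x) :
    LA (fun t => f (g t)) x := by
  obtain ⟨a, b, h⟩ := hf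
  obtain ⟨c, d, h'⟩ := hg
  refine ⟨a * c, a * d + b, ?_⟩
  filter_upwards [(g.tendsto_le x).eventually h, h'] with t h1 h2
  rw [h1, h2]; ring

theorem slope_ne_zero_of_ge (g : Hm) {x a b : ℝ} (h : ∀ᶠ t in 𝓝[≥] x, g t = a * t + b) :
    a ≠ 0 := by
  rintro rfl
  rw [eventually_nhdsWithin_iff, Metric.eventually_nhds_iff] at h
  obtain ⟨e, he, h⟩ := h
  have h1 := h (y := x) (by simpa using he) (Set.mem_Ici.2 le_rfl)
  have h2 := h (y := x + e / 2) (by rw [Real.dist_eq]; simp; rw [abs_of_pos (half_pos he)]; linarith)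
    (Set.mem_Ici.2 (by linarith))
  have h3 : g x < g (x + e / 2) := g.strictMono (by linarith)
  linarith

theorem slope_ne_zero_of_le (g : Hm) {x a b : ℝ} (h : ∀ᶠ t in 𝓝[≤] x, g t = a * t + b) :
    a ≠ 0 := by
  rintro rfl
  rw [eventually_nhdsWithin_iff, Metric.eventually_nhds_iff] at h
  obtain ⟨e, he, h⟩ := h
  have h1 := h (y := x) (by simpa using he) (Set.mem_Iic.2 le_rfl)
  have h2 := h (y := x - e / 2) (by rw [Real.dist_eq]; simp; rw [abs_of_pos (half_pos he)]; linarith)
    (Set.mem_Iic.2 (by linarith))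
  have h3 : g (x - e / 2) < g x := g.strictMono (by linarith)
  linarith

theorem RA.inv {g : Hm} {x : ℝ} (hg : RA g x) : RA (g⁻¹ : Hm) (g x) := by
  obtain ⟨a, b, h⟩ := hg
  have ha := slope_ne_zero_of_ge g h
  refine ⟨a⁻¹, -b * a⁻¹, ?_⟩
  have h1 := (Hm.tendsto_ge (g⁻¹ : Hm) (g x))
  rw [RelIso.inv_apply_self] at h1
  filter_upwards [h1.eventually h] with t ht
  rw [RelIso.apply_inv_self] at ht
  field_simp
  linarith

theorem LA.inv {g : Hm} {x : ℝ} (hg : LA g x) : LA (g⁻¹ : Hm) (g x) := by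
  obtain ⟨a, b, h⟩ := hg
  have ha := slope_ne_zero_of_le g h
  refine ⟨a⁻¹, -b * a⁻¹, ?_⟩
  have h1 := (Hm.tendsto_le (g⁻¹ : Hm) (g x))
  rw [RelIso.inv_apply_self] at h1
  filter_upwards [h1.eventually h] with t ht
  rw [RelIso.apply_inv_self] at ht
  field_simp
  linarith

/-- The group of increasing piecewise affine homeomorphisms. -/
def P : Subgroup Hm where
  carrier := {f | IsPL f}
  mul_mem' := by
    intro f g hf hg x
    exact ⟨RA.comp (hf (g x)).1 (hg x).1, LA.comp (hf (g x)).2 (hg x).2⟩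
  one_mem' := by
    intro x
    exact ⟨⟨1, 0, Eventually.of_forall fun t => by simp⟩,
      ⟨1, 0, Eventually.of_forall fun t => by simp⟩⟩
  inv_mem' := by
    intro f hf x
    have h := hf (f⁻¹ x)
    have h1 := h.1.inv
    have h2 := h.2.inv
    rw [RelIso.apply_inv_self] at h1 h2
    exact ⟨h1, h2⟩

theorem mem_P {f : Hm} : f ∈ P ↔ IsPL f := Iff.rfl

/-- affine maps -/
noncomputable def aff (a b : ℝ) (ha : 0 < a) : Hm where
  toFun x := a * x + b
  invFun y := (y - b) / a
  left_inv x := by field_simp; ring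
  right_inv y := by field_simp; ring
  map_rel_iff' := by
    intro x y
    simp only [Equiv.coe_fn_mk, add_le_add_iff_right]
    exact mul_le_mul_iff_right₀ ha

@[simp] theorem aff_apply (a b : ℝ) (ha : 0 < a) (x : ℝ) : aff a b ha x = a * x + b := rfl

theorem aff_mem (a b : ℝ) (ha : 0 < a) : aff a b ha ∈ P := by
  intro x
  exact ⟨⟨a, b, Eventually.of_forall fun t => rfl⟩, ⟨a, b, Eventually.of_forall fun t => rfl⟩⟩

/-- translations -/
noncomputable def tr (r : ℝ) : Hm := aff 1 r one_pos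

@[simp] theorem tr_apply (r x : ℝ) : tr r x = x + r := by simp [tr]

theorem tr_mem (r : ℝ) : tr r ∈ P := aff_mem _ _ _

theorem tr_add (r s : ℝ) : tr (r + s) = tr r * tr s := by
  ext x; simp; ring

theorem tr_zero : tr 0 = 1 := by ext x; simp

theorem tr_inv (r : ℝ) : (tr r)⁻¹ = tr (-r) := by
  rw [inv_eq_iff_mul_eq_one, ← tr_add]; simp [tr_zero]

@[simp] theorem tr_inv_apply (r x : ℝ) : (tr r)⁻¹ x = x - r := by
  rw [tr_inv]; simp; ring

theorem tr_zpow (r : ℝ) (n : ℤ) : tr r ^ n = tr (n * r) := by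
  induction n using Int.induction_on with
  | zero => simp [tr_zero]
  | succ n ih => rw [zpow_add_one, ih, ← tr_add]; congr 1; push_cast; ring
  | pred n ih => rw [zpow_sub_one, ih, tr_inv, ← tr_add]; congr 1; push_cast; ring

/-- the affine map sending `p ↦ p'`, `q ↦ q'` -/
theorem exists_aff {p q p' q' : ℝ} (h : p < q) (h' : p' < q') :
    ∃ (a b : ℝ) (ha : 0 < a), aff a b ha p = p' ∧ aff a b ha q = q' := by
  refine ⟨(q' - p') / (q - p), p' - (q' - p') / (q - p) * p,
    div_pos (by linarith) (by linarith), ?_, ?_⟩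
  · simp
  · simp only [aff_apply]
    have : q - p ≠ 0 := by linarith
    field_simp
    ring

theorem RA.congr {f g : ℝ → ℝ} {x : ℝ} (hf : RA f x) (h : ∀ᶠ t in 𝓝[≥] x, g t = f t) :
    RA g x := by
  obtain ⟨a, b, h'⟩ := hf
  exact ⟨a, b, by filter_upwards [h, h'] with t h1 h2; rw [h1, h2]⟩

theorem LA.congr {f g : ℝ → ℝ} {x : ℝ} (hf : LA f x) (h : ∀ᶠ t in 𝓝[≤] x, g t = f t) :
    LA g x := by
  obtain ⟨a, b, h'⟩ := hf
  exact ⟨a, b, by filter_upwards [h, h'] with t h1 h2; rw [h1, h2]⟩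

/-- gluing two maps at a point -/
theorem exists_glue {f g : Hm} (hf : f ∈ P) (hg : g ∈ P) {c : ℝ} (h : f c = g c) :
    ∃ k ∈ P, (∀ x ≤ c, k x = f x) ∧ ∀ x, c ≤ x → k x = g x := by
  classical
  let k0 : ℝ → ℝ := fun x => if x ≤ c then f x else g x
  have k1 : ∀ x ≤ c, k0 x = f x := fun x hx => if_pos hx
  have k2 : ∀ x, c ≤ x → k0 x = g x := by
    intro x hx
    rcases eq_or_lt_of_le hx with rfl | hx
    · rw [k1 _ le_rfl, h]
    · exact if_neg (not_le.2 hx)
  have hm : StrictMono k0 := by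
    intro x y hxy
    rcases le_total y c with hy | hy
    · rw [k1 x (by linarith), k1 y hy]; exact f.strictMono hxy
    · rcases le_total x c with hx | hx
      · rw [k1 x hx, k2 y hy]
        rcases eq_or_lt_of_le hx with rfl | hx'
        · rw [h]; exact g.strictMono hxy
        · calc f x < f c := f.strictMono hx'
            _ = g c := h
            _ ≤ g y := g.monotone hy
      · rw [k2 x hx, k2 y hy]; exact g.strictMono hxy
  have hs : Function.Surjective k0 := by
    intro y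
    rcases le_total y (f c) with hy | hy
    · refine ⟨f⁻¹ y, ?_⟩
      rw [k1, RelIso.apply_inv_self]
      rw [← f.le_iff_le, RelIso.apply_inv_self]; exact hy
    · refine ⟨g⁻¹ y, ?_⟩
      rw [k2, RelIso.apply_inv_self]
      rw [← g.le_iff_le, RelIso.apply_inv_self, ← h]; exact hy
  refine ⟨hm.orderIsoOfSurjective k0 hs, ?_, fun x hx => k1 x hx, fun x hx => k2 x hx⟩
  intro x
  have hk : ∀ t, (hm.orderIsoOfSurjective k0 hs) t = k0 t := fun t => rfl
  constructor
  · rcases lt_or_ge x c with hx | hx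
    · refine (hf x).1.congr ?_
      filter_upwards [mem_nhdsWithin_of_mem_nhds (Iio_mem_nhds hx)] with t ht
      rw [hk, k1 t (le_of_lt ht)]
    · refine (hg x).1.congr ?_
      filter_upwards [self_mem_nhdsWithin] with t ht
      rw [hk, k2 t (le_trans hx ht)]
  · rcases le_or_gt x c with hx | hx
    · refine (hf x).2.congr ?_
      filter_upwards [self_mem_nhdsWithin] with t ht
      rw [hk, k1 t (le_trans ht hx)]
    · refine (hg x).2.congr ?_
      filter_upwards [mem_nhdsWithin_of_mem_nhds (Ioi_mem_nhds hx)] with t ht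
      rw [hk, k2 t (le_of_lt ht)]

theorem exists_int_between {c : ℤ → ℝ} (hc : StrictMono c) (hb : Tendsto c atBot atBot)
    (ht : Tendsto c atTop atTop) (x : ℝ) : ∃ n, c n ≤ x ∧ x < c (n + 1) := by
  obtain ⟨m, hm⟩ := (hb.eventually (eventually_le_atBot x)).exists
  obtain ⟨M, hM⟩ := (ht.eventually (eventually_gt_atTop x)).exists
  obtain ⟨n, hn, hn'⟩ := Int.exists_greatest_of_bdd (P := fun n => c n ≤ x)
    ⟨M, fun z hz => by
      by_contra hlt
      exact absurd (lt_of_lt_of_le (hc (not_le.1 hlt)) hz) (by linarith)⟩ ⟨m, hm⟩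
  refine ⟨n, hn, ?_⟩
  by_contra h
  have := hn' (n + 1) (not_lt.1 h)
  omega

/-- gluing a bi-infinite sequence of maps -/
theorem exists_glueZ {c : ℤ → ℝ} (hc : StrictMono c) (hb : Tendsto c atBot atBot)
    (ht : Tendsto c atTop atTop) {g : ℤ → Hm} (hg : ∀ n, g n ∈ P)
    (hgl : ∀ n, g n (c (n + 1)) = g (n + 1) (c (n + 1)))
    (db : Tendsto (fun n => g n (c n)) atBot atBot)
    (dt : Tendsto (fun n => g n (c n)) atTop atTop) :
    ∃ k ∈ P, ∀ n x, c n ≤ x → x ≤ c (n + 1) → k x = g n x := by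
  classical
  choose N hN1 hN2 using exists_int_between hc hb ht
  let k0 : ℝ → ℝ := fun x => g (N x) x
  have uniq : ∀ n x, c n ≤ x → x < c (n + 1) → N x = n := by
    intro n x h1 h2
    have h3 : c n < c (N x + 1) := lt_of_le_of_lt h1 (hN2 x)
    have h4 : c (N x) < c (n + 1) := lt_of_le_of_lt (hN1 x) h2
    rw [hc.lt_iff_lt] at h3 h4
    omega
  have key : ∀ n x, c n ≤ x → x ≤ c (n + 1) → k0 x = g n x := by
    intro n x h1 h2
    rcases eq_or_lt_of_le h2 with rfl | h2
    · have : N (c (n + 1)) = n + 1 := uniq _ _ le_rfl (hc (by omega))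
      show g (N _) _ = _
      rw [this, hgl]
    · show g (N _) _ = _
      rw [uniq n x h1 h2]
  have hd : StrictMono (fun n => g n (c n)) := by
    apply strictMono_int_of_lt_succ
    intro n
    rw [← hgl]
    exact (g n).strictMono (hc (by omega))
  have hm : StrictMono k0 := by
    intro x y hxy
    have hle : N x ≤ N y := by
      have : c (N x) < c (N y + 1) := lt_of_le_of_lt (hN1 x) (lt_trans hxy (hN2 y))
      rw [hc.lt_iff_lt] at this
      omega
    rcases eq_or_lt_of_le hle with h | h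
    · show g (N x) x < g (N y) y
      rw [h]; exact (g _).strictMono hxy
    · calc g (N x) x < g (N x) (c (N x + 1)) := (g _).strictMono (hN2 x)
        _ = g (N x + 1) (c (N x + 1)) := hgl _
        _ ≤ g (N y) (c (N y)) := hd.monotone (by omega)
        _ ≤ g (N y) y := (g _).monotone (hN1 y)
  have hs : Function.Surjective k0 := by
    intro y
    obtain ⟨n, h1, h2⟩ := exists_int_between hd db dt y
    refine ⟨(g n)⁻¹ y, ?_⟩
    rw [key n, RelIso.apply_inv_self]
    · rw [← (g n).le_iff_le, RelIso.apply_inv_self]; exact h1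
    · rw [← (g n).le_iff_le, RelIso.apply_inv_self, hgl]; exact h2.le
  refine ⟨hm.orderIsoOfSurjective k0 hs, ?_, fun n x h1 h2 => key n x h1 h2⟩
  intro x
  have hk : ∀ t, (hm.orderIsoOfSurjective k0 hs) t = k0 t := fun t => rfl
  constructor
  · refine (hg (N x) x).1.congr ?_
    filter_upwards [mem_nhdsWithin_of_mem_nhds (Iio_mem_nhds (hN2 x)), self_mem_nhdsWithin]
      with t h1 h2
    rw [hk, key (N x) t (le_trans (hN1 x) h2) (le_of_lt h1)]
  · rcases eq_or_lt_of_le (hN1 x) with h | h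
    · refine (hg (N x - 1) x).2.congr ?_
      have hlt : c (N x - 1) < x := by
        rw [← h]; exact hc (by rw [h]; omega)
      filter_upwards [mem_nhdsWithin_of_mem_nhds (Ioi_mem_nhds hlt), self_mem_nhdsWithin]
        with t h1 h2
      rw [hk, key (N x - 1) t (le_of_lt h1) (by rw [sub_add_cancel, h]; exact h2)]
    · refine (hg (N x) x).2.congr ?_
      filter_upwards [mem_nhdsWithin_of_mem_nhds (Ioi_mem_nhds h), self_mem_nhdsWithin]
        with t h1 h2
      rw [hk, key (N x) t (le_of_lt h1) (le_trans h2 (hN2 x).le)]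

end Pool.Agent.H16.PLR
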