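import Pool.Agent.H16.PLR.Model

/-! Existence of a bi-infinite sequence of charts in which `f` is a translation. -/

set_option autoImplicit false

open Set Filter Topology
open scoped commutatorElement

namespace Pool.Agent.H16.PLR

theorem exists_chart {g : Hm} (hg : g ∈ P) {w : ℝ} (hw : w < g w) (N : ℕ) (c : ℝ) :
    ∃ χ ∈ P, χ w = c ∧ ∀ x, w ≤ x → χ x ≤ c + N → χ (g x) = χ x + 1 := by
  have key : ∀ N : ℕ, ∃ χ ∈ P, χ w = 0 ∧ χ ((g ^ N) w) = N ∧
      ∀ x, w ≤ x → x ≤ (g ^ N) w → χ (g x) = χ x + 1 := by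
    intro N
    induction N with
    | zero =>
      obtain ⟨a, b, ha, e1, e2⟩ := exists_aff hw one_pos
      refine ⟨aff a b ha, aff_mem _ _ _, e1, by simpa using e1, fun x hx hx' => ?_⟩
      have : x = w := le_antisymm (by simpa using hx') hx
      rw [this, e2, e1]; ring
    | succ N ih =>
      obtain ⟨χ, hχ, h1, h2, h3⟩ := ih
      have hle : w ≤ (g ^ N) w := by
        rw [← χ.le_iff_le, h1, h2]; exact Nat.cast_nonneg N
      have hs : (g ^ (N + 1)) w = g ((g ^ N) w) := by rw [pow_succ']; rfl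
      have hle' : (g ^ N) w ≤ (g ^ (N + 1)) w := by
        rw [hs, ← χ.le_iff_le, h3 _ hle le_rfl]; linarith
      have hz : χ ((g ^ (N + 1)) w) = (tr 1 * χ * g⁻¹) ((g ^ (N + 1)) w) := by
        simp only [RelIso.mul_apply, tr_apply]
        rw [hs, RelIso.inv_apply_self, h3 _ hle le_rfl]
      obtain ⟨ψ, hψ, g1, g2⟩ := exists_glue hχ
        (P.mul_mem (P.mul_mem (tr_mem 1) hχ) (P.inv_mem hg)) hz
      refine ⟨ψ, hψ, ?_, ?_, fun x hx hx' => ?_⟩
      · rw [g1 _ (hle.trans hle'), h1]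
      · rw [g1 _ le_rfl, hs, h3 _ hle le_rfl, h2]; push_cast; ring
      · rcases le_total x ((g ^ N) w) with h | h
        · have : g x ≤ (g ^ (N + 1)) w := by rw [hs]; exact g.monotone h
          rw [g1 _ this, g1 _ hx', h3 x hx h]
        · have : (g ^ (N + 1)) w ≤ g x := by rw [hs]; exact g.monotone h
          rw [g2 _ this, g1 _ hx']
          simp only [RelIso.mul_apply, tr_apply, RelIso.inv_apply_self]
  obtain ⟨χ, hχ, h1, h2, h3⟩ := key N
  refine ⟨tr c * χ, P.mul_mem (tr_mem _) hχ, ?_, fun x hx hx' => ?_⟩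
  · simp only [RelIso.mul_apply, tr_apply, h1]; ring
  · simp only [RelIso.mul_apply, tr_apply] at hx' ⊢
    rw [h3 x hx]
    · ring
    · rw [← χ.le_iff_le, h2]; linarith

/-- a chart in which `f` is `x ↦ x + (j - i)` -/
structure Blk (f χ : Hm) (i j : ℝ) : Prop where
  mem : χ ∈ P
  ij : (i = 0 ∧ j = 1) ∨ (i = 1 ∧ j = 0) ∨ (i = 0 ∧ j = 0)
  eq : ∀ x, -8 ≤ χ x → χ x ≤ 380 → χ (f x) = χ x + (j - i)

theorem exists_Blk {f : Hm} (hf : f ∈ P) {w : ℝ} (hw : f w ≠ w) :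
    ∃ χ i j, Blk f χ i j ∧ ¬ (i = 0 ∧ j = 0) ∧ w ≤ χ⁻¹ (-8) := by
  rcases lt_or_gt_of_ne hw with h | h
  · have hw' : w < f⁻¹ w := by rw [← f.lt_iff_lt, RelIso.apply_inv_self]; exact h
    obtain ⟨χ, hχ, h1, h2⟩ := exists_chart (P.inv_mem hf) hw' 400 (-9)
    refine ⟨χ, 1, 0, ⟨hχ, Or.inr (Or.inl ⟨rfl, rfl⟩), fun x hx hx' => ?_⟩, by simp, ?_⟩
    · have h3 : χ (f⁻¹ w) = -8 := by
        rw [h2 w le_rfl (by rw [h1]; norm_num), h1]; norm_num
      have h4 : f⁻¹ w ≤ x := by rw [← χ.le_iff_le, h3]; exact hx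
      have h5 : w ≤ f x := by
        have := f.monotone h4
        rwa [RelIso.apply_inv_self] at this
      have h6 : χ (f x) ≤ -9 + (400 : ℕ) := by
        have h7 : f x < f⁻¹ (f x) ∨ f⁻¹ (f x) ≤ f x := lt_or_ge _ _
        rcases h7 with h7 | h7
        · rw [RelIso.inv_apply_self] at h7
          have := χ.monotone h7.le
          push_cast; linarith
        · by_contra hcon
          rw [RelIso.inv_apply_self] at h7
          have h8 : χ x ≤ χ (f x) := χ.monotone h7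
          -- use the chart at the point `x`
          have h9 := h2 x (by linarith [h4]) (by push_cast; linarith)
          -- `χ (f⁻¹ x) = χ x + 1`, so `x < f⁻¹ x`, hence `f x < x`
          have h10 : x < f⁻¹ x := by rw [← χ.lt_iff_lt, h9]; linarith
          have h11 : f x < x := by
            have := f.strictMono h10
            rwa [RelIso.apply_inv_self] at this
          linarith
      have h7 := h2 (f x) h5 h6
      rw [RelIso.inv_apply_self] at h7
      linarith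
    · rw [← χ.le_iff_le, RelIso.apply_inv_self, h1]; norm_num
  · obtain ⟨χ, hχ, h1, h2⟩ := exists_chart hf h 400 (-8)
    refine ⟨χ, 0, 1, ⟨hχ, Or.inl ⟨rfl, rfl⟩, fun x hx hx' => ?_⟩, by simp, ?_⟩
    · rw [h2 x (by rw [← χ.le_iff_le, h1]; exact hx) (by push_cast; linarith)]; ring
    · rw [← χ.le_iff_le, RelIso.apply_inv_self, h1]

/-- blocks to the right of a point -/
theorem right_blocks {f : Hm} (hf : f ∈ P) (c₀ : ℝ) :
    ∃ (χ : ℕ → Hm) (i j : ℕ → ℝ), (∀ k, Blk f (χ k) (i k) (j k)) ∧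
      (∀ k, (χ k)⁻¹ 380 < (χ (k + 1))⁻¹ (-8)) ∧ (∀ k : ℕ, c₀ + k < (χ k)⁻¹ (-8)) ∧
      ((∀ k, ¬ (i k = 0 ∧ j k = 0)) ∨ (∀ x, (χ 0)⁻¹ (-8) ≤ x → f x = x)) := by
  by_cases h : ∀ c : ℝ, ∃ w, c < w ∧ f w ≠ w
  · -- unbounded support
    have step : ∀ c : ℝ, ∃ t : Hm × ℝ × ℝ, Blk f t.1 t.2.1 t.2.2 ∧
        ¬ (t.2.1 = 0 ∧ t.2.2 = 0) ∧ c < t.1⁻¹ (-8) := by
      intro c
      obtain ⟨w, hw, hw'⟩ := h c
      obtain ⟨χ, i, j, h1, h2, h3⟩ := exists_Blk hf hw'
      exact ⟨(χ, i, j), h1, h2, by linarith⟩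
    choose T hT1 hT2 hT3 using step
    -- recursion
    let S : ℕ → Hm × ℝ × ℝ := fun n => Nat.rec (T c₀)
      (fun n prev => T (max (prev.1⁻¹ 380) (c₀ + (n + 1 : ℕ)))) n
    have hS0 : S 0 = T c₀ := rfl
    have hS1 : ∀ n, S (n + 1) = T (max ((S n).1⁻¹ 380) (c₀ + (n + 1 : ℕ))) := fun n => rfl
    have hex : ∀ n, ∃ c, S n = T c := by
      intro n
      cases n with
      | zero => exact ⟨_, hS0⟩
      | succ n => exact ⟨_, hS1 n⟩
    refine ⟨fun n => (S n).1, fun n => (S n).2.1, fun n => (S n).2.2, fun k => ?_, fun k => ?_,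
      fun k => ?_, Or.inl fun k => ?_⟩
    · obtain ⟨c, hc⟩ := hex k
      simp only [hc]; exact hT1 c
    · have := hT3 (max ((S k).1⁻¹ 380) (c₀ + (k + 1 : ℕ)))
      rw [← hS1] at this
      exact lt_of_le_of_lt (le_max_left _ _) this
    · cases k with
      | zero =>
        have := hT3 c₀
        rw [← hS0] at this
        simpa using this
      | succ k =>
        have := hT3 (max ((S k).1⁻¹ 380) (c₀ + (k + 1 : ℕ)))
        rw [← hS1] at this
        exact lt_of_le_of_lt (le_max_right _ _) this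
    · obtain ⟨c, hc⟩ := hex k
      simp only [hc]; exact hT2 c
  · have h' : ∃ c : ℝ, ∀ w, c < w → f w = w := by
      by_contra hcon
      apply h
      intro c
      by_contra h2
      apply hcon
      refine ⟨c, fun w hw => ?_⟩
      by_contra h3
      exact h2 ⟨w, hw, h3⟩
    obtain ⟨c, hc⟩ := h'
    obtain ⟨C, hC1, hC2⟩ : ∃ C : ℝ, c < C ∧ c₀ < C := ⟨max c c₀ + 1, by
      have := le_max_left c c₀; linarith, by have := le_max_right c c₀; linarith⟩
    have hinv : ∀ (a y : ℝ), (tr a)⁻¹ y = y - a := fun a y => tr_inv_apply a y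
    refine ⟨fun k => tr (-(C + 10 + 400 * k)), fun _ => 0, fun _ => 0, fun k => ?_, fun k => ?_,
      fun k => ?_, Or.inr fun x hx => ?_⟩
    · refine ⟨tr_mem _, Or.inr (Or.inr ⟨rfl, rfl⟩), fun x hx _ => ?_⟩
      simp only [tr_apply] at hx ⊢
      have hk : (0 : ℝ) ≤ k := Nat.cast_nonneg k
      rw [hc x (by linarith)]; ring
    · rw [hinv, hinv]; push_cast; linarith
    · rw [hinv]
      have hk : (0 : ℝ) ≤ k := Nat.cast_nonneg k
      linarith
    · rw [hinv] at hx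
      simp only [Nat.cast_zero, mul_zero, add_zero] at hx
      exact hc x (by linarith)

theorem left_blocks {f : Hm} (hf : f ∈ P) (c₀ : ℝ) :
    ∃ (χ : ℕ → Hm) (i j : ℕ → ℝ), (∀ k, Blk f (χ k) (i k) (j k)) ∧
      (∀ k, (χ (k + 1))⁻¹ 380 < (χ k)⁻¹ (-8)) ∧ (∀ k : ℕ, (χ k)⁻¹ 380 < c₀ - k) ∧
      ((∀ k, ¬ (i k = 0 ∧ j k = 0)) ∨ (∀ x, x ≤ (χ 0)⁻¹ 380 → f x = x)) := by
  obtain ⟨χ, i, j, h1, h2, h3, h4⟩ := right_blocks (rf_mem hf) (-c₀)
  have hx : ∀ k x, (tr 372 * rf (χ k)) x = 372 - χ k (-x) := by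
    intro k x; simp only [RelIso.mul_apply, tr_apply, rf_apply]; ring
  have hinv : ∀ k y, (tr 372 * rf (χ k))⁻¹ y = -(χ k)⁻¹ (372 - y) := by
    intro k y
    rw [← (tr 372 * rf (χ k)).injective.eq_iff, RelIso.apply_inv_self, hx, neg_neg,
      RelIso.apply_inv_self]
    ring
  have e1 : (372 : ℝ) - -8 = 380 := by norm_num
  have e2 : (372 : ℝ) - 380 = -8 := by norm_num
  refine ⟨fun k => tr 372 * rf (χ k), j, i, fun k => ?_, fun k => ?_, fun k => ?_, ?_⟩
  · refine ⟨P.mul_mem (tr_mem _) (rf_mem (h1 k).mem), ?_, fun x hx1 hx2 => ?_⟩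
    · rcases (h1 k).ij with h | h | h
      · exact Or.inr (Or.inl ⟨h.2, h.1⟩)
      · exact Or.inl ⟨h.2, h.1⟩
      · exact Or.inr (Or.inr ⟨h.2, h.1⟩)
    · rw [hx] at hx1 hx2
      have := (h1 k).eq (-x) (by linarith) (by linarith)
      rw [rf_apply, neg_neg] at this
      rw [hx, hx, this]; ring
  · simp only [hinv]
    rw [e1, e2]
    have := h2 k
    linarith
  · simp only [hinv]
    rw [e2]
    have := h3 k
    linarith
  · rcases h4 with h4 | h4
    · exact Or.inl fun k h => h4 k ⟨h.2, h.1⟩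
    · refine Or.inr fun x hx' => ?_
      rw [hinv, e2] at hx'
      have := h4 (-x) (by linarith)
      rw [rf_apply, neg_neg] at this
      linarith

/-- bi-infinite sequences of blocks -/
structure BSeq (f : Hm) (χ : ℤ → Hm) (i j : ℤ → ℝ) : Prop where
  blk : ∀ k, Blk f (χ k) (i k) (j k)
  sep : ∀ k, (χ k)⁻¹ 380 < (χ (k + 1))⁻¹ (-8)
  top : Tendsto (fun k => (χ k)⁻¹ (-8)) atTop atTop
  bot : Tendsto (fun k => (χ k)⁻¹ 380) atBot atBot
  triv : ∀ k, i (2 * k + 1) = 0 → j (2 * k + 1) = 0 → ∀ x, (χ (2 * k))⁻¹ (-8) ≤ x →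
    x ≤ (χ (2 * k + 2))⁻¹ 380 → f x = x

theorem exists_BSeq {f : Hm} (hf : f ∈ P) (h1 : f ≠ 1) : ∃ χ i j, BSeq f χ i j := by
  obtain ⟨w, hw⟩ : ∃ w, f w ≠ w := by
    by_contra hcon
    apply h1
    apply Hm.ext'
    intro x
    by_contra h
    exact hcon ⟨x, h⟩
  obtain ⟨χc, ic, jc, hc, hcn, -⟩ := exists_Blk hf hw
  obtain ⟨χr, ir, jr, r1, r2, r3, r4⟩ := right_blocks hf (χc⁻¹ 380)
  obtain ⟨χl, il, jl, l1, l2, l3, l4⟩ := left_blocks hf (χc⁻¹ (-8))
  -- assemble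
  let F : {α : Type} → (ℕ → α) → α → (ℕ → α) → ℤ → α := fun R c L k =>
    if 2 ≤ k then R (k - 2).toNat else if k = 1 then c else L (-k).toNat
  have FR : ∀ {α : Type} (R : ℕ → α) (c : α) (L : ℕ → α) (n : ℕ), F R c L (n + 2) = R n := by
    intro α R c L n
    simp only [F]
    rw [if_pos (by omega)]
    congr 1
    omega
  have FC : ∀ {α : Type} (R : ℕ → α) (c : α) (L : ℕ → α), F R c L 1 = c := by
    intro α R c L
    simp only [F]
    rw [if_neg (by omega), if_pos trivial]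
  have FL : ∀ {α : Type} (R : ℕ → α) (c : α) (L : ℕ → α) (n : ℕ), F R c L (-n) = L n := by
    intro α R c L n
    simp only [F]
    rw [if_neg (by omega), if_neg (by omega)]
    congr 1
    omega
  have cases3 : ∀ k : ℤ, (∃ n : ℕ, k = n + 2) ∨ k = 1 ∨ ∃ n : ℕ, k = -n := by
    intro k
    rcases lt_trichotomy k 1 with h | h | h
    · exact Or.inr (Or.inr ⟨(-k).toNat, by omega⟩)
    · exact Or.inr (Or.inl h)
    · exact Or.inl ⟨(k - 2).toNat, by omega⟩
  refine ⟨F χr χc χl, F ir ic il, F jr jc jl, ?_, ?_, ?_, ?_, ?_⟩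
  · intro k
    rcases cases3 k with ⟨n, rfl⟩ | rfl | ⟨n, rfl⟩
    · rw [FR, FR, FR]; exact r1 n
    · rw [FC, FC, FC]; exact hc
    · rw [FL, FL, FL]; exact l1 n
  · intro k
    rcases cases3 k with ⟨n, rfl⟩ | rfl | ⟨n, rfl⟩
    · have e : (n : ℤ) + 2 + 1 = ((n + 1 : ℕ) : ℤ) + 2 := by push_cast; ring
      rw [e, FR, FR]; exact r2 n
    · have e : (1 : ℤ) + 1 = ((0 : ℕ) : ℤ) + 2 := by norm_num
      rw [e, FC, FR]
      have := r3 0
      simpa using this
    · rcases n with _ | n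
      · have e : -((0 : ℕ) : ℤ) + 1 = 1 := by norm_num
        rw [e, FL, FC]
        have := l3 0
        simpa using this
      · have e : -((n + 1 : ℕ) : ℤ) + 1 = -(n : ℤ) := by push_cast; ring
        rw [e, FL, FL]; exact l2 n
  · rw [tendsto_atTop]
    intro b
    filter_upwards [eventually_ge_atTop (((⌈b - χc⁻¹ 380⌉₊ : ℕ) : ℤ) + 2)] with k hk
    obtain ⟨n, rfl⟩ : ∃ n : ℕ, k = n + 2 := ⟨(k - 2).toNat, by omega⟩
    rw [FR]
    have h2 := r3 n
    have h3 : (⌈b - χc⁻¹ 380⌉₊ : ℝ) ≤ n := by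
      have : (⌈b - χc⁻¹ 380⌉₊ : ℤ) ≤ n := by omega
      exact_mod_cast this
    have h4 := Nat.le_ceil (b - χc⁻¹ 380)
    linarith
  · rw [tendsto_atBot]
    intro b
    filter_upwards [eventually_le_atBot (-((⌈χc⁻¹ (-8) - b⌉₊ : ℕ) : ℤ))] with k hk
    obtain ⟨n, rfl⟩ : ∃ n : ℕ, k = -n := ⟨(-k).toNat, by omega⟩
    rw [FL]
    have h2 := l3 n
    have h3 : (⌈χc⁻¹ (-8) - b⌉₊ : ℝ) ≤ n := by
      have : (⌈χc⁻¹ (-8) - b⌉₊ : ℤ) ≤ n := by omega
      exact_mod_cast this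
    have h4 := Nat.le_ceil (χc⁻¹ (-8) - b)
    linarith
  · intro k hi hj x hx hx'
    rcases cases3 (2 * k + 1) with ⟨n, hn⟩ | hn | ⟨n, hn⟩
    · rw [hn, FR] at hi hj
      rcases r4 with h | h
      · exact absurd ⟨hi, hj⟩ (h n)
      · apply h
        obtain ⟨m, hm⟩ : ∃ m : ℕ, 2 * k = m + 2 := ⟨(2 * k - 2).toNat, by omega⟩
        rw [hm, FR] at hx
        refine le_trans ?_ hx
        have hmono : ∀ m : ℕ, (χr 0)⁻¹ (-8) ≤ (χr m)⁻¹ (-8) := by
          intro m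
          induction m with
          | zero => exact le_rfl
          | succ m ih =>
            have h5 := r2 m
            have h6 : (χr m)⁻¹ (-8) ≤ (χr m)⁻¹ 380 := (χr m)⁻¹.monotone (by norm_num)
            linarith
        exact hmono m
    · rw [hn, FC] at hi hj
      exact absurd ⟨hi, hj⟩ hcn
    · rw [hn, FL] at hi hj
      rcases l4 with h | h
      · exact absurd ⟨hi, hj⟩ (h n)
      · apply h
        obtain ⟨m, hm⟩ : ∃ m : ℕ, 2 * k + 2 = -m := ⟨(-(2 * k + 2)).toNat, by omega⟩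
        rw [hm, FL] at hx'
        refine le_trans hx' ?_
        have hmono : ∀ m : ℕ, (χl m)⁻¹ 380 ≤ (χl 0)⁻¹ 380 := by
          intro m
          induction m with
          | zero => exact le_rfl
          | succ m ih =>
            have h5 := l2 m
            have h6 : (χl m)⁻¹ (-8) ≤ (χl m)⁻¹ 380 := (χl m)⁻¹.monotone (by norm_num)
            linarith
        exact hmono m

end Pool.Agent.H16.PLR
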