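import Pool.Agent.H16.PLR.Supp

/-! Elements with one interior break; perfectness. -/

set_option autoImplicit false

open Set Filter Topology

namespace Pool.Agent.H16.PLR

/-- `f` is affine on `[u, v]` -/
def AffOn (f : ℝ → ℝ) (u v : ℝ) : Prop := ∃ a b : ℝ, ∀ x, u ≤ x → x ≤ v → f x = a * x + b

theorem AffOn.mono {f : ℝ → ℝ} {u v u' v' : ℝ} (h : AffOn f u v) (h1 : u ≤ u') (h2 : v' ≤ v) :
    AffOn f u' v' := by
  obtain ⟨a, b, h⟩ := h
  exact ⟨a, b, fun x hx hx' => h x (h1.trans hx) (hx'.trans h2)⟩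

theorem AffOn.congr {f g : ℝ → ℝ} {u v : ℝ} (h : AffOn f u v)
    (hfg : ∀ x, u ≤ x → x ≤ v → g x = f x) : AffOn g u v := by
  obtain ⟨a, b, h⟩ := h
  exact ⟨a, b, fun x hx hx' => by rw [hfg x hx hx', h x hx hx']⟩

theorem AffOn.one (u v : ℝ) : AffOn (1 : Hm) u v := ⟨1, 0, fun _ _ _ => by simp⟩

theorem AffOn.aff (a b : ℝ) (ha : 0 < a) (u v : ℝ) : AffOn (aff a b ha) u v :=
  ⟨a, b, fun x _ _ => rfl⟩

theorem AffOn.comp {f : ℝ → ℝ} {g : Hm} {u v : ℝ} (hf : AffOn f (g u) (g v)) (hg : AffOn g u v) :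
    AffOn (fun x => f (g x)) u v := by
  obtain ⟨a, b, h⟩ := hf
  obtain ⟨c, d, h'⟩ := hg
  refine ⟨a * c, a * d + b, fun x hx hx' => ?_⟩
  show f (g x) = _
  rw [h _ (g.monotone hx) (g.monotone hx'), h' x hx hx']; ring

theorem AffOn.mul {f g : Hm} {u v : ℝ} (hf : AffOn f (g u) (g v)) (hg : AffOn g u v) :
    AffOn (f * g : Hm) u v := AffOn.comp hf hg

theorem AffOn.inv {g : Hm} {u v : ℝ} (huv : u < v) (hg : AffOn g u v) :
    AffOn (g⁻¹ : Hm) (g u) (g v) := by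
  obtain ⟨a, b, h⟩ := hg
  have ha : a ≠ 0 := by
    rintro rfl
    have h1 := h u le_rfl huv.le
    have h2 := h v huv.le le_rfl
    have := g.strictMono huv
    linarith
  refine ⟨a⁻¹, -b * a⁻¹, fun x hx hx' => ?_⟩
  have h1 : u ≤ g⁻¹ x := by rw [← g.le_iff_le, RelIso.apply_inv_self]; exact hx
  have h2 : g⁻¹ x ≤ v := by rw [← g.le_iff_le, RelIso.apply_inv_self]; exact hx'
  have := h _ h1 h2
  rw [RelIso.apply_inv_self] at this
  field_simp
  linarith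

theorem AffOn.inv' {g : Hm} {u v u' v' : ℝ} (huv : u < v) (hu : g u = u') (hv : g v = v')
    (hg : AffOn g u v) : AffOn (g⁻¹ : Hm) u' v' := by
  rw [← hu, ← hv]; exact AffOn.inv huv hg

theorem AffOn.eq_of {f g : ℝ → ℝ} {u v : ℝ} (huv : u < v) (hf : AffOn f u v) (hg : AffOn g u v)
    (hu : f u = g u) (hv : f v = g v) {x : ℝ} (hx : u ≤ x) (hx' : x ≤ v) : f x = g x := by
  obtain ⟨a, b, h⟩ := hf
  obtain ⟨c, d, h'⟩ := hg
  rw [h _ le_rfl huv.le, h' _ le_rfl huv.le] at hu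
  rw [h _ huv.le le_rfl, h' _ huv.le le_rfl] at hv
  rw [h x hx hx', h' x hx hx']
  have h1 : (a - c) * (v - u) = 0 := by linarith
  have h2 : a - c = 0 := by
    rcases mul_eq_zero.1 h1 with h2 | h2
    · exact h2
    · linarith
  have h3 : a = c := by linarith
  subst h3
  linarith

theorem AffOn.id_of {f : ℝ → ℝ} {u v : ℝ} (huv : u < v) (hf : AffOn f u v)
    (hu : f u = u) (hv : f v = v) {x : ℝ} (hx : u ≤ x) (hx' : x ≤ v) : f x = x :=
  AffOn.eq_of huv hf (g := fun x => x) ⟨1, 0, fun x _ _ => by ring⟩ hu hv hx hx'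

theorem AffOn.val {f : ℝ → ℝ} {u v : ℝ} (huv : u < v) (hf : AffOn f u v) {x : ℝ}
    (hx : u ≤ x) (hx' : x ≤ v) : (f x - f u) * (v - u) = (x - u) * (f v - f u) := by
  obtain ⟨a, b, h⟩ := hf
  rw [h x hx hx', h u le_rfl huv.le, h v huv.le le_rfl]
  ring

/-- `b` is supported in `[p, q]`, affine on `[p, t]` and `[t, q]`, and `b t = t'`. -/
structure Brk (p q t t' : ℝ) (b : Hm) : Prop where
  mem : b ∈ PS p q
  aff1 : AffOn b p t
  aff2 : AffOn b t q
  val : b t = t'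

theorem PS_left {u v : ℝ} {g : Hm} (hg : g ∈ PS u v) : g u = u := hg.2.1 u le_rfl
theorem PS_right {u v : ℝ} {g : Hm} (hg : g ∈ PS u v) : g v = v := hg.2.2 v le_rfl

theorem Brk.unique {p q t t' : ℝ} (h1 : p < t) (h2 : t < q) {b b' : Hm} (hb : Brk p q t t' b)
    (hb' : Brk p q t t' b') : b = b' := by
  apply Hm.ext'
  intro x
  rcases le_total x p with hx | hx
  · rw [hb.mem.2.1 x hx, hb'.mem.2.1 x hx]
  rcases le_total x t with hx' | hx'
  · exact AffOn.eq_of h1 hb.aff1 hb'.aff1 (by rw [PS_left hb.mem, PS_left hb'.mem])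
      (by rw [hb.val, hb'.val]) hx hx'
  rcases le_total x q with hx'' | hx''
  · exact AffOn.eq_of h2 hb.aff2 hb'.aff2 (by rw [hb.val, hb'.val])
      (by rw [PS_right hb.mem, PS_right hb'.mem]) hx' hx''
  · rw [hb.mem.2.2 x hx'', hb'.mem.2.2 x hx'']

theorem exists_Brk {p q t t' : ℝ} (h1 : p < t) (h2 : t < q) (h1' : p < t') (h2' : t' < q) :
    ∃ b, Brk p q t t' b := by
  obtain ⟨a1, b1, ha1, e1, e1'⟩ := exists_aff h1 h1'
  obtain ⟨a2, b2, ha2, e2, e2'⟩ := exists_aff h2 h2'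
  obtain ⟨k, hk, k1, k2⟩ := exists_glue (aff_mem a1 b1 ha1) (aff_mem a2 b2 ha2) (c := t)
    (by rw [e1', e2])
  obtain ⟨b, hb, hb'⟩ := exists_restr hk (u := p) (v := q) (by linarith)
    (by rw [k1 p h1.le, e1]) (by rw [k2 q h2.le, e2'])
  refine ⟨b, hb, ?_, ?_, ?_⟩
  · exact (AffOn.aff a1 b1 ha1 p t).congr fun x hx hx' => by
      rw [hb' x hx (by linarith), k1 x hx']
  · exact (AffOn.aff a2 b2 ha2 t q).congr fun x hx hx' => by
      rw [hb' x (by linarith) hx', k2 x hx]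
  · rw [hb' t h1.le h2.le, k1 t le_rfl, e1']

theorem Brk.comp {p q t t' t'' : ℝ} {b b' : Hm} (hb : Brk p q t t' b)
    (hb' : Brk p q t' t'' b') : Brk p q t t'' (b' * b) := by
  refine ⟨(PS p q).mul_mem hb'.mem hb.mem, ?_, ?_, ?_⟩
  · refine AffOn.mul ?_ hb.aff1
    rw [PS_left hb.mem, hb.val]; exact hb'.aff1
  · refine AffOn.mul ?_ hb.aff2
    rw [PS_right hb.mem, hb.val]; exact hb'.aff2
  · rw [RelIso.mul_apply, hb.val, hb'.val]

theorem Brk.inv {p q t t' : ℝ} {b : Hm} (h1 : p < t) (h2 : t < q) (hb : Brk p q t t' b) :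
    Brk p q t' t b⁻¹ := by
  refine ⟨(PS p q).inv_mem hb.mem, ?_, ?_, ?_⟩
  · exact AffOn.inv' h1 (PS_left hb.mem) hb.val hb.aff1
  · exact AffOn.inv' h2 hb.val (PS_right hb.mem) hb.aff2
  · rw [← hb.val, RelIso.inv_apply_self]

theorem Brk.conj {p q t t' : ℝ} {b h : Hm} (h1 : p < t) (h2 : t < q) (h1' : p < t')
    (h2' : t' < q) (hh : h ∈ P) (hh' : AffOn h p q) (hb : Brk p q t t' b) :
    Brk (h p) (h q) (h t) (h t') (h * b * h⁻¹) := by
  refine ⟨PS_conj hb.mem hh, ?_, ?_, ?_⟩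
  · refine AffOn.mul ?_ ?_
    · rw [RelIso.inv_apply_self, RelIso.inv_apply_self]
      refine AffOn.mul ?_ hb.aff1
      rw [PS_left hb.mem, hb.val]
      exact hh'.mono le_rfl h2'.le
    · exact AffOn.inv h1 (hh'.mono le_rfl h2.le)
  · refine AffOn.mul ?_ ?_
    · rw [RelIso.inv_apply_self, RelIso.inv_apply_self]
      refine AffOn.mul ?_ hb.aff2
      rw [PS_right hb.mem, hb.val]
      exact hh'.mono h1'.le le_rfl
    · exact AffOn.inv h2 (hh'.mono h1.le le_rfl)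
  · rw [RelIso.mul_apply, RelIso.mul_apply, RelIso.inv_apply_self, hb.val]

end Pool.Agent.H16.PLR
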