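import Pool.Agent.H16.PLR.Zone

/-! The cell lemma. -/

set_option autoImplicit false

open Set Filter Topology
open scoped commutatorElement

namespace Pool.Agent.H16.PLR

section iterates

variable {p q : ℝ} {t : Hm}

theorem fix_pow (hp : t p = p) (n : ℕ) : (t ^ n) p = p := by
  induction n with
  | zero => rfl
  | succ n ih => rw [pow_succ, RelIso.mul_apply, hp, ih]

theorem fix_inv (hp : t p = p) : t⁻¹ p = p := by
  rw [← t.injective.eq_iff, RelIso.apply_inv_self, hp]

theorem fix_zpow (hp : t p = p) (n : ℤ) : (t ^ n) p = p := by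
  induction n using Int.induction_on with
  | zero => rfl
  | succ n ih => rw [zpow_add_one, RelIso.mul_apply, hp, ih]
  | pred n ih => rw [zpow_sub_one, RelIso.mul_apply, fix_inv hp, ih]

theorem zpow_mem_Ioo (hp : t p = p) (hq : t q = q) {x : ℝ} (hx : p < x) (hx' : x < q) (n : ℤ) :
    p < (t ^ n) x ∧ (t ^ n) x < q := by
  constructor
  · calc p = (t ^ n) p := (fix_zpow hp n).symm
      _ < (t ^ n) x := (t ^ n).strictMono hx
  · calc (t ^ n) x < (t ^ n) q := (t ^ n).strictMono hx'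
      _ = q := fix_zpow hq n

theorem lt_t_of (hp : t p = p) (hq : t q = q) (ht : ∀ x, p < x → x < q → x < t x) {x : ℝ}
    (hx : p ≤ x) (hx' : x ≤ q) : x ≤ t x := by
  rcases eq_or_lt_of_le hx with rfl | hx
  · exact hp.ge
  rcases eq_or_lt_of_le hx' with rfl | hx'
  · exact hq.ge
  exact (ht x hx hx').le

theorem zpow_mono (hp : t p = p) (hq : t q = q) (ht : ∀ x, p < x → x < q → x < t x) {x : ℝ}
    (hx : p < x) (hx' : x < q) : StrictMono (fun n : ℤ => (t ^ n) x) := by
  apply strictMono_int_of_lt_succ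
  intro n
  obtain ⟨h1, h2⟩ := zpow_mem_Ioo hp hq hx hx' n
  have := ht _ h1 h2
  calc (t ^ n) x < t ((t ^ n) x) := this
    _ = (t ^ (n + 1)) x := by rw [add_comm, zpow_add, zpow_one]; rfl

theorem exists_pow_gt (hp : t p = p) (hq : t q = q) (ht : ∀ x, p < x → x < q → x < t x) {x : ℝ}
    (hx : p < x) (hx' : x < q) {y : ℝ} (hy : y < q) : ∃ n : ℕ, y < (t ^ n) x := by
  by_contra hcon
  have hcon : ∀ n : ℕ, (t ^ n) x ≤ y := fun n => not_lt.1 fun h => hcon ⟨n, h⟩
  have hmono : Monotone (fun n : ℕ => (t ^ n) x) := by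
    apply monotone_nat_of_le_succ
    intro n
    have := (zpow_mono hp hq ht hx hx').monotone (show (n : ℤ) ≤ (n + 1 : ℕ) by push_cast; omega)
    simp only [zpow_natCast] at this
    exact this
  have hbdd : BddAbove (range (fun n : ℕ => (t ^ n) x)) := ⟨y, by
    rintro _ ⟨n, rfl⟩; exact hcon n⟩
  have hlim := tendsto_atTop_ciSup hmono hbdd
  set l := ⨆ n : ℕ, (t ^ n) x with hl
  have h1 : l ≤ y := ciSup_le hcon
  have h2 : x ≤ l := by
    have := le_ciSup hbdd 0
    simpa using this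
  have h3 : Tendsto (fun n : ℕ => (t ^ (n + 1)) x) atTop (𝓝 l) :=
    hlim.comp (tendsto_add_atTop_nat 1)
  have h4 : Tendsto (fun n : ℕ => t ((t ^ n) x)) atTop (𝓝 (t l)) :=
    (t.continuous.tendsto l).comp hlim
  have h5 : (fun n : ℕ => (t ^ (n + 1)) x) = fun n : ℕ => t ((t ^ n) x) := by
    funext n; rw [pow_succ']; rfl
  rw [h5] at h3
  have h6 : l = t l := tendsto_nhds_unique h3 h4
  have h7 := ht l (by linarith) (by linarith)
  linarith

theorem exists_pow_lt (hp : t p = p) (hq : t q = q) (ht : ∀ x, p < x → x < q → x < t x) {x : ℝ}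
    (hx' : x < q) {y : ℝ} (hy : p < y) : ∃ n : ℕ, (t ^ (-(n : ℤ))) x < y := by
  -- otherwise `y ≤ t^{-n} x` for all `n`, i.e. `t^n y ≤ x`
  rcases lt_or_ge x y with h | h
  · exact ⟨0, by simpa using h⟩
  obtain ⟨n, hn⟩ := exists_pow_gt hp hq ht hy (lt_of_le_of_lt h hx') hx'
  refine ⟨n, ?_⟩
  have h1 : (t ^ (-(n : ℤ))) x < (t ^ (-(n : ℤ))) ((t ^ n) y) := (t ^ (-(n : ℤ))).strictMono hn
  have h2 : (t ^ (-(n : ℤ))) ((t ^ n) y) = y := by
    rw [zpow_neg, zpow_natCast, RelIso.inv_apply_self]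
  rwa [h2] at h1

theorem exists_zpow_between (hp : t p = p) (hq : t q = q)
    (ht : ∀ x, p < x → x < q → x < t x) {x y : ℝ} (hx : p < x) (hx' : x < q) (hy : p < y)
    (hy' : y < q) : ∃ j : ℤ, y ≤ (t ^ j) x ∧ (t ^ j) x < t y := by
  have hmono := zpow_mono hp hq ht hx hx'
  have hty := ht y hy hy'
  have hty' : t y < q := by rw [← hq]; exact t.strictMono hy'
  obtain ⟨n, hn⟩ := exists_pow_gt hp hq ht hx hx' hty'
  obtain ⟨m, hm⟩ := exists_pow_lt hp hq ht hx' (hy.trans hty)
  obtain ⟨j, hj, hj'⟩ := Int.exists_greatest_of_bdd (P := fun j : ℤ => (t ^ j) x < t y)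
    ⟨n, fun z hz => by
      by_contra hlt
      have := hmono (not_le.1 hlt)
      simp only [zpow_natCast] at this
      linarith⟩ ⟨-(m : ℤ), hm⟩
  refine ⟨j, ?_, hj⟩
  by_contra h
  have h1 : (t ^ (j + 1)) x < t y := by
    rw [add_comm, zpow_add, zpow_one, RelIso.mul_apply]
    exact t.strictMono (not_le.1 h)
  have := hj' (j + 1) h1
  omega

end iterates

/-- criterion for conjugacy on an interval -/
theorem conj_criterion {p q z : ℝ} {t a A R : Hm} (hA : A ∈ P) (hR : R ∈ P) (hz : z ≤ t z)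
    (h1 : ∀ x, p ≤ x → x ≤ z → A (t x) = a (A x)) (h2 : ∀ x, z ≤ x → x ≤ q → R (t x) = a (R x))
    (h3 : ∀ x, z ≤ x → x ≤ t z → A x = R x) (hpz : p ≤ z) (hzq : z ≤ q) :
    ∃ g ∈ P, g p = A p ∧ g q = R q ∧ ∀ x, p ≤ x → x ≤ q → g (t x) = a (g x) := by
  obtain ⟨g, hg, g1, g2⟩ := exists_glue hA hR (c := z) (h3 z le_rfl hz)
  refine ⟨g, hg, g1 p hpz, g2 q hzq, fun x hx hx' => ?_⟩
  rcases le_total x z with h | h
  · rw [g1 x h, ← h1 x hx h]
    rcases le_total (t x) z with h' | h'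
    · exact g1 _ h'
    · rw [g2 _ h', h3 _ h' (t.monotone h)]
  · rw [g2 x h, ← h2 x h hx', g2]
    exact hz.trans (t.monotone h)

/-- the data of a positive cell with a zone `[0, L]` of displacement `i` -/
structure CellD (i L p q δ : ℝ) (t a : Hm) : Prop where
  ht : t ∈ P
  ha : a ∈ P
  tp : t p = p
  tq : t q = q
  ap : a p = p
  aq : a q = q
  tgt : ∀ x, p < x → x < q → x < t x
  agt : ∀ x, p < x → x < q → x < a x
  hδ : 0 < δ
  nearp : ∀ x, p ≤ x → x ≤ p + δ → t x = a x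
  nearq : ∀ x, q - δ ≤ x → x ≤ q → t x = a x
  zone : ∀ x, -4 ≤ x → x ≤ L + 6 → t x = x + i
  hp4 : p < -4
  hqL : L + 6 < q
  hi : 1 ≤ i
  hi2 : i ≤ 2
  hL : 10 ≤ L

theorem CellD.main {i L p q δ : ℝ} {t a : Hm} (D : CellD i L p q δ t a) :
    ∃ c ∈ TT i, ∀ (j : ℤ) (K : Hm), K ∈ PS 0 L → Dev i L K (c * tr (j * i)) →
      ∃ g ∈ P, g p = p ∧ g q = q ∧ ∀ x, p ≤ x → x ≤ q → g (t (K x)) = a (g x) := by
  obtain ⟨ht, ha, tp, tq, ap, aq, tgt, agt, hδ, nearp, nearq, zone, hp4, hqL, hi, hi2, hL⟩ := D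
  have hi0 : 0 < i := by linarith
  have tq' : ∀ n : ℤ, (t ^ n) q = q := fix_zpow tq
  have tp' : ∀ n : ℤ, (t ^ n) p = p := fix_zpow tp
  have aq' : ∀ n : ℤ, (a ^ n) q = q := fix_zpow aq
  have ap' : ∀ n : ℤ, (a ^ n) p = p := fix_zpow ap
  have tmono : ∀ x, p < x → x < q → Monotone (fun n : ℤ => (t ^ n) x) := fun x hx hx' =>
    (zpow_mono tp tq tgt hx hx').monotone
  -- left element
  obtain ⟨n', hn'⟩ := exists_pow_lt tp tq tgt (x := 2) (by linarith) (y := p + δ) (by linarith)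
  obtain ⟨A, hA⟩ : ∃ A, A = a ^ (n' : ℤ) * t ^ (-(n' : ℤ)) := ⟨_, rfl⟩
  have hAP : A ∈ P := by rw [hA]; exact P.mul_mem (P.zpow_mem ha _) (P.zpow_mem ht _)
  have hA1 : ∀ y, p ≤ y → y ≤ 2 → A (t y) = a (A y) := by
    intro y hy hy'
    have e1 : A (t y) = (a ^ (n' : ℤ)) (t ((t ^ (-(n' : ℤ))) y)) := by
      rw [hA]
      simp only [← RelIso.mul_apply]
      congr 1
      group
    have e2 : a (A y) = (a ^ (n' : ℤ)) (a ((t ^ (-(n' : ℤ))) y)) := by
      rw [hA]
      simp only [← RelIso.mul_apply]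
      congr 1
      group
    rw [e1, e2, nearp]
    · calc p = (t ^ (-(n' : ℤ))) p := (tp' _).symm
        _ ≤ _ := (t ^ (-(n' : ℤ))).monotone hy
    · exact ((t ^ (-(n' : ℤ))).monotone hy').trans hn'.le
  -- right element
  obtain ⟨m₀, hm₀⟩ := exists_pow_gt tp tq tgt (x := -3) (by linarith) (by linarith)
    (y := q - δ) (by linarith)
  obtain ⟨m', hm'⟩ : ∃ m' : ℤ, m' = m₀ + ⌈L⌉ + 20 := ⟨_, rfl⟩
  have hlate : ∀ (l : ℤ) (y : ℝ), (m₀ : ℤ) ≤ l → -3 ≤ y → y ≤ q → q - δ ≤ (t ^ l) y := by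
    intro l y hl hy hy'
    have h1 := tmono (-3) (by linarith) (by linarith) hl
    simp only [zpow_natCast] at h1
    have h2 := (t ^ l).monotone hy
    linarith
  obtain ⟨E, hE⟩ : ∃ E, E = a ^ (-m') * t ^ m' := ⟨_, rfl⟩
  have hEP : E ∈ P := by rw [hE]; exact P.mul_mem (P.zpow_mem ha _) (P.zpow_mem ht _)
  have hLc : (0 : ℤ) ≤ ⌈L⌉ := Int.ceil_nonneg (by linarith)
  have hE1 : ∀ y, -3 ≤ y → y ≤ q → E (t y) = a (E y) := by
    intro y hy hy'
    have e1 : E (t y) = (a ^ (-m')) (t ((t ^ m') y)) := by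
      rw [hE]
      simp only [← RelIso.mul_apply]
      congr 1
      group
    have e2 : a (E y) = (a ^ (-m')) (a ((t ^ m') y)) := by
      rw [hE]
      simp only [← RelIso.mul_apply]
      congr 1
      group
    rw [e1, e2, nearq _ (hlate m' y (by omega) hy hy')]
    calc (t ^ m') y ≤ (t ^ m') q := (t ^ m').monotone hy'
      _ = q := tq' _
  have hAp : A p = p := by rw [hA, RelIso.mul_apply, tp', ap']
  have hAq : A q = q := by rw [hA, RelIso.mul_apply, tq', aq']
  have hEp : E p = p := by rw [hE, RelIso.mul_apply, tp', ap']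
  have hEq : E q = q := by rw [hE, RelIso.mul_apply, tq', aq']
  obtain ⟨j₀, hj1, hj2⟩ := exists_zpow_between ap aq agt (x := A 0) (y := E 0)
    (by rw [← hAp]; exact A.strictMono (by linarith))
    (by rw [← hAq]; exact A.strictMono (by linarith))
    (by rw [← hEp]; exact E.strictMono (by linarith))
    (by rw [← hEq]; exact E.strictMono (by linarith))
  obtain ⟨c₁, hc₁⟩ : ∃ c₁, c₁ = E⁻¹ * a ^ j₀ * A := ⟨_, rfl⟩
  have hc₁P : c₁ ∈ P := by
    rw [hc₁]; exact P.mul_mem (P.mul_mem (P.inv_mem hEP) (P.zpow_mem ha _)) hAP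
  have hEc : ∀ x, E (c₁ x) = (a ^ j₀) (A x) := by
    intro x
    rw [hc₁]
    simp only [RelIso.mul_apply, RelIso.apply_inv_self]
  have t0 : t 0 = i := by rw [zone 0 (by linarith) (by linarith)]; ring
  have hρ0 : 0 ≤ c₁ 0 := by rw [← E.le_iff_le, hEc]; exact hj1
  have hρi : c₁ 0 < i := by
    rw [← E.lt_iff_lt, hEc, ← t0, hE1 0 (by linarith) (by linarith)]; exact hj2
  have hcomm : ∀ x, (a ^ j₀) (a x) = a ((a ^ j₀) x) := by
    intro x
    simp only [← RelIso.mul_apply]
    congr 1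
    group
  have hc₁i : c₁ i = c₁ 0 + i := by
    rw [← E.injective.eq_iff, hEc, ← t0, hA1 0 (by linarith) (by linarith), hcomm, ← hEc,
      ← hE1 _ (by linarith) (by linarith), t0, zone _ (by linarith) (by linarith)]
  obtain ⟨ρ, hρ⟩ : ∃ ρ, ρ = c₁ 0 := ⟨_, rfl⟩
  rw [← hρ] at hρ0 hρi hc₁i
  obtain ⟨ĝ, hĝP, hĝ1, hĝ2⟩ := exists_per (P.mul_mem (tr_mem (-ρ)) hc₁P) hi0 (e := 0)
    (by simp only [RelIso.mul_apply, tr_apply]; rw [← hρ]; ring)
    (by simp only [RelIso.mul_apply, tr_apply]; rw [zero_add, hc₁i]; ring)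
  obtain ⟨c', hc'⟩ : ∃ c', c' = tr ρ * ĝ := ⟨_, rfl⟩
  have hc'T : c' ∈ TT i := by
    rw [hc']; exact (TT i).mul_mem (tr_mem_TT _ _) ⟨hĝP, hĝ2⟩
  have hc'c : ∀ y, 0 ≤ y → y ≤ i → c' y = c₁ y := by
    intro y hy hy'
    rw [hc']
    simp only [RelIso.mul_apply, tr_apply]
    rw [hĝ1 y hy (by linarith)]
    simp only [RelIso.mul_apply, tr_apply]
    ring
  have hc'lo : c' (-i) = ρ - i := by
    have := hc'T.2 (-i)
    rw [neg_add_cancel, hc'c 0 le_rfl hi0.le, ← hρ] at this
    linarith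
  have hc'hi : c' i = ρ + i := by rw [hc'c i hi0.le le_rfl, hc₁i]
  have hEc' : ∀ y, -i ≤ y → y ≤ i → E (c' y) = (a ^ j₀) (A y) := by
    intro y hy hy'
    rcases le_total 0 y with h | h
    · rw [hc'c y h hy', hEc]
    · have h1 : c' (y + i) = c' y + i := hc'T.2 y
      have h2 : -i ≤ c' y := by
        have := c'.monotone hy; linarith
      have h3 : c' y ≤ i := by
        have h4 : c' y ≤ c' 0 := c'.monotone h
        rw [hc'c 0 le_rfl hi0.le, ← hρ] at h4
        linarith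
      have h5 : t (c' y) = c' y + i := zone _ (by linarith) (by linarith)
      have h6 : t y = y + i := zone _ (by linarith) (by linarith)
      have h7 : a (E (c' y)) = a ((a ^ j₀) (A y)) := by
        rw [← hE1 _ (by linarith) (by linarith), h5, ← h1, hc'c _ (by linarith) (by linarith),
          hEc, ← h6, hA1 _ (by linarith) (by linarith), hcomm]
      exact a.injective h7
  refine ⟨c'⁻¹, (TT i).inv_mem hc'T, ?_⟩
  intro j K hK hDev
  obtain ⟨φ, hφ, e1, φ0, φ1⟩ := hDev
  obtain ⟨z, hz⟩ : ∃ z, z = L + 2 := ⟨_, rfl⟩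
  rw [← hz] at φ1
  obtain ⟨C, hC⟩ : ∃ C, C = c'⁻¹ * tr (j * i) := ⟨_, rfl⟩
  rw [← hC] at φ1
  have hCT : C ∈ TT i := by
    rw [hC]; exact (TT i).mul_mem ((TT i).inv_mem hc'T) (tr_mem_TT _ _)
  have e1' : ∀ x, φ (K x + i) = φ x + i := by
    intro x
    have := DFunLike.congr_fun e1 x
    simpa only [RelIso.mul_apply, tr_apply] using this
  have φi : ∀ x ≤ i, φ x = x := by
    intro x hx
    rcases le_total x 0 with h | h
    · exact φ0 x h
    · have := e1' (x - i)
      rw [hK.2.1 _ (by linarith), φ0 (x - i) (by linarith), sub_add_cancel] at this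
      exact this
  have hCz : 0 < C z := by
    rw [← φ1 z le_rfl, ← φi 0 hi0.le]
    exact φ.strictMono (by linarith)
  obtain ⟨k, hk1, hk2⟩ : ∃ k : ℕ, C z - k * i ≤ 0 ∧ -i < C z - k * i := by
    refine ⟨⌈C z / i⌉₊, ?_, ?_⟩
    · have := Nat.le_ceil (C z / i)
      rw [div_le_iff₀ hi0] at this
      linarith
    · have := Nat.ceil_lt_add_one (div_pos hCz hi0).le
      have h2 : (⌈C z / i⌉₊ : ℝ) * i < (C z / i + 1) * i := by
        exact mul_lt_mul_of_pos_right this hi0
      have h3 : (C z / i + 1) * i = C z + i := by field_simp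
      linarith
  obtain ⟨τ, hτ⟩ : ∃ τ, τ = t * K := ⟨_, rfl⟩
  have hτx : ∀ x, τ x = t (K x) := fun x => by rw [hτ]; rfl
  have hτP : τ ∈ P := by rw [hτ]; exact P.mul_mem ht hK.1
  have hτp : τ p = p := by rw [hτx, hK.2.1 p (by linarith), tp]
  have hτq : τ q = q := by rw [hτx, hK.2.2 q (by linarith), tq]
  -- claim 1
  have claim1 : ∀ x, z ≤ x → x ≤ z + i → (τ ^ (k : ℤ)) (C x - k * i) = x := by
    intro x hx hx'
    have hCx : C z ≤ C x := C.monotone hx
    have hCx' : C x ≤ C z + i := by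
      calc C x ≤ C (z + i) := C.monotone hx'
        _ = C z + i := hCT.2 z
    set y := C x - k * i with hy
    have ind : ∀ l : ℕ, l ≤ k → φ ((τ ^ (l : ℤ)) y) = y + l * i := by
      intro l
      induction l with
      | zero =>
        intro _
        simp only [Nat.cast_zero, zpow_zero, RelIso.one_apply]
        rw [φi y (by linarith)]; ring
      | succ l ih =>
        intro hl
        have ih := ih (by omega)
        set u := (τ ^ (l : ℤ)) y with hu
        have e2 : (τ ^ ((l + 1 : ℕ) : ℤ)) y = t (K u) := by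
          push_cast
          rw [add_comm, zpow_add, zpow_one, RelIso.mul_apply, ← hu, hτx]
        have hlk : (l : ℝ) + 1 ≤ k := by exact_mod_cast hl
        have hli : (l : ℝ) * i + i ≤ k * i := by nlinarith
        have hux : u ≤ x := by
          rw [← φ.le_iff_le, ih, φ1 x hx]
          linarith
        have hlow : -i ≤ u := by
          rw [← φ.le_iff_le, ih, φi (-i) (by linarith)]
          have : 0 ≤ (l : ℝ) * i := by positivity
          linarith
        have hKu : -4 ≤ K u ∧ K u ≤ L + 6 := by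
          rcases le_total u 0 with h | h
          · rw [hK.2.1 u h]; constructor <;> linarith
          rcases le_total u L with h' | h'
          · have := PS_maps hK h h'
            constructor <;> linarith
          · rw [hK.2.2 u h']; constructor <;> linarith
        rw [e2, zone _ hKu.1 hKu.2, e1', ih]
        push_cast; ring
    have h1 := ind k le_rfl
    have h2 : y + k * i = φ x := by rw [φ1 x hx, hy]; ring
    rw [h2] at h1
    exact φ.injective h1
  -- claim 2
  have claim2 : ∀ y, -i ≤ y → y ≤ i → ∀ m : ℕ, (τ ^ (-(m : ℤ))) y = (t ^ (-(m : ℤ))) y := by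
    intro y hy hy' m
    induction m with
    | zero => rfl
    | succ m ih =>
      have e2 : ∀ s : Hm, (s ^ (-((m + 1 : ℕ) : ℤ))) y = s⁻¹ ((s ^ (-(m : ℤ))) y) := by
        intro s
        rw [← RelIso.mul_apply]
        congr 1
        push_cast
        group
      have hle : (t ^ (-((m + 1 : ℕ) : ℤ))) y ≤ 0 := by
        have h1 := tmono y (by linarith) (by linarith)
          (show (-((m + 1 : ℕ) : ℤ)) ≤ -1 by push_cast; omega)
        have h2 : (t ^ (-1 : ℤ)) y = y - i := by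
          rw [zpow_neg_one, ← t.injective.eq_iff, RelIso.apply_inv_self,
            zone _ (by linarith) (by linarith)]
          ring
        simp only at h1
        rw [h2] at h1
        linarith
      rw [e2 τ, ih, hτ, mul_inv_rev, RelIso.mul_apply, ← e2 t]
      exact ((PS _ _).inv_mem hK).2.1 _ hle
  -- the left element
  obtain ⟨Lp, hLp⟩ : ∃ Lp, Lp = a ^ ((n' : ℤ) + k) * τ ^ (-((n' : ℤ) + k)) := ⟨_, rfl⟩
  have hLpP : Lp ∈ P := by
    rw [hLp]; exact P.mul_mem (P.zpow_mem ha _) (P.zpow_mem hτP _)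
  have hLpx : ∀ x, z ≤ x → x ≤ z + i → Lp x = (a ^ (k : ℤ)) (A (C x - k * i)) := by
    intro x hx hx'
    have hCx : C z ≤ C x := C.monotone hx
    have hCx' : C x ≤ C z + i := by
      calc C x ≤ C (z + i) := C.monotone hx'
        _ = C z + i := hCT.2 z
    have e2 : (τ ^ (-(k : ℤ))) x = C x - k * i := by
      rw [← (τ ^ (k : ℤ)).injective.eq_iff, claim1 x hx hx', ← RelIso.mul_apply, ← zpow_add,
        add_neg_cancel, zpow_zero]; rfl
    have e3 : Lp x = (a ^ (k : ℤ)) ((a ^ (n' : ℤ)) ((τ ^ (-(n' : ℤ))) ((τ ^ (-(k : ℤ))) x))) := by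
      rw [hLp]
      simp only [← RelIso.mul_apply]
      congr 1
      have f1 : τ ^ (-((n' : ℤ) + k)) = τ ^ (-(n' : ℤ)) * τ ^ (-(k : ℤ)) := by
        rw [← zpow_add]; congr 1; ring
      have f2 : a ^ ((n' : ℤ) + k) = a ^ (k : ℤ) * a ^ (n' : ℤ) := by
        rw [← zpow_add]; congr 1; ring
      rw [f1, f2, mul_assoc]
    rw [e3, e2, claim2 _ (by linarith) (by linarith), hA]
    rfl
  -- the right element
  obtain ⟨l, hl⟩ : ∃ l : ℤ, l = k - j := ⟨_, rfl⟩
  obtain ⟨R, hR⟩ : ∃ R, R = a ^ (k - j₀ - m') * t ^ (m' - l) := ⟨_, rfl⟩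
  have hRP : R ∈ P := by
    rw [hR]; exact P.mul_mem (P.zpow_mem ha _) (P.zpow_mem ht _)
  have hrel : ∀ x, z ≤ x → x ≤ z + i → -i ≤ C x - k * i ∧ C x - k * i ≤ i ∧
      x = c' (C x - k * i) + l * i := by
    intro x hx hx'
    have hCx : C z ≤ C x := C.monotone hx
    have hCx' : C x ≤ C z + i := by
      calc C x ≤ C (z + i) := C.monotone hx'
        _ = C z + i := hCT.2 z
    refine ⟨by linarith, by linarith, ?_⟩
    have e2 : c' (C x - k * i) = c' (C x) - k * i := by
      have := per_zmul hc'T.2 (-(k : ℤ)) (C x)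
      push_cast at this
      have e3 : C x + -(k : ℝ) * i = C x - k * i := by ring
      rw [e3] at this
      rw [this]; ring
    have e4 : c' (C x) = x + j * i := by
      rw [hC]
      simp only [RelIso.mul_apply, tr_apply, RelIso.apply_inv_self]
    rw [e2, e4, hl]
    push_cast; ring
  have hlb : 0 ≤ l ∧ l ≤ ⌈L⌉ + 10 := by
    obtain ⟨h1, h2, h3⟩ := hrel z le_rfl (by linarith)
    have h4 : ρ - i ≤ c' (C z - k * i) := by rw [← hc'lo]; exact c'.monotone h1
    have h5 : c' (C z - k * i) ≤ ρ + i := by rw [← hc'hi]; exact c'.monotone h2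
    constructor
    · by_contra hneg
      have : (l : ℝ) ≤ 0 := by exact_mod_cast (not_le.1 hneg).le
      nlinarith
    · have h6 : (l : ℝ) * i ≤ L + 6 := by linarith
      have h7 : (l : ℝ) ≤ L + 6 ∨ (l : ℝ) ≤ 0 := by
        rcases le_total (l : ℝ) 0 with h | h
        · exact Or.inr h
        · left; nlinarith
      have h8 : (l : ℝ) ≤ L + 6 := by
        rcases h7 with h | h
        · exact h
        · linarith
      have h9 : (l : ℝ) ≤ (⌈L⌉ + 10 : ℤ) := by
        push_cast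
        have := Int.le_ceil L
        linarith
      exact_mod_cast h9
  have hLR : ∀ x, z ≤ x → x ≤ z + i → Lp x = R x := by
    intro x hx hx'
    obtain ⟨h1, h2, h3⟩ := hrel x hx hx'
    rw [hLpx x hx hx']
    set y := C x - k * i with hy
    have h4 : ρ - i ≤ c' y := by rw [← hc'lo]; exact c'.monotone h1
    have claim3 : ∀ m : ℕ, (m : ℤ) ≤ l → (t ^ (m : ℤ)) (c' y) = c' y + m * i := by
      intro m
      induction m with
      | zero => intro _; simp
      | succ m ih =>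
        intro hm
        have ih := ih (by push_cast at hm; omega)
        have e2 : (t ^ ((m + 1 : ℕ) : ℤ)) (c' y) = t ((t ^ (m : ℤ)) (c' y)) := by
          push_cast
          rw [add_comm, zpow_add, zpow_one, RelIso.mul_apply]
        have hml : (m : ℝ) + 1 ≤ l := by exact_mod_cast hm
        have hmi : (m : ℝ) * i + i ≤ l * i := by nlinarith
        have hm0 : 0 ≤ (m : ℝ) * i := by positivity
        rw [e2, ih, zone _ (by linarith) (by linarith)]
        push_cast; ring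
    have e5 : (t ^ l) (c' y) = x := by
      obtain ⟨l', hl'⟩ := Int.eq_ofNat_of_zero_le hlb.1
      have := claim3 l' (by omega)
      rw [hl', h3, hl']
      push_cast
      exact this
    have e6 : A y = (a ^ (-j₀)) (E (c' y)) := by
      rw [hEc' y h1 h2, ← RelIso.mul_apply, ← zpow_add, neg_add_cancel, zpow_zero]; rfl
    have e7 : c' y = (t ^ (-l)) x := by
      rw [← e5, ← RelIso.mul_apply, ← zpow_add, neg_add_cancel, zpow_zero]; rfl
    rw [e6, e7, hE, hR]
    simp only [← RelIso.mul_apply]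
    congr 1
    have e8 : a ^ (k : ℤ) * a ^ (-j₀) * (a ^ (-m') * t ^ m' * t ^ (-l)) =
        (a ^ (k : ℤ) * a ^ (-j₀) * a ^ (-m')) * (t ^ m' * t ^ (-l)) := by group
    have e9 : a ^ (k : ℤ) * a ^ (-j₀) * a ^ (-m') = a ^ (k - j₀ - m') := by
      rw [← zpow_add, ← zpow_add]; congr 1
    have e10 : t ^ m' * t ^ (-l) = t ^ (m' - l) := by rw [← zpow_add]; congr 1
    rw [← e9, ← e10]
    group
  -- intertwining on the left
  have hK0 : ∀ x ≤ 0, K x = x := hK.2.1
  have hleft : ∀ x, p ≤ x → x ≤ z → Lp (τ x) = a (Lp x) := by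
    intro x hx hx'
    set n := (n' : ℤ) + k with hn
    have e2 : Lp (τ x) = (a ^ n) (τ ((τ ^ (-n)) x)) := by
      rw [hLp]
      simp only [← RelIso.mul_apply]
      congr 1
      group
    have e3 : a (Lp x) = (a ^ n) (a ((τ ^ (-n)) x)) := by
      rw [hLp]
      simp only [← RelIso.mul_apply]
      congr 1
      group
    have h1 : p ≤ (τ ^ (-n)) x := by
      calc p = (τ ^ (-n)) p := (fix_zpow hτp _).symm
        _ ≤ _ := (τ ^ (-n)).monotone hx
    have h2 : (τ ^ (-n)) z = (t ^ (-(n' : ℤ))) (C z - k * i) := by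
      rw [← claim2 _ hk2.le (by linarith), ← (τ ^ (n' : ℤ)).injective.eq_iff]
      simp only [← RelIso.mul_apply]
      rw [← zpow_add, ← zpow_add, add_neg_cancel, zpow_zero, RelIso.one_apply, hn,
        ← (τ ^ (k : ℤ)).injective.eq_iff, claim1 z le_rfl (by linarith), ← RelIso.mul_apply,
        ← zpow_add]
      have : (k : ℤ) + (n' + -(n' + k)) = 0 := by ring
      rw [this, zpow_zero]; rfl
    have h3 : (t ^ (-(n' : ℤ))) (C z - k * i) ≤ C z - k * i := by
      have := tmono (C z - k * i) (by linarith) (by linarith)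
        (show (-(n' : ℤ)) ≤ 0 by omega)
      simpa using this
    have h4 : (τ ^ (-n)) x ≤ (τ ^ (-n)) z := (τ ^ (-n)).monotone hx'
    have h5 : (t ^ (-(n' : ℤ))) (C z - k * i) ≤ (t ^ (-(n' : ℤ))) 2 :=
      (t ^ (-(n' : ℤ))).monotone (by linarith)
    rw [e2, e3, hτx, hK0 _ (by linarith), nearp _ h1 (by linarith)]
  have hright : ∀ x, z ≤ x → x ≤ q → R (τ x) = a (R x) := by
    intro x hx hx'
    rw [hτx, hK.2.2 x (by linarith)]
    set e := (k : ℤ) - j₀ - m' with he
    have e2 : R (t x) = (a ^ e) (t ((t ^ (m' - l)) x)) := by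
      rw [hR]
      simp only [← RelIso.mul_apply]
      congr 1
      group
    have e3 : a (R x) = (a ^ e) (a ((t ^ (m' - l)) x)) := by
      rw [hR]
      simp only [← RelIso.mul_apply]
      congr 1
      group
    rw [e2, e3, nearq _ (hlate _ x (by omega) (by linarith) hx')]
    calc (t ^ (m' - l)) x ≤ (t ^ (m' - l)) q := (t ^ (m' - l)).monotone hx'
      _ = q := tq' _
  have hτz : τ z = z + i := by
    rw [hτx, hK.2.2 z (by linarith), zone _ (by linarith) (by linarith)]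
  obtain ⟨g, hg, g1, g2, g3⟩ := conj_criterion hLpP hRP (z := z) (t := τ) (a := a)
    (by rw [hτz]; linarith) hleft hright
    (fun x hx hx' => hLR x hx (by rw [hτz] at hx'; exact hx')) (by linarith) (by linarith)
  refine ⟨g, hg, ?_, ?_, fun x hx hx' => ?_⟩
  · rw [g1, hLp, RelIso.mul_apply, fix_zpow hτp, ap']
  · rw [g2, hR, RelIso.mul_apply, tq', aq']
  · rw [← hτx]; exact g3 x hx hx'

end Pool.Agent.H16.PLR
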