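import Pool.Agent.H16.PLR.Brk

/-! Perfectness and uniform commutator width. -/

set_option autoImplicit false

open Set Filter Topology
open scoped commutatorElement

namespace Pool.Agent.H16.PLR

theorem conj_eq_of_id_on {p q : ℝ} {H b : Hm} (hp : H p = p) (hq : H q = q)
    (hH : ∀ x, p ≤ x → x ≤ q → H x = x) (hb : b ∈ PS p q) : H * b * H⁻¹ = b := by
  apply Hm.ext'
  intro x
  rw [RelIso.mul_apply, RelIso.mul_apply]
  rcases le_total x p with hx | hx
  · have : H⁻¹ x ≤ p := by rw [← H.le_iff_le, RelIso.apply_inv_self, hp]; exact hx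
    rw [hb.2.1 _ this, RelIso.apply_inv_self, hb.2.1 x hx]
  rcases le_total x q with hx' | hx'
  · have h1 : H⁻¹ x = x := by rw [← H.injective.eq_iff, RelIso.apply_inv_self, hH x hx hx']
    have h2 := PS_maps hb hx hx'
    rw [h1, hH _ h2.1 h2.2]
  · have : q ≤ H⁻¹ x := by rw [← H.le_iff_le, RelIso.apply_inv_self, hq]; exact hx'
    rw [hb.2.2 _ this, RelIso.apply_inv_self, hb.2.2 x hx']

theorem Brk_commutator {P₀ p q Q₀ t t' : ℝ} (h0 : P₀ < p) (h1 : p < t) (h2 : t < t')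
    (h3 : t' < q) (h4 : t + t' < p + q) (h5 : q < Q₀) {b : Hm} (hb : Brk p q t t' b) :
    ∃ x ∈ PS P₀ Q₀, ∃ y ∈ PS P₀ Q₀, b = ⁅x, y⁆ := by
  have hD : 0 < p + q - t - t' := by linarith
  obtain ⟨o, ho⟩ : ∃ o, o * (p + q - t - t') = p * q - t * t' :=
    ⟨(p * q - t * t') / (p + q - t - t'), by field_simp⟩
  have F1 : (q - o) * (p - o) = (t - o) * (t' - o) := by linarith
  have F2 : o < p := by
    have : (p - o) * (p + q - t - t') = (t - p) * (t' - p) := by linarith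
    have h' : 0 < (p - o) * (p + q - t - t') := by
      rw [this]; exact mul_pos (by linarith) (by linarith)
    have := (pos_iff_pos_of_mul_pos h').2 hD
    linarith
  have hqo : 0 < q - o := by linarith
  obtain ⟨τ, hτ⟩ : ∃ τ, (τ - o) * (q - o) = (t - o) * (t - o) :=
    ⟨o + (t - o) * (t - o) / (q - o), by field_simp; ring⟩
  have F3 : o < τ := by
    have h' : 0 < (τ - o) * (q - o) := by
      rw [hτ]; exact mul_pos (by linarith) (by linarith)
    have := (pos_iff_pos_of_mul_pos h').2 hqo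
    linarith
  have F4 : τ < p := by
    have : 0 < (p - τ) * (q - o) := by
      have e : (p - τ) * (q - o) = (t - o) * (t' - t) := by linarith
      rw [e]; exact mul_pos (by linarith) (by linarith)
    have := (pos_iff_pos_of_mul_pos this).2 hqo
    linarith
  obtain ⟨L, hL⟩ := exists_Brk (p := o) (q := t) (t := τ) (t' := p) F3 (by linarith) F2 h1
  obtain ⟨h, hh⟩ := exists_Brk (p := o) (q := q + 1) (t := t) (t' := q) (by linarith)
    (by linarith) (by linarith) (by linarith)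
  have hto : 0 < t - o := by linarith
  have hho : h o = o := PS_left hh.mem
  have hhp : h p = t' := by
    have := AffOn.val (by linarith) hh.aff1 F2.le h1.le
    rw [hho, hh.val] at this
    have e : (h p - t') * (t - o) = 0 := by linarith
    rcases mul_eq_zero.1 e with e | e <;> linarith
  have hhτ : h τ = t := by
    have := AffOn.val (by linarith) hh.aff1 F3.le (by linarith)
    rw [hho, hh.val] at this
    have e : (h τ - t) * (t - o) = 0 := by linarith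
    rcases mul_eq_zero.1 e with e | e <;> linarith
  have hL' : Brk o q t t' (h * L * h⁻¹) := by
    have := hL.conj F3 (by linarith) F2 h1 hh.mem.1 hh.aff1
    rwa [hho, hh.val, hhτ, hhp] at this
  have hLo : L o = o := PS_left hL.mem
  have hLt : L t = t := PS_right hL.mem
  have hLiτ : L⁻¹ p = τ := by rw [← hL.val, RelIso.inv_apply_self]
  have hLio : L⁻¹ o = o := PS_left ((PS _ _).inv_mem hL.mem)
  have hLit : L⁻¹ t = t := PS_right ((PS _ _).inv_mem hL.mem)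
  have hLi : Brk o t p τ L⁻¹ := hL.inv F3 (by linarith)
  have hL'τ : (h * L * h⁻¹ : Hm) τ = p := by
    have := AffOn.val (by linarith) hL'.aff1 F3.le (by linarith)
    rw [PS_left hL'.mem, hL'.val] at this
    have e : ((h * L * h⁻¹ : Hm) τ - p) * ((t - o) * (q - o)) = 0 := by
      have e1 : ((h * L * h⁻¹ : Hm) τ - o) * (t - o) * (q - o) = (τ - o) * (t' - o) * (q - o) := by
        rw [this]
      have e2 : (τ - o) * (t' - o) * (q - o) = (t - o) * ((q - o) * (p - o)) := by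
        rw [F1]; linear_combination (t' - o) * hτ
      linear_combination e1 + e2
    rcases mul_eq_zero.1 e with e | e
    · linarith
    · exact absurd e (mul_pos hto hqo).ne'
  have key : Brk p q t t' ((h * L * h⁻¹) * L⁻¹) := by
    refine ⟨⟨P.mul_mem hL'.mem.1 hLi.mem.1, fun x hx => ?_, fun x hx => ?_⟩, ?_, ?_, ?_⟩
    · rcases le_total x o with hx' | hx'
      · rw [RelIso.mul_apply, hLi.mem.2.1 x hx', hL'.mem.2.1 x hx']
      · refine AffOn.id_of F2 (AffOn.mul ?_ hLi.aff1) ?_ ?_ hx' hx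
        · rw [hLio, hLiτ]; exact hL'.aff1.mono le_rfl (by linarith)
        · rw [RelIso.mul_apply, hLio, PS_left hL'.mem]
        · rw [RelIso.mul_apply, hLiτ, hL'τ]
    · rw [RelIso.mul_apply, hLi.mem.2.2 x (by linarith), hL'.mem.2.2 x hx]
    · refine AffOn.mul ?_ hLi.aff2
      rw [hLit, hLiτ]; exact hL'.aff1.mono F3.le le_rfl
    · refine hL'.aff2.congr fun x hx hx' => ?_
      rw [RelIso.mul_apply, hLi.mem.2.2 x hx]
    · rw [RelIso.mul_apply, hLit, hL'.val]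
  have hbe : b = ⁅h, L⁆ := by
    rw [commutatorElement_def]
    exact hb.unique h1 (by linarith) key
  -- the compressing map
  obtain ⟨a1, b1, ha1, e1, e1'⟩ := exists_aff (p := o) (q := p) (p' := (P₀ + p) / 2) (q' := p)
    F2 (by linarith)
  obtain ⟨a2, b2, ha2, e2, e2'⟩ := exists_aff (p := q) (q := q + 1) (p' := q)
    (q' := (q + Q₀) / 2) (by linarith) (by linarith)
  obtain ⟨k1, hk1, k11, k12⟩ := exists_glue (aff_mem a1 b1 ha1) P.one_mem (c := p)
    (by rw [e1']; rfl)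
  obtain ⟨H, hH, H1, H2⟩ := exists_glue hk1 (aff_mem a2 b2 ha2) (c := q)
    (by rw [k12 q (by linarith), e2]; rfl)
  have Hid : ∀ x, p ≤ x → x ≤ q → H x = x := fun x hx hx' => by
    rw [H1 x hx', k12 x hx]; rfl
  have Ho : H o = (P₀ + p) / 2 := by rw [H1 o (by linarith), k11 o F2.le, e1]
  have Hq1 : H (q + 1) = (q + Q₀) / 2 := by rw [H2 (q + 1) (by linarith), e2']
  refine ⟨H * h * H⁻¹, ?_, H * L * H⁻¹, ?_, ?_⟩
  · exact PS_conj' hh.mem hH (by rw [Ho]; linarith) (by rw [Hq1]; linarith)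
  · exact PS_conj' (PS_mono le_rfl (by linarith) hL.mem : L ∈ PS o (q + 1)) hH
      (by rw [Ho]; linarith) (by rw [Hq1]; linarith)
  · have e3 := conj_eq_of_id_on (Hid p le_rfl (by linarith)) (Hid q (by linarith) le_rfl) Hid
      hb.mem
    rw [← e3, hbe]
    simp only [commutatorElement_def]
    group

theorem Brk_mem_commutator {P₀ p q Q₀ t t' : ℝ} (h0 : P₀ < p) (h1 : p < t) (h2 : t < q)
    (h1' : p < t') (h2' : t' < q) (h5 : q < Q₀) {b : Hm} (hb : Brk p q t t' b) :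
    b ∈ ⁅PS P₀ Q₀, PS P₀ Q₀⁆ := by
  have aux : ∀ s s' : ℝ, p < s → s < s' → s' < q → s + s' < p + q → ∀ b, Brk p q s s' b →
      b ∈ ⁅PS P₀ Q₀, PS P₀ Q₀⁆ := by
    intro s s' g1 g2 g3 g4 b hb
    obtain ⟨x, hx, y, hy, e⟩ := Brk_commutator h0 g1 g2 g3 g4 h5 hb
    rw [e]; exact Subgroup.commutator_mem_commutator hx hy
  obtain ⟨s, hs1, hs2⟩ : ∃ s, p < s ∧ s < min (min t t') (min (p + q - t) (p + q - t')) :=
    exists_between (by
      rw [lt_min_iff, lt_min_iff, lt_min_iff]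
      exact ⟨⟨h1, h1'⟩, by linarith, by linarith⟩)
  rw [lt_min_iff, lt_min_iff, lt_min_iff] at hs2
  obtain ⟨⟨s1, s2⟩, s3, s4⟩ := hs2
  obtain ⟨b1, hb1⟩ := exists_Brk (p := p) (q := q) (t := s) (t' := t) hs1 (by linarith) h1 h2
  obtain ⟨b2, hb2⟩ := exists_Brk (p := p) (q := q) (t := s) (t' := t') hs1 (by linarith) h1' h2'
  have e : b = b2 * b1⁻¹ := hb.unique h1 h2 ((hb1.inv hs1 (by linarith)).comp hb2)
  rw [e]
  exact Subgroup.mul_mem _ (aux _ _ hs1 s2 h2' (by linarith) _ hb2)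
    (Subgroup.inv_mem _ (aux _ _ hs1 s1 h2 (by linarith) _ hb1))

theorem RA.affOn {f : ℝ → ℝ} {x : ℝ} (h : RA f x) : ∃ e > 0, AffOn f x (x + e) := by
  obtain ⟨a, b, h⟩ := h
  rw [eventually_nhdsWithin_iff, Metric.eventually_nhds_iff] at h
  obtain ⟨e, he, h⟩ := h
  refine ⟨e / 2, half_pos he, a, b, fun t ht ht' => h ?_ ht⟩
  rw [Real.dist_eq, abs_of_nonneg (by linarith)]; linarith

theorem LA.affOn {f : ℝ → ℝ} {x : ℝ} (h : LA f x) : ∃ e > 0, AffOn f (x - e) x := by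
  obtain ⟨a, b, h⟩ := h
  rw [eventually_nhdsWithin_iff, Metric.eventually_nhds_iff] at h
  obtain ⟨e, he, h⟩ := h
  refine ⟨e / 2, half_pos he, a, b, fun t ht ht' => h ?_ ht'⟩
  rw [Real.dist_eq, abs_of_nonpos (by linarith)]; linarith

/-- the truncation of `κ` at `x` -/
theorem exists_trunc {p q : ℝ} {κ : Hm} (hκ : κ ∈ PS p q) {x : ℝ} (hx : p ≤ x) (hx' : x < q) :
    ∃ k ∈ PS p q, (∀ y ≤ x, k y = κ y) ∧ AffOn k x q := by
  have hq := PS_right hκ
  have hlt : κ x < q := by rw [← hq]; exact κ.strictMono hx'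
  obtain ⟨a, b, ha, e1, e2⟩ := exists_aff hx' hlt
  obtain ⟨k1, hk1, k11, k12⟩ := exists_glue hκ.1 (aff_mem a b ha) (c := x) e1.symm
  obtain ⟨k, hk, h1, h2⟩ := exists_glue hk1 P.one_mem (c := q)
    (by rw [k12 q hx'.le, e2]; rfl)
  refine ⟨k, ⟨hk, fun y hy => ?_, fun y hy => by rw [h2 y hy]; rfl⟩, fun y hy => ?_, ?_⟩
  · rw [h1 y (by linarith), k11 y (by linarith), hκ.2.1 y hy]
  · rw [h1 y (by linarith), k11 y hy]
  · exact (AffOn.aff a b ha x q).congr fun y hy hy' => by rw [h1 y hy', k12 y hy]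

theorem PS_le_commutator {P₀ p q Q₀ : ℝ} (h0 : P₀ < p) (hpq : p < q) (h5 : q < Q₀) :
    PS p q ≤ ⁅PS P₀ Q₀, PS P₀ Q₀⁆ := by
  classical
  intro κ hκ
  set C := ⁅PS P₀ Q₀, PS P₀ Q₀⁆ with hC
  have hq := PS_right hκ
  -- truncations
  have hex : ∀ x : ℝ, ∃ k : Hm, p ≤ x → x < q → k ∈ PS p q ∧ (∀ y ≤ x, k y = κ y) ∧
      AffOn k x q := by
    intro x
    by_cases hx : p ≤ x ∧ x < q
    · obtain ⟨k, h1, h2⟩ := exists_trunc hκ hx.1 hx.2
      exact ⟨k, fun _ _ => ⟨h1, h2⟩⟩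
    · exact ⟨1, fun h1 h2 => absurd ⟨h1, h2⟩ hx⟩
  choose K hK using hex
  -- uniqueness
  have huniq : ∀ x, p ≤ x → x < q → ∀ k ∈ PS p q, (∀ y ≤ x, k y = κ y) → AffOn k x q →
      k = K x := by
    intro x hx hx' k hk h1 h2
    obtain ⟨g1, g2, g3⟩ := hK x hx hx'
    apply Hm.ext'
    intro y
    rcases le_total y x with hy | hy
    · rw [h1 y hy, g2 y hy]
    rcases le_total y q with hy' | hy'
    · exact AffOn.eq_of hx' h2 g3 (by rw [h1 x le_rfl, g2 x le_rfl])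
        (by rw [PS_right hk, PS_right g1]) hy hy'
    · rw [hk.2.2 y hy', g1.2.2 y hy']
  -- the step
  have step : ∀ x x', p ≤ x → x < x' → x' < q → AffOn κ x x' → (K x ∈ C ↔ K x' ∈ C) := by
    intro x x' hx hxx hx' haff
    obtain ⟨g1, g2, g3⟩ := hK x hx (hxx.trans hx')
    obtain ⟨f1, f2, f3⟩ := hK x' (by linarith) hx'
    have hKx : K x x = κ x := g2 x le_rfl
    have hiq : (K x)⁻¹ q = q := PS_right ((PS _ _).inv_mem g1)
    have hpκ : p ≤ κ x := (PS_maps hκ hx (hxx.trans hx').le).1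
    have l1 : κ x < K x x' := by rw [← hKx]; exact (K x).strictMono hxx
    have l2 : K x x' < q := by rw [← PS_right g1]; exact (K x).strictMono hx'
    have l3 : κ x < κ x' := κ.strictMono hxx
    have l4 : κ x' < q := by rw [← hq]; exact κ.strictMono hx'
    have hb : Brk (κ x) q (K x x') (κ x') (K x' * (K x)⁻¹) := by
      refine ⟨⟨P.mul_mem f1.1 (P.inv_mem g1.1), fun y hy => ?_, fun y hy => ?_⟩, ?_, ?_, ?_⟩
      · have : (K x)⁻¹ y ≤ x := by
          rw [← (K x).le_iff_le, RelIso.apply_inv_self, hKx]; exact hy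
        rw [RelIso.mul_apply, f2 _ (by linarith), ← g2 _ this, RelIso.apply_inv_self]
      · rw [RelIso.mul_apply, ((PS _ _).inv_mem g1).2.2 y hy, f1.2.2 y hy]
      · refine AffOn.mul ?_ ?_
        · rw [← hKx, RelIso.inv_apply_self, RelIso.inv_apply_self]
          exact haff.congr fun y _ hy' => f2 y hy'
        · rw [← hKx]
          exact AffOn.inv hxx (g3.mono le_rfl hx'.le)
      · refine AffOn.mul ?_ ?_
        · rw [RelIso.inv_apply_self, hiq]; exact f3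
        · exact AffOn.inv' hx' rfl (PS_right g1) (g3.mono hxx.le le_rfl)
      · rw [RelIso.mul_apply, RelIso.inv_apply_self, f2 x' le_rfl]
    have hbC := Brk_mem_commutator (by linarith : P₀ < κ x) l1 l2 l3 l4 h5 hb
    constructor
    · intro h
      have := C.mul_mem hbC h
      rwa [inv_mul_cancel_right] at this
    · intro h
      have := C.mul_mem (C.inv_mem hbC) h
      rwa [mul_inv_rev, inv_inv, inv_mul_cancel_right] at this
  -- connectedness
  have hconn : ∀ x y, x ∈ Ico p q → y ∈ Ico p q → (K x ∈ C ↔ K y ∈ C) := by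
    intro x y hx hy
    refine (isPreconnected_Ico (a := p) (b := q)).induction₂ (fun x y => (K x ∈ C ↔ K y ∈ C))
      ?_ ?_ ?_ hx hy
    · intro x hx
      obtain ⟨e1, he1, ha1⟩ := (hκ.1 x).1.affOn
      obtain ⟨e2, he2, ha2⟩ := (hκ.1 x).2.affOn
      rw [eventually_nhdsWithin_iff, Metric.eventually_nhds_iff]
      refine ⟨min e1 e2, lt_min he1 he2, fun y hy hy' => ?_⟩
      rw [Real.dist_eq, abs_lt] at hy
      have m1 := min_le_left e1 e2
      have m2 := min_le_right e1 e2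
      rcases lt_trichotomy x y with h | h | h
      · exact step x y hx.1 h hy'.2 (ha1.mono le_rfl (by linarith))
      · rw [h]
      · exact (step y x hy'.1 h hx.2 (ha2.mono (by linarith) le_rfl)).symm
    · intro x y z _ _ _ h1 h2
      exact h1.trans h2
    · intro x y _ _ h
      exact h.symm
  have h1 : K p = 1 := by
    refine (huniq p le_rfl hpq 1 (PS p q).one_mem (fun y hy => ?_) (AffOn.one _ _)).symm
    rw [hκ.2.1 y hy]; rfl
  obtain ⟨e, he, hae⟩ := (hκ.1 q).2.affOn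
  set z := max p (q - e) with hz
  have hz1 : p ≤ z := le_max_left _ _
  have hz2 : z < q := max_lt hpq (by linarith)
  have hz3 : q - e ≤ z := le_max_right _ _
  have h2 : κ = K z := huniq z hz1 hz2 κ hκ (fun _ _ => rfl) (hae.mono hz3 le_rfl)
  rw [h2, ← hconn p z ⟨le_rfl, hpq⟩ ⟨hz1, hz2⟩, h1]
  exact C.one_mem

/-- Dennis–Vaserstein: with room for a displacing element, products of commutators are products
of two commutators. -/
theorem dennis_vaserstein {G : Type*} [Group G] (J M : Subgroup G) (d : G) (hJM : J ≤ M)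
    (hdM : ∀ x ∈ M, d * x * d⁻¹ ∈ M) (hcomm : ∀ x ∈ J, ∀ y ∈ M, x * (d * y * d⁻¹) =
      (d * y * d⁻¹) * x) {X : G} (hX : X ∈ ⁅J, J⁆) :
    ∃ a ∈ M, ∃ b ∈ M, ∃ c ∈ M, X = ⁅a, b⁆ * ⁅c, d⁆ := by
  have main : X ∈ J ∧ ∃ H₀ ∈ M, ∃ H₁ ∈ M, ∃ A ∈ M, ∃ B ∈ M, H₁ = X * (d * H₀ * d⁻¹) ∧
      H₀⁻¹ * H₁ = ⁅A, B⁆ := by
    rw [Subgroup.commutator_def] at hX
    have step : ∀ a ∈ J, ∀ b ∈ J, ∀ Y : G, (Y ∈ J ∧ ∃ H₀ ∈ M, ∃ H₁ ∈ M, ∃ A ∈ M, ∃ B ∈ M,
        H₁ = Y * (d * H₀ * d⁻¹) ∧ H₀⁻¹ * H₁ = ⁅A, B⁆) →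
        (⁅a, b⁆ * Y ∈ J ∧ ∃ H₀ ∈ M, ∃ H₁ ∈ M, ∃ A ∈ M, ∃ B ∈ M,
        H₁ = (⁅a, b⁆ * Y) * (d * H₀ * d⁻¹) ∧ H₀⁻¹ * H₁ = ⁅A, B⁆) := by
      rintro a ha b hb Y ⟨hY, H₀, hH₀, H₁, hH₁, A, hA, B, hB, e1, e2⟩
      have hab : ⁅a, b⁆ ∈ J := by
        rw [commutatorElement_def]
        exact J.mul_mem (J.mul_mem (J.mul_mem ha hb) (J.inv_mem ha)) (J.inv_mem hb)
      have haY : Y⁻¹ * a * Y ∈ J := J.mul_mem (J.mul_mem (J.inv_mem hY) ha) hY
      have hbY : Y⁻¹ * b * Y ∈ J := J.mul_mem (J.mul_mem (J.inv_mem hY) hb) hY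
      refine ⟨J.mul_mem hab hY, H₁, hH₁, (⁅a, b⁆ * Y) * (d * H₁ * d⁻¹),
        M.mul_mem (hJM (J.mul_mem hab hY)) (hdM _ hH₁),
        (Y⁻¹ * a * Y) * (d * A * d⁻¹), M.mul_mem (hJM haY) (hdM _ hA),
        (Y⁻¹ * b * Y) * (d * B * d⁻¹), M.mul_mem (hJM hbY) (hdM _ hB), rfl, ?_⟩
      -- the commutator of products of commuting pairs
      have c1 := hcomm _ haY _ hB
      have c2 := hcomm _ hbY _ hA
      set a' := Y⁻¹ * a * Y with ha'
      set b' := Y⁻¹ * b * Y with hb'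
      set A' := d * A * d⁻¹ with hA'
      set B' := d * B * d⁻¹ with hB'
      have c1' : B' * a'⁻¹ = a'⁻¹ * B' := by
        rw [eq_comm, inv_mul_eq_iff_eq_mul, ← mul_assoc, c1, mul_assoc, mul_inv_cancel, mul_one]
      have c2' : A' * b'⁻¹ = b'⁻¹ * A' := by
        rw [eq_comm, inv_mul_eq_iff_eq_mul, ← mul_assoc, c2, mul_assoc, mul_inv_cancel, mul_one]
      have haA := hcomm _ haY _ hA
      have hbB := hcomm _ hbY _ hB
      have c3 : A' * a'⁻¹ = a'⁻¹ * A' := by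
        rw [eq_comm, inv_mul_eq_iff_eq_mul, ← mul_assoc, haA, mul_assoc, mul_inv_cancel, mul_one]
      have c4 : B' * b'⁻¹ = b'⁻¹ * B' := by
        rw [eq_comm, inv_mul_eq_iff_eq_mul, ← mul_assoc, hbB, mul_assoc, mul_inv_cancel, mul_one]
      have key : ⁅a' * A', b' * B'⁆ = ⁅a', b'⁆ * ⁅A', B'⁆ := by
        have hcA : ∀ x, x = a' ∨ x = b' ∨ x = a'⁻¹ ∨ x = b'⁻¹ → Commute A' x ∧ Commute B' x := by
          rintro x (rfl | rfl | rfl | rfl)
          · exact ⟨haA.symm, c1.symm⟩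
          · exact ⟨c2.symm, hbB.symm⟩
          · exact ⟨c3, c1'⟩
          · exact ⟨c2', c4⟩
        have q1 : Commute A' b' := c2.symm
        have q2 : Commute (A' * B' * A'⁻¹) a'⁻¹ := by
          have : Commute A' a'⁻¹ := c3
          have h2 : Commute B' a'⁻¹ := c1'
          exact (this.mul_left h2).mul_left this.inv_left
        have q3 : Commute (A' * B' * A'⁻¹ * B'⁻¹) b'⁻¹ := by
          have : Commute A' b'⁻¹ := c2'
          have h2 : Commute B' b'⁻¹ := c4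
          exact ((this.mul_left h2).mul_left this.inv_left).mul_left h2.inv_left
        rw [commutatorElement_def, commutatorElement_def, commutatorElement_def]
        calc a' * A' * (b' * B') * (a' * A')⁻¹ * (b' * B')⁻¹
            = a' * (A' * b') * B' * A'⁻¹ * a'⁻¹ * B'⁻¹ * b'⁻¹ := by group
          _ = a' * (b' * A') * B' * A'⁻¹ * a'⁻¹ * B'⁻¹ * b'⁻¹ := by rw [q1.eq]
          _ = a' * b' * ((A' * B' * A'⁻¹) * a'⁻¹) * B'⁻¹ * b'⁻¹ := by group
          _ = a' * b' * (a'⁻¹ * (A' * B' * A'⁻¹)) * B'⁻¹ * b'⁻¹ := by rw [q2.eq]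
          _ = a' * b' * a'⁻¹ * ((A' * B' * A'⁻¹ * B'⁻¹) * b'⁻¹) := by group
          _ = a' * b' * a'⁻¹ * (b'⁻¹ * (A' * B' * A'⁻¹ * B'⁻¹)) := by rw [q3.eq]
          _ = a' * b' * a'⁻¹ * b'⁻¹ * (A' * B' * A'⁻¹ * B'⁻¹) := by group
      rw [key]
      have hA'' : ⁅A', B'⁆ = d * ⁅A, B⁆ * d⁻¹ := by
        rw [hA', hB', commutatorElement_def, commutatorElement_def]; group
      have ha'' : ⁅a', b'⁆ = Y⁻¹ * ⁅a, b⁆ * Y := by
        rw [ha', hb', commutatorElement_def, commutatorElement_def]; group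
      rw [hA'', ha'', ← e2]
      -- H₁⁻¹ [a,b] Y d H₁ d⁻¹ = Y⁻¹ [a,b] Y d H₀⁻¹ H₁ d⁻¹
      have hc := hcomm _ (J.mul_mem (J.mul_mem (J.inv_mem hY) hab) hY) _ (M.inv_mem hH₀)
      calc H₁⁻¹ * (⁅a, b⁆ * Y * (d * H₁ * d⁻¹))
          = (Y * (d * H₀ * d⁻¹))⁻¹ * (⁅a, b⁆ * Y * (d * H₁ * d⁻¹)) := by rw [← e1]
        _ = (d * H₀⁻¹ * d⁻¹) * (Y⁻¹ * ⁅a, b⁆ * Y) * (d * H₁ * d⁻¹) := by group
        _ = (Y⁻¹ * ⁅a, b⁆ * Y) * (d * H₀⁻¹ * d⁻¹) * (d * H₁ * d⁻¹) := by rw [← hc]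
        _ = Y⁻¹ * ⁅a, b⁆ * Y * (d * (H₀⁻¹ * H₁) * d⁻¹) := by group
    induction hX using Subgroup.closure_induction_left with
    | one =>
      exact ⟨J.one_mem, 1, M.one_mem, 1, M.one_mem, 1, M.one_mem, 1, M.one_mem, by simp, by simp⟩
    | mul_left x hx y hy ih =>
      obtain ⟨a, ha, b, hb, rfl⟩ := hx
      exact step a ha b hb y ih
    | inv_mul_cancel x hx y hy ih =>
      obtain ⟨a, ha, b, hb, rfl⟩ := hx
      rw [commutatorElement_inv]
      exact step b hb a ha y ih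
  obtain ⟨-, H₀, hH₀, H₁, hH₁, A, hA, B, hB, e1, e2⟩ := main
  have hdA := hdM _ hA
  have hdB := hdM _ hB
  refine ⟨H₁ * (d * A * d⁻¹) * H₁⁻¹, M.mul_mem (M.mul_mem hH₁ hdA) (M.inv_mem hH₁),
    H₁ * (d * B * d⁻¹) * H₁⁻¹, M.mul_mem (M.mul_mem hH₁ hdB) (M.inv_mem hH₁), H₁, hH₁, ?_⟩
  have e3 : H₀ = H₁ * ⁅A, B⁆⁻¹ := by rw [← e2]; group
  have e4 : X = H₁ * (d * H₀ * d⁻¹)⁻¹ := by rw [e1]; group
  rw [e4, e3]
  simp only [commutatorElement_def]
  group

/-- an element moving two points to two given points -/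
theorem exists_move2 {e e' x₁ x₂ y₁ y₂ : ℝ} (h1 : e < x₁) (h2 : x₁ < x₂) (h3 : x₂ < e')
    (h1' : e < y₁) (h2' : y₁ < y₂) (h3' : y₂ < e') :
    ∃ H ∈ PS e e', H x₁ = y₁ ∧ H x₂ = y₂ := by
  obtain ⟨b1, hb1⟩ := exists_Brk (p := e) (q := e') h1 (h2.trans h3) h1' (h2'.trans h3')
  have l1 : y₁ < b1 x₂ := by rw [← hb1.val]; exact b1.strictMono h2
  have l2 : b1 x₂ < e' := by rw [← PS_right hb1.mem]; exact b1.strictMono h3
  obtain ⟨b2, hb2⟩ := exists_Brk (p := y₁) (q := e') l1 l2 h2' h3'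
  refine ⟨b2 * b1, (PS e e').mul_mem (PS_mono h1'.le le_rfl hb2.mem) hb1.mem, ?_, ?_⟩
  · rw [RelIso.mul_apply, hb1.val, PS_left hb2.mem]
  · rw [RelIso.mul_apply, hb2.val]

/-- uniform commutator width -/
theorem PS_two_commutators {e e' u v : ℝ} (h1 : e < u) (h2 : u < v) (h3 : v < e') {κ : Hm}
    (hκ : κ ∈ PS u v) : ∃ a ∈ PS e e', ∃ b ∈ PS e e', ∃ c ∈ PS e e', ∃ d ∈ PS e e',
      κ = ⁅a, b⁆ * ⁅c, d⁆ := by
  obtain ⟨l, hl⟩ : ∃ l, l = (e' - e) / 9 := ⟨_, rfl⟩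
  have hl0 : 0 < l := by rw [hl]; linarith
  have hle : e' = e + 9 * l := by rw [hl]; ring
  obtain ⟨H, hH, H1, H2⟩ := exists_move2 (y₁ := e + 4 * l) (y₂ := e + 5 * l) h1 h2 h3
    (by linarith) (by linarith) (by linarith)
  have hκ' : H * κ * H⁻¹ ∈ PS (e + 4 * l) (e + 5 * l) := by
    have := PS_conj hκ hH.1
    rwa [H1, H2] at this
  obtain ⟨d, hd⟩ := exists_Brk (p := e) (q := e') (t := e + 3 * l) (t' := e + 6 * l)
    (by linarith) (by linarith) (by linarith) (by linarith)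
  have hM : ∀ x ∈ PS (e + 3 * l) e', d * x * d⁻¹ ∈ PS (e + 6 * l) e' := by
    intro x hx
    have := PS_conj hx hd.mem.1
    rwa [hd.val, PS_right hd.mem] at this
  obtain ⟨a, ha, b, hb, c, hc, e0⟩ := dennis_vaserstein (PS (e + 3 * l) (e + 6 * l))
    (PS (e + 3 * l) e') d (PS_mono le_rfl (by linarith))
    (fun x hx => PS_mono (by linarith) le_rfl (hM x hx))
    (fun x hx y hy => PS_commute hx (hM y hy) le_rfl)
    (PS_le_commutator (p := e + 4 * l) (q := e + 5 * l) (by linarith) (by linarith)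
      (by linarith) hκ')
  have hsub : PS (e + 3 * l) e' ≤ PS e e' := PS_mono (by linarith) le_rfl
  have hHi := (PS e e').inv_mem hH
  refine ⟨H⁻¹ * a * H, (PS e e').mul_mem ((PS e e').mul_mem hHi (hsub ha)) hH,
    H⁻¹ * b * H, (PS e e').mul_mem ((PS e e').mul_mem hHi (hsub hb)) hH,
    H⁻¹ * c * H, (PS e e').mul_mem ((PS e e').mul_mem hHi (hsub hc)) hH,
    H⁻¹ * d * H, (PS e e').mul_mem ((PS e e').mul_mem hHi hd.mem) hH, ?_⟩
  have e5 : κ = H⁻¹ * (H * κ * H⁻¹) * H := by group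
  rw [e5, e0]
  simp only [commutatorElement_def]
  group

end Pool.Agent.H16.PLR
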