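import Pool.Agent.H16.PLR.Final

/-! The usual definition of piecewise affine maps against the germ form. -/

set_option autoImplicit false

open Set Filter Topology

namespace Pool.Agent.H16.PLR

/-- `f` is given by `t ↦ a * t + b` on an open interval around `x`. -/
def LocAff (f : ℝ → ℝ) (x : ℝ) : Prop :=
  ∃ a b ε : ℝ, 0 < ε ∧ ∀ t, |t - x| < ε → f t = a * t + b

theorem LocAff.of_affOn {f : ℝ → ℝ} {u v x : ℝ} (h : AffOn f u v) (h1 : u < x) (h2 : x < v) :
    LocAff f x := by
  obtain ⟨a, b, h⟩ := h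
  refine ⟨a, b, min (x - u) (v - x), lt_min (by linarith) (by linarith), fun t ht => ?_⟩
  rw [lt_min_iff, abs_lt, abs_lt] at ht
  exact h t (by linarith [ht.1.1]) (by linarith [ht.2.2])

theorem affine_of_locally {f : ℝ → ℝ} (hf : Continuous f) {u v : ℝ} (huv : u < v)
    (h : ∀ t ∈ Ioo u v, LocAff f t) : AffOn f u v := by
  have hex : ∀ t, ∃ p : ℝ × ℝ × ℝ, t ∈ Ioo u v →
      0 < p.2.2 ∧ ∀ s, |s - t| < p.2.2 → f s = p.1 * s + p.2.1 := by
    intro t
    by_cases ht : t ∈ Ioo u v
    · obtain ⟨a, b, ε, h1, h2⟩ := h t ht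
      exact ⟨(a, b, ε), fun _ => ⟨h1, h2⟩⟩
    · exact ⟨(0, 0, 0), fun h => absurd h ht⟩
  choose p hp using hex
  have hconn : ∀ s t, s ∈ Ioo u v → t ∈ Ioo u v → ((p s).1 = (p t).1 ∧ (p s).2.1 = (p t).2.1) := by
    intro s t hs ht
    refine (isPreconnected_Ioo (a := u) (b := v)).induction₂
      (fun s t => ((p s).1 = (p t).1 ∧ (p s).2.1 = (p t).2.1)) ?_ ?_ ?_ hs ht
    · intro s hs
      obtain ⟨hε, hs'⟩ := hp s hs
      rw [eventually_nhdsWithin_iff, Metric.eventually_nhds_iff]
      refine ⟨(p s).2.2, hε, fun t ht ht' => ?_⟩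
      rw [Real.dist_eq] at ht
      obtain ⟨hε', ht''⟩ := hp t ht'
      -- a second point close to `t`
      obtain ⟨r, hr, hr'⟩ : ∃ r, 0 < r ∧ r < min (p t).2.2 ((p s).2.2 - |t - s|) :=
        exists_between (lt_min hε' (by linarith))
      rw [lt_min_iff] at hr'
      have a1 := hs' t ht
      have a2 := hs' (t + r) (by
        calc |t + r - s| = |(t - s) + r| := by ring_nf
          _ ≤ |t - s| + |r| := abs_add_le _ _
          _ = |t - s| + r := by rw [abs_of_pos hr]
          _ < _ := by linarith)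
      have b1 := ht'' t (by simpa using hε')
      have b2 := ht'' (t + r) (by
        have : t + r - t = r := by ring
        rw [this, abs_of_pos hr]; exact hr'.1)
      have e1 : ((p s).1 - (p t).1) * r = 0 := by linarith
      have e2 : (p s).1 = (p t).1 := by
        rcases mul_eq_zero.1 e1 with h | h
        · linarith
        · linarith
      refine ⟨e2, ?_⟩
      rw [e2] at a1
      linarith
    · intro x y z _ _ _ h1 h2
      exact ⟨h1.1.trans h2.1, h1.2.trans h2.2⟩
    · intro x y _ _ h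
      exact ⟨h.1.symm, h.2.symm⟩
  obtain ⟨m, hm⟩ : ∃ m, m ∈ Ioo u v := ⟨(u + v) / 2, by constructor <;> linarith⟩
  have heq : EqOn f (fun t => (p m).1 * t + (p m).2.1) (Ioo u v) := by
    intro t ht
    obtain ⟨e1, e2⟩ := hconn m t hm ht
    have := (hp t ht).2 t (by simpa using (hp t ht).1)
    simp only
    rw [e1, e2, this]
  have heq' := heq.closure hf (by fun_prop)
  rw [closure_Ioo huv.ne] at heq'
  exact ⟨(p m).1, (p m).2.1, fun x hx hx' => heq' ⟨hx, hx'⟩⟩

theorem isPL_iff {f : ℝ → ℝ} (hf : Continuous f) :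
    IsPL f ↔ DiscreteTopology {x : ℝ | ¬ LocAff f x} := by
  rw [discreteTopology_subtype_iff]
  constructor
  · intro h x _
    obtain ⟨e1, he1, h1⟩ := (h x).1.affOn
    obtain ⟨e2, he2, h2⟩ := (h x).2.affOn
    rw [← disjoint_iff, disjoint_principal_right, mem_nhdsWithin_iff_exists_mem_nhds_inter]
    refine ⟨Ioo (x - e2) (x + e1), Ioo_mem_nhds (by linarith) (by linarith), fun t ht => ?_⟩
    rw [mem_compl_iff, mem_setOf_eq, not_not]
    rcases lt_or_gt_of_ne (show t ≠ x from ht.2) with h3 | h3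
    · exact LocAff.of_affOn h2 ht.1.1 h3
    · exact LocAff.of_affOn h1 h3 ht.1.2
  · intro h x
    -- punctured neighbourhood of locally affine points
    have key : ∃ ε > 0, ∀ t, t ≠ x → |t - x| < ε → LocAff f t := by
      by_cases hx : LocAff f x
      · obtain ⟨a, b, ε, hε, h1⟩ := hx
        refine ⟨ε, hε, fun t _ ht => ?_⟩
        refine ⟨a, b, ε - |t - x|, by linarith, fun s hs => h1 s ?_⟩
        calc |s - x| = |(s - t) + (t - x)| := by ring_nf
          _ ≤ |s - t| + |t - x| := abs_add_le _ _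
          _ < ε := by linarith
      · have h1 := h x hx
        rw [← disjoint_iff, disjoint_principal_right, mem_nhdsWithin_iff_exists_mem_nhds_inter]
          at h1
        obtain ⟨U, hU, hU'⟩ := h1
        obtain ⟨ε, hε, hball⟩ := Metric.mem_nhds_iff.1 hU
        refine ⟨ε, hε, fun t ht ht' => ?_⟩
        have := hU' ⟨hball (by rw [Metric.mem_ball, Real.dist_eq]; exact ht'), ht⟩
        rwa [mem_compl_iff, mem_setOf_eq, not_not] at this
    obtain ⟨ε, hε, h1⟩ := key
    have hr : AffOn f x (x + ε) := affine_of_locally hf (by linarith) fun t ht =>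
      h1 t ht.1.ne' (by rw [abs_of_pos (by linarith [ht.1])]; linarith [ht.2])
    have hl : AffOn f (x - ε) x := affine_of_locally hf (by linarith) fun t ht =>
      h1 t ht.2.ne (by rw [abs_of_neg (by linarith [ht.2])]; linarith [ht.1])
    obtain ⟨a, b, hr⟩ := hr
    obtain ⟨a', b', hl⟩ := hl
    refine ⟨⟨a, b, ?_⟩, ⟨a', b', ?_⟩⟩
    · filter_upwards [self_mem_nhdsWithin,
        mem_nhdsWithin_of_mem_nhds (Iio_mem_nhds (show x < x + ε by linarith))] with t ht ht'
      exact hr t ht (le_of_lt ht')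
    · filter_upwards [self_mem_nhdsWithin,
        mem_nhdsWithin_of_mem_nhds (Ioi_mem_nhds (show x - ε < x by linarith))] with t ht ht'
      exact hl t (le_of_lt ht') ht

/-- the order isomorphism attached to an increasing homeomorphism -/
noncomputable def toHm (f : ℝ ≃ₜ ℝ) (hf : StrictMono f) : Hm :=
  hf.orderIsoOfSurjective f f.surjective

@[simp] theorem toHm_apply (f : ℝ ≃ₜ ℝ) (hf : StrictMono f) (x : ℝ) : toHm f hf x = f x := rfl

theorem toHm_inv_apply (f : ℝ ≃ₜ ℝ) (hf : StrictMono f) (x : ℝ) :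
    (toHm f hf)⁻¹ x = f.symm x := by
  rw [← (toHm f hf).injective.eq_iff, RelIso.apply_inv_self, toHm_apply, f.apply_symm_apply]

theorem toHm_mem (f : ℝ ≃ₜ ℝ) (hf : StrictMono f) :
    toHm f hf ∈ P ↔ DiscreteTopology {x : ℝ | ¬ LocAff f x} :=
  isPL_iff f.continuous

end Pool.Agent.H16.PLR
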