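import Pool.Agent.H16.PLR.Assemble

/-! Every element of `P` is a product of two reversible elements. -/

set_option autoImplicit false

open Set Filter Topology
open scoped commutatorElement

namespace Pool.Agent.H16.PLR

theorem s0_conj : tr 1 * s0 * (tr 1)⁻¹ = s0⁻¹ := by
  rw [eq_inv_iff_mul_eq_one]
  apply Hm.ext'
  intro x
  simp only [RelIso.mul_apply, RelIso.one_apply, tr_apply]
  rw [← s0.injective.eq_iff]
  rw [s0_rev ((tr 1)⁻¹ (s0 x)), tr_inv_apply]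
  ring

theorem glue_std {X : ℤ → ℝ} {S : Hm} (hX : StrictMono X) (hb : Tendsto X atBot atBot)
    (ht : Tendsto X atTop atTop) (hfix : ∀ n, S (X n) = X n)
    (hstd : ∀ n : ℤ, IsStd S (X n) (X (n + 1)) n) : ∃ G ∈ P, G * S = s0 * G := by
  choose g hg g1 g2 g3 using hstd
  obtain ⟨G, hG, hG'⟩ := exists_glueZ hX hb ht hg
    (fun n => by rw [g2, g1]; push_cast; ring)
    (by simp only [g1]; exact tendsto_intCast_atBot_iff.2 tendsto_id)
    (by simp only [g1]; exact tendsto_intCast_atTop_iff.2 tendsto_id)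
  refine ⟨G, hG, ?_⟩
  apply Hm.ext'
  intro x
  obtain ⟨n, h1, h2⟩ := exists_int_between hX hb ht x
  have h3 : X n ≤ S x := by rw [← hfix n]; exact S.monotone h1
  have h4 : S x ≤ X (n + 1) := by rw [← hfix (n + 1)]; exact S.monotone h2.le
  rw [RelIso.mul_apply, RelIso.mul_apply, hG' n _ h3 h4, hG' n x h1 h2.le, g3 n x h1 h2.le]

theorem cross_lt {χ : ℤ → Hm} {i j : ℤ → ℝ} (Oi : Ord χ i) (Oj : Ord χ j) (n : ℤ) :
    Xp χ i n < Xp χ j (n + 1) := by
  have h1 := (Xp_lo Oi n).2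
  have h2 := (Xp_lo Oj (n + 1)).1
  have s1 := Oi.sep (2 * n)
  have s2 := Oi.sep (2 * n + 1)
  have e : 2 * n + 1 + 1 = 2 * (n + 1) := by ring
  rw [e] at s2
  have l1 : (χ (2 * n))⁻¹ 4 < (χ (2 * n))⁻¹ 380 := inv_lt (by norm_num)
  have l2 : (χ (2 * n + 1))⁻¹ (-8) < (χ (2 * n + 1))⁻¹ 380 := inv_lt (by norm_num)
  have l3 : (χ (2 * (n + 1)))⁻¹ (-8) < (χ (2 * (n + 1)))⁻¹ 1 := inv_lt (by norm_num)
  linarith

theorem two_mul_top : Tendsto (fun n : ℤ => 2 * n) atTop atTop := by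
  apply tendsto_atTop.2
  intro b
  filter_upwards [eventually_ge_atTop (max b 0)] with n hn
  have h1 := le_max_left b 0
  have h2 := le_max_right b 0
  omega

theorem two_mul_bot : Tendsto (fun n : ℤ => 2 * n) atBot atBot := by
  apply tendsto_atBot.2
  intro b
  filter_upwards [eventually_le_atBot (min b 0)] with n hn
  have h1 := min_le_left b 0
  have h2 := min_le_right b 0
  omega

theorem Xp_top {f : Hm} {χ : ℤ → Hm} {i j ι : ℤ → ℝ} (B : BSeq f χ i j) (O : Ord χ ι) :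
    Tendsto (Xp χ ι) atTop atTop := by
  refine tendsto_atTop_mono (fun n => ?_) (B.top.comp two_mul_top)
  calc (χ (2 * n))⁻¹ (-8) ≤ (χ (2 * n))⁻¹ 1 := inv_le (by norm_num)
    _ ≤ Xp χ ι n := (Xp_lo O n).1

theorem Xp_bot {f : Hm} {χ : ℤ → Hm} {i j ι : ℤ → ℝ} (B : BSeq f χ i j) (O : Ord χ ι) :
    Tendsto (Xp χ ι) atBot atBot := by
  refine tendsto_atBot_mono (fun n => ?_) (B.bot.comp two_mul_bot)
  calc Xp χ ι n ≤ (χ (2 * n))⁻¹ 4 := (Xp_lo O n).2
    _ ≤ (χ (2 * n))⁻¹ 380 := inv_le (by norm_num)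

theorem exists_pair {f : Hm} (hf : f ∈ P) (h1 : f ≠ 1) :
    ∃ S ∈ P, (∃ G ∈ P, G * S = s0 * G) ∧ ∃ G ∈ P, G * (f * S) = s0 * G := by
  obtain ⟨χ, i, j, B⟩ := exists_BSeq hf h1
  obtain ⟨s, Fi, Fj⟩ := exists_flow hf B
  have Oi : Ord χ i := ⟨fun k => (B.blk k).mem, fun k => (B.blk k).i01.1,
    fun k => (B.blk k).i01.2.1, B.sep⟩
  have Oj : Ord χ j := ⟨fun k => (B.blk k).mem, fun k => (B.blk k).i01.2.2.1,
    fun k => (B.blk k).i01.2.2.2, B.sep⟩
  choose K hK K1 K2 using fun n => correct_cell B Fi Fj n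
  have hXi : StrictMono (Xp χ i) := strictMono_int_of_lt_succ fun n => Xp_lt Oi n
  have hXj : StrictMono (Xp χ j) := strictMono_int_of_lt_succ fun n => Xp_lt Oj n
  have hc : StrictMono (fun n => max (Xp χ i n) (Xp χ j n)) := fun a b hab =>
    max_lt_max (hXi hab) (hXj hab)
  have hct : Tendsto (fun n => max (Xp χ i n) (Xp χ j n)) atTop atTop :=
    tendsto_atTop_mono (fun n => le_max_left _ _) (Xp_top B Oi)
  have hcb : Tendsto (fun n => max (Xp χ i n) (Xp χ j n)) atBot atBot := by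
    have hb1 := Xp_bot B Oi
    have hb2 := Xp_bot B Oj
    rw [tendsto_atBot] at hb1 hb2 ⊢
    intro b
    filter_upwards [hb1 b, hb2 b] with n hn hn'
    exact max_le hn hn'
  have hK' : ∀ n, K n ∈ PS (max (Xp χ i n) (Xp χ j n)) (max (Xp χ i (n + 1)) (Xp χ j (n + 1))) :=
    fun n => PS_mono le_rfl ((min_le_left _ _).trans (le_max_left _ _)) (hK n)
  have hKc : (fun n => K n (max (Xp χ i n) (Xp χ j n))) = fun n => max (Xp χ i n) (Xp χ j n) := by
    funext n; exact PS_left (hK' n)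
  obtain ⟨Kt, hKt, hKt'⟩ := exists_glueZ hc hcb hct (fun n => (hK n).1)
    (fun n => by rw [PS_right (hK' n), PS_left (hK' (n + 1))])
    (by rw [hKc]; exact hcb) (by rw [hKc]; exact hct)
  -- on both cells `Kt = K n`
  have hcell : ∀ n x, min (Xp χ i n) (Xp χ j n) ≤ x → x ≤ max (Xp χ i (n + 1)) (Xp χ j (n + 1)) →
      Kt x = K n x := by
    intro n x hx hx'
    rcases le_total (max (Xp χ i n) (Xp χ j n)) x with h | h
    · exact hKt' n x h hx'
    · have h2 : max (Xp χ i (n - 1)) (Xp χ j (n - 1)) ≤ x := by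
        have e : n - 1 + 1 = n := by ring
        have a1 := Xp_lt Oi (n - 1)
        have a2 := Xp_lt Oj (n - 1)
        have a3 := cross_lt Oi Oj (n - 1)
        have a4 := cross_lt Oj Oi (n - 1)
        rw [e] at a1 a2 a3 a4
        refine le_trans ?_ hx
        exact max_le (le_min a1.le a3.le) (le_min a4.le a2.le)
      have h3 := hKt' (n - 1) x h2 (by rw [sub_add_cancel]; exact h)
      rw [h3, (hK n).2.1 x h]
      have h4 := (hK (n - 1)).2.2
      rw [sub_add_cancel] at h4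
      exact h4 x hx
  refine ⟨s * Kt, P.mul_mem Fi.mem hKt, ?_, ?_⟩
  · have hfixK : ∀ n, Kt (Xp χ i n) = Xp χ i n := by
      intro n
      rw [hcell n _ (min_le_left _ _) ((Xp_lt Oi n).le.trans (le_max_left _ _)),
        (hK n).2.1 _ (le_max_left _ _)]
    refine glue_std hXi (Xp_bot B Oi) (Xp_top B Oi) (fun n => ?_) (fun n => ?_)
    · rw [RelIso.mul_apply, hfixK, Fi.fix Oi]
    · refine (K1 n).congr fun x hx hx' => ?_
      rw [RelIso.mul_apply, RelIso.mul_apply, hcell n x ((min_le_left _ _).trans hx)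
        (hx'.trans (le_max_left _ _))]
  · have hfixK : ∀ n, Kt (Xp χ j n) = Xp χ j n := by
      intro n
      rw [hcell n _ (min_le_right _ _) ((Xp_lt Oj n).le.trans (le_max_right _ _)),
        (hK n).2.1 _ (le_max_right _ _)]
    refine glue_std hXj (Xp_bot B Oj) (Xp_top B Oj) (fun n => ?_) (fun n => ?_)
    · rw [← mul_assoc, RelIso.mul_apply, hfixK, Fj.fix Oj]
    · refine (K2 n).congr fun x hx hx' => ?_
      rw [← mul_assoc, RelIso.mul_apply, RelIso.mul_apply (f * s),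
        hcell n x ((min_le_right _ _).trans hx) (hx'.trans (le_max_right _ _))]

theorem rev_of {S G : Hm} (h : G * S = s0 * G) :
    (G⁻¹ * tr 1 * G) * S * (G⁻¹ * tr 1 * G)⁻¹ = S⁻¹ := by
  have e1 : S = G⁻¹ * s0 * G := by rw [mul_assoc, ← h]; group
  have e2 : S⁻¹ = G⁻¹ * s0⁻¹ * G := by rw [e1]; group
  rw [e2, ← s0_conj, e1]
  group

/-- every element of `P` is a product of two reversible elements -/
theorem main {f : Hm} (hf : f ∈ P) : ∃ r₁ ∈ P, ∃ r₂ ∈ P, (∃ h ∈ P, h * r₁ * h⁻¹ = r₁⁻¹) ∧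
    (∃ h ∈ P, h * r₂ * h⁻¹ = r₂⁻¹) ∧ f = r₁ * r₂ := by
  by_cases h1 : f = 1
  · exact ⟨1, P.one_mem, 1, P.one_mem, ⟨1, P.one_mem, by simp⟩, ⟨1, P.one_mem, by simp⟩,
      by rw [h1]; simp⟩
  · obtain ⟨S, hS, ⟨G, hG, e⟩, G', hG', e'⟩ := exists_pair hf h1
    refine ⟨f * S, P.mul_mem hf hS, S⁻¹, P.inv_mem hS,
      ⟨G'⁻¹ * tr 1 * G', P.mul_mem (P.mul_mem (P.inv_mem hG') (tr_mem _)) hG', rev_of e'⟩,
      ⟨G⁻¹ * tr 1 * G, P.mul_mem (P.mul_mem (P.inv_mem hG) (tr_mem _)) hG, ?_⟩, by group⟩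
    have h2 := rev_of e
    rw [inv_inv]
    calc G⁻¹ * tr 1 * G * S⁻¹ * (G⁻¹ * tr 1 * G)⁻¹
        = (G⁻¹ * tr 1 * G * S * (G⁻¹ * tr 1 * G)⁻¹)⁻¹ := by group
      _ = (S⁻¹)⁻¹ := by rw [h2]
      _ = S := inv_inv S

end Pool.Agent.H16.PLR
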