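import Pool.Agent.H16.PLR.Blocks

/-! Construction of the rough flow. -/

set_option autoImplicit false

open Set Filter Topology
open scoped commutatorElement

namespace Pool.Agent.H16.PLR

theorem exists_NP : ∃ L ∈ P, (∀ x ≤ 0, L x = x - 2) ∧ (∀ x, 0 ≤ x → x ≤ 3 → L x = 2 * x - 2) ∧
    (∀ x, 3 ≤ x → L x = x + 1) := by
  obtain ⟨k1, hk1, k11, k12⟩ := exists_glue (tr_mem (-2))
    (aff_mem 2 (-2) two_pos) (c := 0) (by simp only [aff_apply, tr_apply]; norm_num)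
  obtain ⟨k2, hk2, k21, k22⟩ := exists_glue hk1
    (tr_mem 1) (c := 3)
    (by rw [k12 _ (by norm_num)]; simp only [aff_apply, tr_apply]; norm_num)
  refine ⟨k2, hk2, fun x hx => ?_, fun x hx hx' => ?_, fun x hx => ?_⟩
  · rw [k21 x (by linarith), k11 x hx, tr_apply]; ring
  · rw [k21 x hx', k12 x hx, aff_apply]; ring
  · rw [k22 x hx, tr_apply]

theorem exists_PN : ∃ L ∈ P, (∀ x ≤ 0, L x = x + 1) ∧ (∀ x, 0 ≤ x → x ≤ 6 → L x = x / 2 + 1) ∧
    (∀ x, 6 ≤ x → L x = x - 2) := by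
  obtain ⟨k1, hk1, k11, k12⟩ := exists_glue (tr_mem 1)
    (aff_mem (1 / 2) 1 (by norm_num)) (c := 0) (by simp only [aff_apply, tr_apply]; norm_num)
  obtain ⟨k2, hk2, k21, k22⟩ := exists_glue hk1
    (tr_mem (-2)) (c := 6)
    (by rw [k12 _ (by norm_num)]; simp only [aff_apply, tr_apply]; norm_num)
  refine ⟨k2, hk2, fun x hx => ?_, fun x hx hx' => ?_, fun x hx => ?_⟩
  · rw [k21 x (by linarith), k11 x hx, tr_apply]
  · rw [k21 x hx', k12 x hx, aff_apply]; ring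
  · rw [k22 x hx, tr_apply]; ring

/-- the template negative → positive -/
noncomputable def NP : Hm := exists_NP.choose
/-- the template positive → negative -/
noncomputable def PN : Hm := exists_PN.choose

theorem NP_mem : NP ∈ P := exists_NP.choose_spec.1
theorem NP_1 {x : ℝ} (h : x ≤ 0) : NP x = x - 2 := exists_NP.choose_spec.2.1 x h
theorem NP_2 {x : ℝ} (h : 0 ≤ x) (h' : x ≤ 3) : NP x = 2 * x - 2 :=
  exists_NP.choose_spec.2.2.1 x h h'
theorem NP_3 {x : ℝ} (h : 3 ≤ x) : NP x = x + 1 := exists_NP.choose_spec.2.2.2 x h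
theorem PN_mem : PN ∈ P := exists_PN.choose_spec.1
theorem PN_1 {x : ℝ} (h : x ≤ 0) : PN x = x + 1 := exists_PN.choose_spec.2.1 x h
theorem PN_2 {x : ℝ} (h : 0 ≤ x) (h' : x ≤ 6) : PN x = x / 2 + 1 :=
  exists_PN.choose_spec.2.2.1 x h h'
theorem PN_3 {x : ℝ} (h : 6 ≤ x) : PN x = x - 2 := exists_PN.choose_spec.2.2.2 x h

theorem NP_gt {x ι : ℝ} (h0 : 0 ≤ ι) (h1 : ι ≤ 1) (h : 2 - ι < x) : x < NP x + ι := by
  rcases le_total x 3 with h3 | h3
  · rw [NP_2 (by linarith) h3]; linarith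
  · rw [NP_3 h3]; linarith

theorem NP_lt {x ι : ℝ} (h1 : ι ≤ 1) (h : x < 2 - ι) (h0 : 0 ≤ ι) : NP x + ι < x := by
  rcases le_total x 0 with h3 | h3
  · rw [NP_1 h3]; linarith
  · rw [NP_2 h3 (by linarith)]; linarith

theorem PN_gt {x ι : ℝ} (h0 : 0 ≤ ι) (h1 : ι ≤ 1) (h : x < 2 + 2 * ι) : x < PN x + ι := by
  rcases le_total x 0 with h3 | h3
  · rw [PN_1 h3]; linarith
  · rw [PN_2 h3 (by linarith)]; linarith

theorem PN_lt {x ι : ℝ} (h0 : 0 ≤ ι) (h1 : ι ≤ 1) (h : 2 + 2 * ι < x) : PN x + ι < x := by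
  rcases le_total x 6 with h3 | h3
  · rw [PN_2 (by linarith) h3]; linarith
  · rw [PN_3 h3]; linarith

/-- the template of block `k` -/
noncomputable def Lam (k : ℤ) : Hm :=
  if k % 4 = 0 then NP else if k % 4 = 1 then tr 1 else if k % 4 = 2 then PN else tr (-2)

theorem Lam_0 {k : ℤ} (h : k % 4 = 0) : Lam k = NP := by unfold Lam; rw [if_pos h]
theorem Lam_1 {k : ℤ} (h : k % 4 = 1) : Lam k = tr 1 := by
  unfold Lam; rw [if_neg (by omega), if_pos h]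
theorem Lam_2 {k : ℤ} (h : k % 4 = 2) : Lam k = PN := by
  unfold Lam; rw [if_neg (by omega), if_neg (by omega), if_pos h]
theorem Lam_3 {k : ℤ} (h : k % 4 = 3) : Lam k = tr (-2) := by
  unfold Lam; rw [if_neg (by omega), if_neg (by omega), if_neg (by omega)]

theorem mod4 (k : ℤ) : k % 4 = 0 ∨ k % 4 = 1 ∨ k % 4 = 2 ∨ k % 4 = 3 := by omega

theorem Lam_mem (k : ℤ) : Lam k ∈ P := by
  rcases mod4 k with h | h | h | h
  · rw [Lam_0 h]; exact NP_mem
  · rw [Lam_1 h]; exact tr_mem _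
  · rw [Lam_2 h]; exact PN_mem
  · rw [Lam_3 h]; exact tr_mem _

theorem Lam_hi_pos {k : ℤ} (h : k % 4 = 0 ∨ k % 4 = 1) : Lam k 371 = 372 := by
  rcases h with h | h
  · rw [Lam_0 h, NP_3 (by norm_num)]; norm_num
  · rw [Lam_1 h, tr_apply]; norm_num

theorem Lam_hi_neg {k : ℤ} (h : k % 4 = 2 ∨ k % 4 = 3) : Lam k 371 = 369 := by
  rcases h with h | h
  · rw [Lam_2 h, PN_3 (by norm_num)]; norm_num
  · rw [Lam_3 h, tr_apply]; norm_num

theorem Lam_lo_pos {k : ℤ} (h : k % 4 = 1 ∨ k % 4 = 2) : Lam k (-5) = -4 := by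
  rcases h with h | h
  · rw [Lam_1 h, tr_apply]; norm_num
  · rw [Lam_2 h, PN_1 (by norm_num)]; norm_num

theorem Lam_lo_neg {k : ℤ} (h : k % 4 = 0 ∨ k % 4 = 3) : Lam k (-5) = -7 := by
  rcases h with h | h
  · rw [Lam_0 h, NP_1 (by norm_num)]; norm_num
  · rw [Lam_3 h, tr_apply]; norm_num

theorem Lam_lo (k : ℤ) : -7 ≤ Lam k (-5) := by
  rcases mod4 k with h | h | h | h
  · rw [Lam_lo_neg (Or.inl h)]
  · rw [Lam_lo_pos (Or.inl h)]; norm_num
  · rw [Lam_lo_pos (Or.inr h)]; norm_num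
  · rw [Lam_lo_neg (Or.inr h)]

theorem Lam_hi (k : ℤ) : Lam k 371 ≤ 372 := by
  rcases mod4 k with h | h | h | h
  · rw [Lam_hi_pos (Or.inl h)]
  · rw [Lam_hi_pos (Or.inr h)]
  · rw [Lam_hi_neg (Or.inl h)]; norm_num
  · rw [Lam_hi_neg (Or.inr h)]; norm_num

theorem Lam_range (k : ℤ) {x : ℝ} (h : -5 ≤ x) (h' : x ≤ 371) :
    -7 ≤ Lam k x ∧ Lam k x ≤ 372 :=
  ⟨(Lam_lo k).trans ((Lam k).monotone h), ((Lam k).monotone h').trans (Lam_hi k)⟩

theorem gap_pos {f : Hm} {u v α β : ℝ} (huv : u < v) (hαβ : α < β) (h1 : u < α)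
    (h2 : u < f α) (h3 : v < β) (h4 : v < f β) :
    ∃ g ∈ P, g u = α ∧ g v = β ∧ ∀ x, u ≤ x → x ≤ v → x < g x ∧ x < f (g x) := by
  have h4' : f⁻¹ v < β := by rw [← f.lt_iff_lt, RelIso.apply_inv_self]; exact h4
  obtain ⟨γ, hγ, hγ'⟩ : ∃ γ, max (max α v) (f⁻¹ v) < γ ∧ γ < β :=
    exists_between (by rw [max_lt_iff, max_lt_iff]; exact ⟨⟨hαβ, h3⟩, h4'⟩)
  rw [max_lt_iff, max_lt_iff] at hγ
  obtain ⟨⟨g1, g2⟩, g3⟩ := hγ
  have g3' : v < f γ := by rw [← RelIso.apply_inv_self f v]; exact f.strictMono g3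
  obtain ⟨w, hw, hw'⟩ : ∃ w, u < w ∧ w < min v (min α (f α)) :=
    exists_between (by rw [lt_min_iff, lt_min_iff]; exact ⟨huv, h1, h2⟩)
  rw [lt_min_iff, lt_min_iff] at hw'
  obtain ⟨w1, w2, w3⟩ := hw'
  obtain ⟨a1, b1, ha1, e1, e1'⟩ := exists_aff hw g1
  obtain ⟨a2, b2, ha2, e2, e2'⟩ := exists_aff w1 hγ'
  obtain ⟨g, hg, k1, k2⟩ := exists_glue (aff_mem a1 b1 ha1) (aff_mem a2 b2 ha2) (c := w)
    (by rw [e1', e2])
  have gu : g u = α := by rw [k1 u hw.le, e1]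
  have gw : g w = γ := by rw [k1 w le_rfl, e1']
  refine ⟨g, hg, gu, by rw [k2 v w1.le, e2'], fun x hx hx' => ?_⟩
  rcases le_total x w with h | h
  · have : α ≤ g x := by rw [← gu]; exact g.monotone hx
    have h5 : f α ≤ f (g x) := f.monotone this
    constructor <;> linarith
  · have : γ ≤ g x := by rw [← gw]; exact g.monotone h
    have h5 : f γ ≤ f (g x) := f.monotone this
    constructor <;> linarith

theorem gap_neg {f : Hm} {u v α β : ℝ} (huv : u < v) (hαβ : α < β) (h1 : α < u)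
    (h2 : f α < u) (h3 : β < v) (h4 : f β < v) :
    ∃ g ∈ P, g u = α ∧ g v = β ∧ ∀ x, u ≤ x → x ≤ v → g x < x ∧ f (g x) < x := by
  obtain ⟨g, hg, g1, g2, g3⟩ := gap_pos (f := rf f) (u := -v) (v := -u) (α := -β) (β := -α)
    (by linarith) (by linarith) (by linarith) (by rw [rf_apply, neg_neg]; linarith)
    (by linarith) (by rw [rf_apply, neg_neg]; linarith)
  refine ⟨rf g, rf_mem hg, by rw [rf_apply, g2, neg_neg], by rw [rf_apply, g1, neg_neg],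
    fun x hx hx' => ?_⟩
  have := g3 (-x) (by linarith) (by linarith)
  rw [rf_apply] at this
  rw [rf_apply]
  constructor <;> linarith [this.1, this.2]

/-- a rough flow -/
structure Flow (χ : ℤ → Hm) (ι : ℤ → ℝ) (t : Hm) : Prop where
  mem : t ∈ P
  blk : ∀ k x, (χ k)⁻¹ (-5) ≤ x → x ≤ (χ k)⁻¹ 371 → t x = (χ k)⁻¹ (Lam k (χ k x) + ι k)
  gp : ∀ k, (k % 4 = 0 ∨ k % 4 = 1) → ∀ x, (χ k)⁻¹ 371 ≤ x → x ≤ (χ (k + 1))⁻¹ (-5) → x < t x
  gn : ∀ k, (k % 4 = 2 ∨ k % 4 = 3) → ∀ x, (χ k)⁻¹ 371 ≤ x → x ≤ (χ (k + 1))⁻¹ (-5) → t x < x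

theorem Blk.i01 {f χ : Hm} {i j : ℝ} (h : Blk f χ i j) : 0 ≤ i ∧ i ≤ 1 ∧ 0 ≤ j ∧ j ≤ 1 := by
  rcases h.ij with ⟨rfl, rfl⟩ | ⟨rfl, rfl⟩ | ⟨rfl, rfl⟩ <;> norm_num

theorem Blk.f_inv {f χ : Hm} {i j : ℝ} (h : Blk f χ i j) {y : ℝ} (h1 : -8 ≤ y)
    (h2 : y ≤ 380) : f (χ⁻¹ y) = χ⁻¹ (y + (j - i)) := by
  rw [← χ.injective.eq_iff, h.eq _ (by rw [RelIso.apply_inv_self]; exact h1)
    (by rw [RelIso.apply_inv_self]; exact h2), RelIso.apply_inv_self, RelIso.apply_inv_self]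

theorem exists_flow {f : Hm} {χ : ℤ → Hm} {i j : ℤ → ℝ} (hf : f ∈ P) (B : BSeq f χ i j) :
    ∃ s, Flow χ i s ∧ Flow χ j (f * s) := by
  have hinvm : ∀ k, StrictMono ((χ k)⁻¹ : Hm) := fun k => ((χ k)⁻¹).strictMono
  -- gap pieces
  have hgap : ∀ k : ℤ, ∃ g ∈ P, g ((χ k)⁻¹ 371) = (χ k)⁻¹ (Lam k 371 + i k) ∧
      g ((χ (k + 1))⁻¹ (-5)) = (χ (k + 1))⁻¹ (Lam (k + 1) (-5) + i (k + 1)) ∧
      ((k % 4 = 0 ∨ k % 4 = 1) → ∀ x, (χ k)⁻¹ 371 ≤ x → x ≤ (χ (k + 1))⁻¹ (-5) →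
        x < g x ∧ x < f (g x)) ∧
      ((k % 4 = 2 ∨ k % 4 = 3) → ∀ x, (χ k)⁻¹ 371 ≤ x → x ≤ (χ (k + 1))⁻¹ (-5) →
        g x < x ∧ f (g x) < x) := by
    intro k
    have b := B.blk k
    have b' := B.blk (k + 1)
    obtain ⟨i0, i1, j0, j1⟩ := b.i01
    obtain ⟨i0', i1', j0', j1'⟩ := b'.i01
    have sep := B.sep k
    have huv : (χ k)⁻¹ 371 < (χ (k + 1))⁻¹ (-5) :=
      (hinvm k (by norm_num : (371 : ℝ) < 380)).trans (sep.trans (hinvm (k + 1) (by norm_num)))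
    have hle1 : (χ k)⁻¹ (Lam k 371 + i k) ≤ (χ k)⁻¹ 380 :=
      (hinvm k).monotone (by have := Lam_hi k; linarith)
    have hle2 : (χ (k + 1))⁻¹ (-8) ≤ (χ (k + 1))⁻¹ (Lam (k + 1) (-5) + i (k + 1)) :=
      (hinvm (k + 1)).monotone (by have := Lam_lo (k + 1); linarith)
    rcases (by omega : (k % 4 = 0 ∨ k % 4 = 1) ∨ (k % 4 = 2 ∨ k % 4 = 3)) with hk | hk
    · have c1 := Lam_hi_pos hk
      have c2 := Lam_lo_pos (k := k + 1) (by omega)
      obtain ⟨g, hg, g1, g2, g3⟩ := gap_pos (f := f) huv (hle1.trans_lt (sep.trans_le hle2))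
        (by rw [c1]; exact hinvm k (by linarith))
        (by
          rw [c1, b.f_inv (by linarith) (by linarith)]
          exact hinvm k (by linarith))
        (by rw [c2]; exact hinvm (k + 1) (by linarith))
        (by
          rw [c2, b'.f_inv (by linarith) (by linarith)]
          exact hinvm (k + 1) (by linarith))
      exact ⟨g, hg, g1, g2, fun _ => g3, fun h => by omega⟩
    · have c1 := Lam_hi_neg hk
      have c2 := Lam_lo_neg (k := k + 1) (by omega)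
      obtain ⟨g, hg, g1, g2, g3⟩ := gap_neg (f := f) huv (hle1.trans_lt (sep.trans_le hle2))
        (by rw [c1]; exact hinvm k (by linarith))
        (by
          rw [c1, b.f_inv (by linarith) (by linarith)]
          exact hinvm k (by linarith))
        (by rw [c2]; exact hinvm (k + 1) (by linarith))
        (by
          rw [c2, b'.f_inv (by linarith) (by linarith)]
          exact hinvm (k + 1) (by linarith))
      exact ⟨g, hg, g1, g2, fun h => by omega, fun _ => g3⟩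
  choose G hG G1 G2 G3 G4 using hgap
  -- pieces
  have hM : ∀ k, ((χ k)⁻¹ * (tr (i k) * Lam k) * χ k) ∈ P := fun k =>
    P.mul_mem (P.mul_mem (P.inv_mem (B.blk k).mem) (P.mul_mem (tr_mem _) (Lam_mem k)))
      (B.blk k).mem
  have hMx : ∀ k x, ((χ k)⁻¹ * (tr (i k) * Lam k) * χ k) x =
      (χ k)⁻¹ (Lam k (χ k x) + i k) := fun k x => by
    simp only [RelIso.mul_apply, tr_apply]
  have hpiece : ∀ k, ∃ h ∈ P, (∀ x, x ≤ (χ k)⁻¹ 371 → h x = (χ k)⁻¹ (Lam k (χ k x) + i k)) ∧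
      ∀ x, (χ k)⁻¹ 371 ≤ x → h x = G k x := by
    intro k
    obtain ⟨h, hh, h1, h2⟩ := exists_glue (hM k) (hG k) (c := (χ k)⁻¹ 371)
      (by rw [hMx, G1, RelIso.apply_inv_self])
    exact ⟨h, hh, fun x hx => by rw [h1 x hx, hMx], h2⟩
  choose h hh h1 h2 using hpiece
  have hc : StrictMono (fun k => (χ k)⁻¹ (-5)) := by
    apply strictMono_int_of_lt_succ
    intro k
    exact (hinvm k (by norm_num : (-5 : ℝ) < 380)).trans
      ((B.sep k).trans (hinvm (k + 1) (by norm_num)))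
  have hct : Tendsto (fun k => (χ k)⁻¹ (-5)) atTop atTop :=
    tendsto_atTop_mono (fun k => (hinvm k).monotone (by norm_num)) B.top
  have hcb : Tendsto (fun k => (χ k)⁻¹ (-5)) atBot atBot :=
    tendsto_atBot_mono (fun k => (hinvm k).monotone (by norm_num)) B.bot
  have hd : ∀ k, h k ((χ k)⁻¹ (-5)) = (χ k)⁻¹ (Lam k (-5) + i k) := by
    intro k
    rw [h1 k _ ((hinvm k).monotone (by norm_num)), RelIso.apply_inv_self]
  have hgap' : ∀ k, (χ k)⁻¹ 371 ≤ (χ (k + 1))⁻¹ (-5) := fun k =>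
    ((hinvm k (by norm_num : (371 : ℝ) < 380)).trans
      ((B.sep k).trans (hinvm (k + 1) (by norm_num)))).le
  obtain ⟨s, hs, hs'⟩ := exists_glueZ hc hcb hct hh
    (fun k => by rw [h2 k _ (hgap' k), G2, hd])
    (by
      refine tendsto_atBot_mono (fun k => ?_) B.bot
      rw [hd]
      exact (hinvm k).monotone (by
        have h5 := (Lam_range k (le_refl (-5 : ℝ)) (by norm_num)).2
        have := (B.blk k).i01; linarith [this.2.1]))
    (by
      refine tendsto_atTop_mono (fun k => ?_) B.top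
      rw [hd]
      exact (hinvm k).monotone (by
        have := Lam_lo k
        have := (B.blk k).i01; linarith [this.1]))
  have sblk : ∀ k x, (χ k)⁻¹ (-5) ≤ x → x ≤ (χ k)⁻¹ 371 →
      s x = (χ k)⁻¹ (Lam k (χ k x) + i k) := by
    intro k x hx hx'
    rw [hs' k x hx (hx'.trans (hgap' k)), h1 k x hx']
  have sgap : ∀ k x, (χ k)⁻¹ 371 ≤ x → x ≤ (χ (k + 1))⁻¹ (-5) → s x = G k x := by
    intro k x hx hx'
    rw [hs' k x (((hinvm k).monotone (by norm_num)).trans hx) hx', h2 k x hx]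
  refine ⟨s, ⟨hs, sblk, ?_, ?_⟩, ⟨P.mul_mem hf hs, ?_, ?_, ?_⟩⟩
  · intro k hk x hx hx'
    rw [sgap k x hx hx']; exact (G3 k hk x hx hx').1
  · intro k hk x hx hx'
    rw [sgap k x hx hx']; exact (G4 k hk x hx hx').1
  · intro k x hx hx'
    have hy1 : -5 ≤ χ k x := by
      have := (χ k).monotone hx; rwa [RelIso.apply_inv_self] at this
    have hy2 : χ k x ≤ 371 := by
      have := (χ k).monotone hx'; rwa [RelIso.apply_inv_self] at this
    obtain ⟨i0, i1, j0, j1⟩ := (B.blk k).i01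
    have hr := Lam_range k hy1 hy2
    rw [RelIso.mul_apply, sblk k x hx hx', (B.blk k).f_inv (by linarith) (by linarith)]
    congr 1; ring
  · intro k hk x hx hx'
    rw [RelIso.mul_apply, sgap k x hx hx']; exact (G3 k hk x hx hx').2
  · intro k hk x hx hx'
    rw [RelIso.mul_apply, sgap k x hx hx']; exact (G4 k hk x hx hx').2

end Pool.Agent.H16.PLR
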