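import Pool.Agent.H16.PLR.Cell

/-! The model map, reflection, slopes, and the cell lemma in charts. -/

set_option autoImplicit false

open Set Filter Topology
open scoped commutatorElement

namespace Pool.Agent.H16.PLR

/-- conjugation by `x ↦ -x` -/
def rf (f : Hm) : Hm where
  toFun x := -f (-x)
  invFun y := -f⁻¹ (-y)
  left_inv x := by simp
  right_inv x := by simp
  map_rel_iff' := by
    intro x y
    simp only [Equiv.coe_fn_mk, neg_le_neg_iff, f.le_iff_le]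

@[simp] theorem rf_apply (f : Hm) (x : ℝ) : rf f x = -f (-x) := rfl

theorem rf_mul (f g : Hm) : rf (f * g) = rf f * rf g := by
  apply Hm.ext'; intro x; simp

theorem rf_one : rf 1 = 1 := by
  apply Hm.ext'; intro x; simp

theorem rf_inv (f : Hm) : rf f⁻¹ = (rf f)⁻¹ := by
  rw [eq_inv_iff_mul_eq_one, ← rf_mul, inv_mul_cancel, rf_one]

theorem rf_rf (f : Hm) : rf (rf f) = f := by
  apply Hm.ext'; intro x; simp

theorem tendsto_neg_ge (x : ℝ) : Tendsto (fun t : ℝ => -t) (𝓝[≥] x) (𝓝[≤] (-x)) := by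
  apply tendsto_nhdsWithin_of_tendsto_nhds_of_eventually_within
  · exact (continuous_neg.tendsto x).mono_left nhdsWithin_le_nhds
  · filter_upwards [self_mem_nhdsWithin] with t ht
    exact neg_le_neg (mem_Ici.1 ht)

theorem tendsto_neg_le (x : ℝ) : Tendsto (fun t : ℝ => -t) (𝓝[≤] x) (𝓝[≥] (-x)) := by
  apply tendsto_nhdsWithin_of_tendsto_nhds_of_eventually_within
  · exact (continuous_neg.tendsto x).mono_left nhdsWithin_le_nhds
  · filter_upwards [self_mem_nhdsWithin] with t ht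
    exact neg_le_neg (mem_Iic.1 ht)

theorem rf_mem {f : Hm} (hf : f ∈ P) : rf f ∈ P := by
  intro x
  constructor
  · obtain ⟨a, b, h⟩ := (hf (-x)).2
    refine ⟨a, -b, ?_⟩
    filter_upwards [(tendsto_neg_ge x).eventually h] with t ht
    rw [rf_apply, ht]; ring
  · obtain ⟨a, b, h⟩ := (hf (-x)).1
    refine ⟨a, -b, ?_⟩
    filter_upwards [(tendsto_neg_le x).eventually h] with t ht
    rw [rf_apply, ht]; ring

theorem rf_PS {u v : ℝ} {f : Hm} (hf : f ∈ PS u v) : rf f ∈ PS (-v) (-u) := by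
  refine ⟨rf_mem hf.1, fun x hx => ?_, fun x hx => ?_⟩
  · rw [rf_apply, hf.2.2 _ (by linarith)]; ring
  · rw [rf_apply, hf.2.1 _ (by linarith)]; ring

/-- right slope at a fixed point -/
def SlR (t : Hm) (p σ : ℝ) : Prop := ∀ᶠ x in 𝓝[≥] p, t x = p + σ * (x - p)
/-- left slope at a fixed point -/
def SlL (t : Hm) (p σ : ℝ) : Prop := ∀ᶠ x in 𝓝[≤] p, t x = p + σ * (x - p)

theorem SlR.rf {t : Hm} {p σ : ℝ} (h : SlR t p σ) : SlL (rf t) (-p) σ := by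
  have h1 := tendsto_neg_le (-p)
  rw [neg_neg] at h1
  unfold SlL
  filter_upwards [h1.eventually h] with x hx
  rw [rf_apply, hx]; ring

theorem SlL.rf {t : Hm} {p σ : ℝ} (h : SlL t p σ) : SlR (rf t) (-p) σ := by
  have h1 := tendsto_neg_ge (-p)
  rw [neg_neg] at h1
  unfold SlR
  filter_upwards [h1.eventually h] with x hx
  rw [rf_apply, hx]; ring

theorem SlR.conj {t χ : Hm} {p σ : ℝ} (hχ : χ ∈ P) (htp : t p = p) (h : SlR t p σ) :
    SlR (χ * t * χ⁻¹) (χ p) σ := by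
  obtain ⟨a, b, hab⟩ := (hχ p).1
  have h1 := Hm.tendsto_ge (χ⁻¹ : Hm) (χ p)
  rw [RelIso.inv_apply_self] at h1
  have h2 := Hm.tendsto_ge t p
  rw [htp] at h2
  have hp := hab.self_of_nhdsWithin (mem_Ici.2 le_rfl)
  unfold SlR at h ⊢
  filter_upwards [h1.eventually h, h1.eventually hab, h1.eventually (h2.eventually hab)]
    with y e1 e2 e3
  rw [RelIso.apply_inv_self] at e2
  simp only [RelIso.mul_apply]
  rw [e3, e1, hp]
  linear_combination -σ * e2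

theorem SlL.conj {t χ : Hm} {p σ : ℝ} (hχ : χ ∈ P) (htp : t p = p) (h : SlL t p σ) :
    SlL (χ * t * χ⁻¹) (χ p) σ := by
  obtain ⟨a, b, hab⟩ := (hχ p).2
  have h1 := Hm.tendsto_le (χ⁻¹ : Hm) (χ p)
  rw [RelIso.inv_apply_self] at h1
  have h2 := Hm.tendsto_le t p
  rw [htp] at h2
  have hp := hab.self_of_nhdsWithin (mem_Iic.2 le_rfl)
  unfold SlL at h ⊢
  filter_upwards [h1.eventually h, h1.eventually hab, h1.eventually (h2.eventually hab)]
    with y e1 e2 e3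
  rw [RelIso.apply_inv_self] at e2
  simp only [RelIso.mul_apply]
  rw [e3, e1, hp]
  linear_combination -σ * e2

theorem eventually_ge_iff {p : ℝ} {Q : ℝ → Prop} (h : ∀ᶠ x in 𝓝[≥] p, Q x) :
    ∃ δ > 0, ∀ x, p ≤ x → x ≤ p + δ → Q x := by
  rw [eventually_nhdsWithin_iff, Metric.eventually_nhds_iff] at h
  obtain ⟨e, he, h⟩ := h
  refine ⟨e / 2, half_pos he, fun t ht ht' => h ?_ ht⟩
  rw [Real.dist_eq, abs_of_nonneg (by linarith)]; linarith

theorem eventually_le_iff {p : ℝ} {Q : ℝ → Prop} (h : ∀ᶠ x in 𝓝[≤] p, Q x) :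
    ∃ δ > 0, ∀ x, p - δ ≤ x → x ≤ p → Q x := by
  rw [eventually_nhdsWithin_iff, Metric.eventually_nhds_iff] at h
  obtain ⟨e, he, h⟩ := h
  refine ⟨e / 2, half_pos he, fun t ht ht' => h ?_ ht'⟩
  rw [Real.dist_eq, abs_of_nonpos (by linarith)]; linarith

theorem exists_s0 : ∃ s₀ ∈ P, (∀ x, s₀ (x + 2) = s₀ x + 2) ∧
    (∀ x, -1 ≤ x → x ≤ -(1 / 3) → s₀ x = x / 2 - 1 / 2) ∧
    (∀ x, -(1 / 3) ≤ x → x ≤ 1 / 3 → s₀ x = 2 * x) ∧
    (∀ x, 1 / 3 ≤ x → x ≤ 1 → s₀ x = x / 2 + 1 / 2) := by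
  obtain ⟨k1, hk1, k11, k12⟩ := exists_glue (aff_mem (1 / 2) (-(1 / 2)) (by norm_num))
    (aff_mem 2 0 two_pos) (c := -(1 / 3)) (by simp only [aff_apply]; norm_num)
  obtain ⟨k2, hk2, k21, k22⟩ := exists_glue hk1
    (aff_mem (1 / 2) (1 / 2) (by norm_num)) (c := 1 / 3)
    (by rw [k12 _ (by norm_num)]; simp only [aff_apply]; norm_num)
  obtain ⟨s₀, hs₀, h1, h2⟩ := exists_per hk2 (two_pos : (0 : ℝ) < 2) (e := -1)
    (by rw [k21 _ (by norm_num), k11 _ (by norm_num)]; simp only [aff_apply]; norm_num)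
    (by rw [k22 _ (by norm_num)]; simp only [aff_apply]; norm_num)
  refine ⟨s₀, hs₀, h2, fun x hx hx' => ?_, fun x hx hx' => ?_, fun x hx hx' => ?_⟩
  · rw [h1 x (by linarith) (by linarith), k21 _ (by linarith), k11 _ (by linarith)]
    simp only [aff_apply]; ring
  · rw [h1 x (by linarith) (by linarith), k21 _ (by linarith), k12 _ (by linarith)]
    simp only [aff_apply]; ring
  · rw [h1 x (by linarith) (by linarith), k22 _ (by linarith)]
    simp only [aff_apply]; ring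

/-- the model map -/
noncomputable def s0 : Hm := exists_s0.choose

theorem s0_mem : s0 ∈ P := exists_s0.choose_spec.1
theorem s0_add (x : ℝ) : s0 (x + 2) = s0 x + 2 := exists_s0.choose_spec.2.1 x
theorem s0_1 {x : ℝ} (h : -1 ≤ x) (h' : x ≤ -(1 / 3)) : s0 x = x / 2 - 1 / 2 :=
  exists_s0.choose_spec.2.2.1 x h h'
theorem s0_2 {x : ℝ} (h : -(1 / 3) ≤ x) (h' : x ≤ 1 / 3) : s0 x = 2 * x :=
  exists_s0.choose_spec.2.2.2.1 x h h'
theorem s0_3 {x : ℝ} (h : 1 / 3 ≤ x) (h' : x ≤ 1) : s0 x = x / 2 + 1 / 2 :=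
  exists_s0.choose_spec.2.2.2.2 x h h'

theorem s0_zadd (x : ℝ) (n : ℤ) : s0 (x + n * 2) = s0 x + n * 2 := per_zmul s0_add n x

theorem s0_4 {x : ℝ} (h : 1 / 3 ≤ x) (h' : x ≤ 5 / 3) : s0 x = x / 2 + 1 / 2 := by
  rcases le_total x 1 with hx | hx
  · exact s0_3 h hx
  · have := s0_add (x - 2)
    rw [sub_add_cancel, s0_1 (x := x - 2) (by linarith) (by linarith)] at this
    rw [this]; ring

theorem s0_5 {x : ℝ} (h : 5 / 3 ≤ x) (h' : x ≤ 7 / 3) : s0 x = 2 * x - 2 := by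
  have := s0_add (x - 2)
  rw [sub_add_cancel, s0_2 (x := x - 2) (by linarith) (by linarith)] at this
  rw [this]; ring

theorem s0_rev (x : ℝ) : s0 (s0 x + 1) = x + 1 := by
  obtain ⟨n, h1, h2⟩ := exists_int_shift (two_pos : (0 : ℝ) < 2) (-1) x
  have key : ∀ y : ℝ, -1 ≤ y → y ≤ 1 → s0 (s0 y + 1) = y + 1 := by
    intro y hy hy'
    rcases le_total y (-(1 / 3)) with h | h
    · rw [s0_1 hy h, s0_2 (by linarith) (by linarith)]; ring
    rcases le_total y (1 / 3) with h' | h'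
    · rw [s0_2 h h', s0_4 (by linarith) (by linarith)]; ring
    · rw [s0_3 h' hy', s0_5 (by linarith) (by linarith)]; ring
  have := key _ h1 (by linarith)
  rw [s0_zadd] at this
  have e : s0 x + (n : ℝ) * 2 + 1 = s0 x + 1 + n * 2 := by ring
  rw [e, s0_zadd] at this
  linarith

theorem s0_odd (x : ℝ) : s0 (-x) = -s0 x := by
  obtain ⟨n, h1, h2⟩ := exists_int_shift (two_pos : (0 : ℝ) < 2) (-1) x
  have key : ∀ y : ℝ, -1 ≤ y → y ≤ 1 → s0 (-y) = -s0 y := by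
    intro y hy hy'
    rcases le_total y (-(1 / 3)) with h | h
    · rw [s0_1 hy h, s0_3 (by linarith) (by linarith)]; ring
    rcases le_total y (1 / 3) with h' | h'
    · rw [s0_2 h h', s0_2 (by linarith) (by linarith)]; ring
    · rw [s0_3 h' hy', s0_1 (by linarith) (by linarith)]; ring
  have := key _ h1 (by linarith)
  have e : -(x + (n : ℝ) * 2) = -x + ((-n : ℤ) : ℝ) * 2 := by push_cast; ring
  rw [e, s0_zadd, s0_zadd] at this
  push_cast at this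
  linarith

theorem s0_zero : s0 0 = 0 := by rw [s0_2 (by norm_num) (by norm_num)]; ring
theorem s0_one : s0 1 = 1 := by rw [s0_3 (by norm_num) (by norm_num)]; ring

theorem s0_gt {x : ℝ} (h : 0 < x) (h' : x < 1) : x < s0 x := by
  rcases le_total x (1 / 3) with h1 | h1
  · rw [s0_2 (by linarith) h1]; linarith
  · rw [s0_3 h1 h'.le]; linarith

/-- the standard bump on `[p, q]` -/
theorem exists_bump {p q : ℝ} (h : p < q) : ∃ a ∈ P, ∃ B ∈ P, a p = p ∧ a q = q ∧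
    (∀ x, p < x → x < q → x < a x) ∧ B p = 0 ∧ B q = 1 ∧
    (∀ x, p ≤ x → x ≤ q → B (a x) = s0 (B x)) ∧
    (∀ x, p ≤ x → x ≤ p + (q - p) / 3 → a x = p + 2 * (x - p)) ∧
    (∀ x, q - (q - p) / 3 ≤ x → x ≤ q → a x = q + 1 / 2 * (x - q)) := by
  obtain ⟨α, β, hα, e1, e2⟩ := exists_aff h one_pos
  have hB := aff_mem α β hα
  simp only [aff_apply] at e1 e2
  have eα : α * (q - p) = 1 := by linarith
  have hBx : ∀ x, (aff α β hα) x = α * (x - p) := by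
    intro x; simp only [aff_apply]; linarith
  obtain ⟨a, ha, ha'⟩ := exists_restr (g := (aff α β hα)⁻¹ * s0 * aff α β hα)
    (P.mul_mem (P.mul_mem (P.inv_mem hB) s0_mem) hB) (u := p) (v := q) h.le
    (by
      rw [RelIso.mul_apply, RelIso.mul_apply, aff_apply, e1, s0_zero,
        ← (aff α β hα).injective.eq_iff, RelIso.apply_inv_self, aff_apply, e1])
    (by
      rw [RelIso.mul_apply, RelIso.mul_apply, aff_apply, e2, s0_one,
        ← (aff α β hα).injective.eq_iff, RelIso.apply_inv_self, aff_apply, e2])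
  have hint : ∀ x, p ≤ x → x ≤ q → (aff α β hα) (a x) = s0 (aff α β hα x) := by
    intro x hx hx'
    rw [ha' x hx hx', RelIso.mul_apply, RelIso.mul_apply, RelIso.apply_inv_self]
  refine ⟨a, ha.1, aff α β hα, hB, PS_left ha, PS_right ha, ?_, by rw [aff_apply, e1],
    by rw [aff_apply, e2], hint, ?_, ?_⟩
  · intro x hx hx'
    rw [← (aff α β hα).lt_iff_lt, hint x hx.le hx'.le]
    apply s0_gt
    · rw [hBx]; exact mul_pos hα (by linarith)
    · rw [hBx, ← eα]; exact mul_lt_mul_of_pos_left (by linarith) hα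
  · intro x hx hx'
    have h1 := hint x hx (by linarith)
    rw [s0_2 (by rw [hBx]; nlinarith) (by rw [hBx]; nlinarith), hBx, hBx] at h1
    have h2 : α * (a x - p - 2 * (x - p)) = 0 := by linarith
    rcases mul_eq_zero.1 h2 with h3 | h3 <;> linarith
  · intro x hx hx'
    have h1 := hint x (by linarith) hx'
    rw [s0_3 (by rw [hBx]; nlinarith) (by rw [hBx]; nlinarith), hBx, hBx] at h1
    have h2 : α * (a x - q - 1 / 2 * (x - q)) = 0 := by linarith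
    rcases mul_eq_zero.1 h2 with h3 | h3 <;> linarith

/-- a positive cell -/
structure PosCell (t : Hm) (p q : ℝ) : Prop where
  mem : t ∈ P
  pq : p < q
  tp : t p = p
  tq : t q = q
  tgt : ∀ x, p < x → x < q → x < t x
  slp : SlR t p 2
  slq : SlL t q (1 / 2)

/-- `t` restricted to the cell `[p,q]` is the standard bump over `[n, n+1]` -/
def IsStd (t : Hm) (p q n : ℝ) : Prop :=
  ∃ g ∈ P, g p = n ∧ g q = n + 1 ∧ ∀ x, p ≤ x → x ≤ q → g (t x) = s0 (g x)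

theorem PosCell.main {t : Hm} {p q i : ℝ} (h : PosCell t p q) (hi : 1 ≤ i) (hi2 : i ≤ 2)
    (hz : ∀ x, -4 ≤ x → x ≤ 370 → t x = x + i) (hp : p < -4) (hq : 370 < q) :
    ∃ c ∈ TT i, ∀ (j : ℤ) (K : Hm), K ∈ PS 0 364 → Dev i 364 K (c * tr (j * i)) →
      IsStd (t * K) p q 0 := by
  obtain ⟨a, ha, B, hB, ap, aq, agt, Bp, Bq, hint, a1, a2⟩ := exists_bump h.pq
  obtain ⟨δ1, hδ1, h1⟩ := eventually_ge_iff h.slp
  obtain ⟨δ2, hδ2, h2⟩ := eventually_le_iff h.slq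
  obtain ⟨δ, hδ, hδm⟩ : ∃ δ, 0 < δ ∧ δ < min (min δ1 δ2) ((q - p) / 3) :=
    exists_between (by
      rw [lt_min_iff, lt_min_iff]
      exact ⟨⟨hδ1, hδ2⟩, by have := h.pq; linarith⟩)
  rw [lt_min_iff, lt_min_iff] at hδm
  obtain ⟨⟨m1, m2⟩, m3⟩ := hδm
  have D : CellD i 364 p q δ t a := by
    refine ⟨h.mem, ha, h.tp, h.tq, ap, aq, h.tgt, agt, hδ, fun x hx hx' => ?_,
      fun x hx hx' => ?_, fun x hx hx' => hz x hx (by linarith), hp, by linarith, hi, hi2,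
      by norm_num⟩
    · rw [h1 x hx (by linarith), a1 x hx (by linarith)]
    · rw [h2 x (by linarith) hx', a2 x (by linarith) hx']
  obtain ⟨c, hc, hmain⟩ := D.main
  refine ⟨c, hc, fun j K hK hDev => ?_⟩
  obtain ⟨g, hg, g1, g2, g3⟩ := hmain j K hK hDev
  refine ⟨B * g, P.mul_mem hB hg, ?_, ?_, fun x hx hx' => ?_⟩
  · rw [RelIso.mul_apply, g1, Bp]
  · rw [RelIso.mul_apply, g2, Bq]; norm_num
  · have : p ≤ g x ∧ g x ≤ q := by
      constructor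
      · calc p = g p := g1.symm
          _ ≤ _ := g.monotone hx
      · calc g x ≤ g q := g.monotone hx'
          _ = q := g2
    rw [RelIso.mul_apply, RelIso.mul_apply, RelIso.mul_apply, g3 x hx hx',
      hint _ this.1 this.2]

/-- both flows can be corrected simultaneously, normalised chart -/
theorem two_cells_norm {t₁ t₂ : Hm} {p₁ q₁ p₂ q₂ : ℝ} (h₁ : PosCell t₁ p₁ q₁)
    (h₂ : PosCell t₂ p₂ q₂) (hz₁ : ∀ x, -4 ≤ x → x ≤ 370 → t₁ x = x + 1)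
    (hz₂ : ∀ x, -4 ≤ x → x ≤ 370 → t₂ x = x + 2) (hp₁ : p₁ < -4) (hp₂ : p₂ < -4)
    (hq₁ : 370 < q₁) (hq₂ : 370 < q₂) :
    ∃ K ∈ PS 0 366, IsStd (t₁ * K) p₁ q₁ 0 ∧ IsStd (t₂ * K) p₂ q₂ 0 := by
  obtain ⟨c₁, hc₁, m₁⟩ := h₁.main le_rfl (by norm_num) hz₁ hp₁ hq₁
  obtain ⟨c₂, hc₂, m₂⟩ := h₂.main (by norm_num) le_rfl hz₂ hp₂ hq₂
  obtain ⟨j₁, j₂, -, -, K, hK, d₁, d₂⟩ := Pool.Agent.H16.PLR.zone hc₁ hc₂
  have e : (2 : ℝ) * (182 : ℕ) = 364 := by norm_num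
  rw [e] at hK d₁ d₂
  refine ⟨K, PS_mono le_rfl (by norm_num) hK, m₁ j₁ K hK ?_, m₂ j₂ K hK d₂⟩
  rw [mul_one]; exact d₁

theorem conj_IsStd {t χ : Hm} {p q n : ℝ} (hχ : χ ∈ P)
    (h : IsStd (χ * t * χ⁻¹) (χ p) (χ q) n) : IsStd t p q n := by
  obtain ⟨g, hg, g1, g2, g3⟩ := h
  refine ⟨g * χ, P.mul_mem hg hχ, g1, g2, fun x hx hx' => ?_⟩
  have := g3 (χ x) (χ.monotone hx) (χ.monotone hx')
  simp only [RelIso.mul_apply, RelIso.inv_apply_self] at this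
  exact this

theorem PosCell.conj {t χ : Hm} {p q : ℝ} (hχ : χ ∈ P) (h : PosCell t p q) :
    PosCell (χ * t * χ⁻¹) (χ p) (χ q) := by
  refine ⟨P.mul_mem (P.mul_mem hχ h.mem) (P.inv_mem hχ), χ.strictMono h.pq, ?_, ?_,
    fun x hx hx' => ?_, h.slp.conj hχ h.tp, h.slq.conj hχ h.tq⟩
  · simp only [RelIso.mul_apply, RelIso.inv_apply_self, h.tp]
  · simp only [RelIso.mul_apply, RelIso.inv_apply_self, h.tq]
  · have h1 : p < χ⁻¹ x := by rw [← χ.lt_iff_lt, RelIso.apply_inv_self]; exact hx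
    have h2 : χ⁻¹ x < q := by rw [← χ.lt_iff_lt, RelIso.apply_inv_self]; exact hx'
    have h3 := χ.strictMono (h.tgt _ h1 h2)
    rw [RelIso.apply_inv_self] at h3
    exact h3

/-- both flows can be corrected simultaneously -/
theorem two_cells {t₁ t₂ χ : Hm} {p₁ q₁ p₂ q₂ : ℝ} (hχ : χ ∈ P) (h₁ : PosCell t₁ p₁ q₁)
    (h₂ : PosCell t₂ p₂ q₂) (hz₁ : ∀ x, -4 ≤ χ x → χ x ≤ 370 → χ (t₁ x) = χ x + 1)
    (hz₂ : ∀ x, -4 ≤ χ x → χ x ≤ 370 → χ (t₂ x) = χ x + 2) (hp₁ : χ p₁ < -4)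
    (hp₂ : χ p₂ < -4) (hq₁ : 370 < χ q₁) (hq₂ : 370 < χ q₂) :
    ∃ K ∈ PS (χ⁻¹ 0) (χ⁻¹ 366), IsStd (t₁ * K) p₁ q₁ 0 ∧ IsStd (t₂ * K) p₂ q₂ 0 := by
  have conv : ∀ (t : Hm) (i : ℝ), (∀ x, -4 ≤ χ x → χ x ≤ 370 → χ (t x) = χ x + i) →
      ∀ x, -4 ≤ x → x ≤ 370 → (χ * t * χ⁻¹) x = x + i := by
    intro t i h x hx hx'
    have := h (χ⁻¹ x) (by rw [RelIso.apply_inv_self]; exact hx)
      (by rw [RelIso.apply_inv_self]; exact hx')
    rw [RelIso.apply_inv_self] at this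
    exact this
  obtain ⟨K, hK, s₁, s₂⟩ := two_cells_norm (h₁.conj hχ) (h₂.conj hχ) (conv t₁ 1 hz₁)
    (conv t₂ 2 hz₂) hp₁ hp₂ hq₁ hq₂
  refine ⟨χ⁻¹ * K * χ, ?_, ?_, ?_⟩
  · have := PS_conj hK (P.inv_mem hχ)
    rwa [inv_inv] at this
  · apply conj_IsStd hχ
    have e : χ * (t₁ * (χ⁻¹ * K * χ)) * χ⁻¹ = χ * t₁ * χ⁻¹ * K := by group
    rwa [e]
  · apply conj_IsStd hχ
    have e : χ * (t₂ * (χ⁻¹ * K * χ)) * χ⁻¹ = χ * t₂ * χ⁻¹ * K := by group
    rwa [e]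

/-- a negative cell -/
structure NegCell (t : Hm) (p q : ℝ) : Prop where
  mem : t ∈ P
  pq : p < q
  tp : t p = p
  tq : t q = q
  tlt : ∀ x, p < x → x < q → t x < x
  slp : SlR t p (1 / 2)
  slq : SlL t q 2

theorem NegCell.rf {t : Hm} {p q : ℝ} (h : NegCell t p q) : PosCell (rf t) (-q) (-p) := by
  refine ⟨rf_mem h.mem, by have := h.pq; linarith, ?_, ?_, fun x hx hx' => ?_, h.slq.rf,
    h.slp.rf⟩
  · rw [rf_apply, neg_neg, h.tq]
  · rw [rf_apply, neg_neg, h.tp]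
  · have := h.tlt (-x) (by linarith) (by linarith)
    rw [rf_apply]; linarith

theorem rf_IsStd {t : Hm} {p q : ℝ} (h : IsStd (rf t) (-q) (-p) 0) : IsStd t p q (-1) := by
  obtain ⟨g, hg, g1, g2, g3⟩ := h
  refine ⟨Pool.Agent.H16.PLR.rf g, rf_mem hg, ?_, ?_, fun x hx hx' => ?_⟩
  · rw [rf_apply, g2]; norm_num
  · rw [rf_apply, g1]; norm_num
  · have := g3 (-x) (by linarith) (by linarith)
    simp only [rf_apply, neg_neg] at this ⊢
    rw [this, s0_odd]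

theorem two_cells_neg {t₁ t₂ χ : Hm} {p₁ q₁ p₂ q₂ : ℝ} (hχ : χ ∈ P) (h₁ : NegCell t₁ p₁ q₁)
    (h₂ : NegCell t₂ p₂ q₂) (hz₁ : ∀ x, -4 ≤ χ x → χ x ≤ 370 → χ (t₁ x) = χ x - 1)
    (hz₂ : ∀ x, -4 ≤ χ x → χ x ≤ 370 → χ (t₂ x) = χ x - 2) (hp₁ : χ p₁ < -4)
    (hp₂ : χ p₂ < -4) (hq₁ : 370 < χ q₁) (hq₂ : 370 < χ q₂) :
    ∃ K ∈ PS (χ⁻¹ 0) (χ⁻¹ 366), IsStd (t₁ * K) p₁ q₁ (-1) ∧ IsStd (t₂ * K) p₂ q₂ (-1) := by
  have hχ' : tr 366 * rf χ ∈ P := P.mul_mem (tr_mem _) (rf_mem hχ)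
  have hx : ∀ x, (tr 366 * rf χ) x = 366 - χ (-x) := by
    intro x; simp only [RelIso.mul_apply, tr_apply, rf_apply]; ring
  have hinv : ∀ y, (tr 366 * rf χ)⁻¹ y = -χ⁻¹ (366 - y) := by
    intro y
    rw [← (tr 366 * rf χ).injective.eq_iff, RelIso.apply_inv_self, hx, neg_neg,
      RelIso.apply_inv_self]
    ring
  obtain ⟨K, hK, s₁, s₂⟩ := two_cells hχ' h₁.rf h₂.rf
    (by
      intro x g1 g2
      rw [hx] at g1 g2
      rw [hx, hx, rf_apply, neg_neg, hz₁ _ (by linarith) (by linarith)]; ring)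
    (by
      intro x g1 g2
      rw [hx] at g1 g2
      rw [hx, hx, rf_apply, neg_neg, hz₂ _ (by linarith) (by linarith)]; ring)
    (by rw [hx, neg_neg]; linarith) (by rw [hx, neg_neg]; linarith)
    (by rw [hx, neg_neg]; linarith) (by rw [hx, neg_neg]; linarith)
  refine ⟨rf K, ?_, ?_, ?_⟩
  · have := rf_PS hK
    rw [hinv, hinv] at this
    simpa using this
  · apply rf_IsStd
    rwa [rf_mul, rf_rf]
  · apply rf_IsStd
    rwa [rf_mul, rf_rf]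

theorem IsStd.shift {t : Hm} {p q n : ℝ} (h : IsStd t p q n) (m : ℤ) :
    IsStd t p q (n + m * 2) := by
  obtain ⟨g, hg, g1, g2, g3⟩ := h
  refine ⟨tr (m * 2) * g, P.mul_mem (tr_mem _) hg, ?_, ?_, fun x hx hx' => ?_⟩
  · simp only [RelIso.mul_apply, tr_apply, g1]
  · simp only [RelIso.mul_apply, tr_apply, g2]; ring
  · simp only [RelIso.mul_apply, tr_apply, g3 x hx hx', s0_zadd]

end Pool.Agent.H16.PLR
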