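import Pool.Agent.H16.PLR.Base

/-! Supported elements and periodic extensions. -/

set_option autoImplicit false

open Set Filter Topology

namespace Pool.Agent.H16.PLR

/-- elements of `P` supported in `[u, v]` -/
def PS (u v : ℝ) : Subgroup Hm where
  carrier := {g | g ∈ P ∧ (∀ x ≤ u, g x = x) ∧ ∀ x, v ≤ x → g x = x}
  mul_mem' := by
    rintro f g ⟨hf, hf1, hf2⟩ ⟨hg, hg1, hg2⟩
    refine ⟨P.mul_mem hf hg, fun x hx => ?_, fun x hx => ?_⟩
    · rw [RelIso.mul_apply, hg1 x hx, hf1 x hx]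
    · rw [RelIso.mul_apply, hg2 x hx, hf2 x hx]
  one_mem' := ⟨P.one_mem, fun x _ => rfl, fun x _ => rfl⟩
  inv_mem' := by
    rintro f ⟨hf, hf1, hf2⟩
    refine ⟨P.inv_mem hf, fun x hx => ?_, fun x hx => ?_⟩
    · rw [← f.injective.eq_iff, RelIso.apply_inv_self, hf1 x hx]
    · rw [← f.injective.eq_iff, RelIso.apply_inv_self, hf2 x hx]

theorem mem_PS {u v : ℝ} {g : Hm} :
    g ∈ PS u v ↔ g ∈ P ∧ (∀ x ≤ u, g x = x) ∧ ∀ x, v ≤ x → g x = x := Iff.rfl

theorem PS_le_P (u v : ℝ) : PS u v ≤ P := fun _ h => h.1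

theorem PS_mono {u v u' v' : ℝ} (h : u' ≤ u) (h' : v ≤ v') : PS u v ≤ PS u' v' :=
  fun _ hg => ⟨hg.1, fun x hx => hg.2.1 x (hx.trans h), fun x hx => hg.2.2 x (h'.trans hx)⟩

theorem Hm.ext' {f g : Hm} (h : ∀ x, f x = g x) : f = g := DFunLike.ext _ _ h

theorem PS_maps {u v : ℝ} {g : Hm} (hg : g ∈ PS u v) {x : ℝ} (h1 : u ≤ x) (h2 : x ≤ v) :
    u ≤ g x ∧ g x ≤ v := by
  have hu := hg.2.1 u le_rfl
  have hv := hg.2.2 v le_rfl
  constructor
  · calc u = g u := hu.symm
      _ ≤ g x := g.monotone h1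
  · calc g x ≤ g v := g.monotone h2
      _ = v := hv

theorem PS_commute {u v u' v' : ℝ} {g h : Hm} (hg : g ∈ PS u v) (hh : h ∈ PS u' v')
    (hvu : v ≤ u') : g * h = h * g := by
  apply Hm.ext'
  intro x
  rw [RelIso.mul_apply, RelIso.mul_apply]
  rcases le_total x u' with hx | hx
  · rw [hh.2.1 x hx]
    rcases le_total x v with hx' | hx'
    · rw [hh.2.1]
      rcases le_total x u with hx'' | hx''
      · rw [hg.2.1 x hx'']; exact hx
      · exact (PS_maps hg hx'' hx').2.trans hvu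
    · rw [hg.2.2 x hx', hh.2.1 x hx]
  · have h1 : u' ≤ h x := by
      calc u' = h u' := (hh.2.1 u' le_rfl).symm
        _ ≤ h x := h.monotone hx
    rw [hg.2.2 (h x) (hvu.trans h1), hg.2.2 x (hvu.trans hx)]

theorem PS_conj {u v : ℝ} {g h : Hm} (hg : g ∈ PS u v) (hh : h ∈ P) :
    h * g * h⁻¹ ∈ PS (h u) (h v) := by
  refine ⟨P.mul_mem (P.mul_mem hh hg.1) (P.inv_mem hh), fun x hx => ?_, fun x hx => ?_⟩
  · rw [RelIso.mul_apply, RelIso.mul_apply, hg.2.1, RelIso.apply_inv_self]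
    rw [← h.le_iff_le, RelIso.apply_inv_self]; exact hx
  · rw [RelIso.mul_apply, RelIso.mul_apply, hg.2.2, RelIso.apply_inv_self]
    rw [← h.le_iff_le, RelIso.apply_inv_self]; exact hx

theorem PS_conj' {u v u' v' : ℝ} {g h : Hm} (hg : g ∈ PS u v) (hh : h ∈ P)
    (h1 : u' ≤ h u) (h2 : h v ≤ v') : h * g * h⁻¹ ∈ PS u' v' :=
  PS_mono h1 h2 (PS_conj hg hh)

theorem exists_restr {g : Hm} (hg : g ∈ P) {u v : ℝ} (huv : u ≤ v) (hu : g u = u)
    (hv : g v = v) : ∃ k ∈ PS u v, ∀ x, u ≤ x → x ≤ v → k x = g x := by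
  obtain ⟨k1, hk1, h1, h2⟩ := exists_glue P.one_mem hg (c := u) (by rw [hu]; rfl)
  obtain ⟨k2, hk2, h3, h4⟩ := exists_glue hk1 P.one_mem (c := v) (by rw [h2 v huv, hv]; rfl)
  refine ⟨k2, ⟨hk2, fun x hx => ?_, fun x hx => ?_⟩, fun x hx hx' => ?_⟩
  · rw [h3 x (hx.trans huv), h1 x hx]; rfl
  · rw [h4 x hx]; rfl
  · rw [h3 x hx', h2 x hx]

/-- periodic extension -/
theorem exists_per {g : Hm} (hg : g ∈ P) {p e : ℝ} (hp : 0 < p) (he : g e = e)
    (hep : g (e + p) = e + p) :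
    ∃ h ∈ P, (∀ x, e ≤ x → x ≤ e + p → h x = g x) ∧ ∀ x, h (x + p) = h x + p := by
  have hc : StrictMono (fun n : ℤ => e + n * p) := by
    intro m n hmn
    have : (m : ℝ) < n := by exact_mod_cast hmn
    simp only
    nlinarith
  have hb : Tendsto (fun n : ℤ => e + n * p) atBot atBot :=
    tendsto_atBot_add_const_left _ _ ((tendsto_intCast_atBot_iff.2 tendsto_id).atBot_mul_const hp)
  have ht : Tendsto (fun n : ℤ => e + n * p) atTop atTop :=
    tendsto_atTop_add_const_left _ _ ((tendsto_intCast_atTop_iff.2 tendsto_id).atTop_mul_const hp)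
  have hgn : ∀ (n : ℤ) (x : ℝ), (tr (n * p) * g * (tr (n * p))⁻¹) x = g (x - n * p) + n * p := by
    intro n x
    simp
  have hd : (fun n : ℤ => (tr (n * p) * g * (tr (n * p))⁻¹) (e + n * p)) =
      fun n : ℤ => e + n * p := by
    funext n
    rw [hgn, add_sub_cancel_right, he]
  obtain ⟨k, hk, hk'⟩ := exists_glueZ hc hb ht (g := fun n => tr (n * p) * g * (tr (n * p))⁻¹)
    (fun n => P.mul_mem (P.mul_mem (tr_mem _) hg) (P.inv_mem (tr_mem _)))
    (by
      intro n
      simp only [hgn]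
      push_cast
      have e1 : e + ((n : ℝ) + 1) * p - n * p = e + p := by ring
      have e2 : e + ((n : ℝ) + 1) * p - (n + 1) * p = e := by ring
      rw [e1, e2, he, hep]; ring)
    (by rw [hd]; exact hb) (by rw [hd]; exact ht)
  refine ⟨k, hk, ?_, ?_⟩
  · intro x h1 h2
    have := hk' 0 x (by simpa using h1) (by simpa using h2)
    rw [this, hgn]; simp
  · intro x
    obtain ⟨n, h1, h2⟩ := exists_int_between hc hb ht x
    have h2' : x ≤ e + ((n + 1 : ℤ) : ℝ) * p := h2.le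
    rw [hk' n x h1 h2', hk' (n + 1) (x + p), hgn, hgn]
    · push_cast
      have : x + p - ((n : ℝ) + 1) * p = x - n * p := by ring
      rw [this]; ring
    · push_cast; linarith
    · push_cast at h2' ⊢; linarith

theorem per_zmul {h : Hm} {p : ℝ} (hh : ∀ x, h (x + p) = h x + p) (n : ℤ) (x : ℝ) :
    h (x + n * p) = h x + n * p := by
  induction n using Int.induction_on with
  | zero => simp
  | succ n ih =>
    push_cast at ih ⊢
    have : x + ((n : ℝ) + 1) * p = x + n * p + p := by ring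
    rw [this, hh, ih]; ring
  | pred n ih =>
    push_cast at ih ⊢
    have : h (x + (-(n : ℝ) - 1) * p + p) = h (x + (-(n : ℝ) - 1) * p) + p := hh _
    have e : x + (-(n : ℝ) - 1) * p + p = x + -(n : ℝ) * p := by ring
    rw [e, ih] at this
    linarith

theorem exists_int_shift {p : ℝ} (hp : 0 < p) (e x : ℝ) :
    ∃ n : ℤ, e ≤ x + n * p ∧ x + n * p < e + p := by
  refine ⟨-⌊(x - e) / p⌋, ?_, ?_⟩
  · have := Int.floor_le ((x - e) / p)
    rw [le_div_iff₀ hp] at this
    push_cast; linarith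
  · have := Int.lt_floor_add_one ((x - e) / p)
    rw [div_lt_iff₀ hp] at this
    push_cast; linarith

theorem per_unique {h h' : Hm} {p e : ℝ} (hp : 0 < p) (hh : ∀ x, h (x + p) = h x + p)
    (hh' : ∀ x, h' (x + p) = h' x + p) (heq : ∀ x, e ≤ x → x ≤ e + p → h x = h' x) :
    h = h' := by
  apply Hm.ext'
  intro x
  obtain ⟨n, h1, h2⟩ := exists_int_shift hp e x
  have := heq _ h1 h2.le
  rw [per_zmul hh, per_zmul hh'] at this
  linarith

open Classical in
/-- the `p`-periodic extension of an element supported in `[e, e+p]` -/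
noncomputable def per (p e : ℝ) (g : Hm) : Hm :=
  if h : ∃ k ∈ P, (∀ x, e ≤ x → x ≤ e + p → k x = g x) ∧ ∀ x, k (x + p) = k x + p
  then h.choose else 1

theorem per_spec {p e : ℝ} (hp : 0 < p) {g : Hm} (hg : g ∈ P) (he : g e = e)
    (hep : g (e + p) = e + p) : per p e g ∈ P ∧ (∀ x, e ≤ x → x ≤ e + p → per p e g x = g x) ∧
      ∀ x, per p e g (x + p) = per p e g x + p := by
  have h := exists_per hg hp he hep
  unfold per
  rw [dif_pos h]
  exact h.choose_spec

theorem per_specS {p e : ℝ} (hp : 0 < p) {u v : ℝ} (hu : e ≤ u) (hv : v ≤ e + p) {g : Hm}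
    (hg : g ∈ PS u v) : per p e g ∈ P ∧ (∀ x, e ≤ x → x ≤ e + p → per p e g x = g x) ∧
      ∀ x, per p e g (x + p) = per p e g x + p :=
  per_spec hp hg.1 (hg.2.1 _ hu) (hg.2.2 _ hv)

theorem per_mul {p e : ℝ} (hp : 0 < p) {g h : Hm} (hg : g ∈ PS e (e + p))
    (hh : h ∈ PS e (e + p)) : per p e (g * h) = per p e g * per p e h := by
  have h1 := per_specS hp le_rfl le_rfl hg
  have h2 := per_specS hp le_rfl le_rfl hh
  have h3 := per_specS hp le_rfl le_rfl ((PS e (e + p)).mul_mem hg hh)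
  refine per_unique hp h3.2.2 (e := e) (fun x => ?_) (fun x hx hx' => ?_)
  · rw [RelIso.mul_apply, RelIso.mul_apply, h2.2.2, h1.2.2]
  · rw [h3.2.1 x hx hx', RelIso.mul_apply, RelIso.mul_apply, h2.2.1 x hx hx']
    have := PS_maps hh hx hx'
    rw [h1.2.1 _ this.1 this.2]

theorem per_one {p e : ℝ} (hp : 0 < p) : per p e 1 = 1 := by
  have h1 := per_specS hp le_rfl le_rfl (PS e (e + p)).one_mem
  refine per_unique hp h1.2.2 (e := e) (fun x => rfl) (fun x hx hx' => h1.2.1 x hx hx')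

theorem per_inv {p e : ℝ} (hp : 0 < p) {g : Hm} (hg : g ∈ PS e (e + p)) :
    per p e g⁻¹ = (per p e g)⁻¹ := by
  rw [eq_inv_iff_mul_eq_one, ← per_mul hp ((PS e (e + p)).inv_mem hg) hg, inv_mul_cancel,
    per_one hp]

/-- periodic extension does not depend on the base point -/
theorem per_base {p e e' : ℝ} (hp : 0 < p) {u v : ℝ} {g : Hm} (hg : g ∈ PS u v)
    (h1 : e ≤ u) (h2 : v ≤ e + p) (h1' : e' ≤ u) (h2' : v ≤ e' + p) (huv : u ≤ v) :
    per p e g = per p e' g := by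
  have s1 := per_specS hp h1 h2 hg
  have s2 := per_specS hp h1' h2' hg
  -- compare on the window starting at `u`
  refine per_unique hp s1.2.2 s2.2.2 (e := u) (fun x hx hx' => ?_)
  rcases le_total x v with hv | hv
  · rw [s1.2.1 x (h1.trans hx) (hv.trans h2), s2.2.1 x (h1'.trans hx) (hv.trans h2')]
  · -- both are the identity on [v, u+p]
    have aux : ∀ e₀ : ℝ, e₀ ≤ u → v ≤ e₀ + p → per p e₀ g x = x := by
      intro e₀ h3 h4
      have s := per_specS hp h3 h4 hg
      rcases le_total x (e₀ + p) with h5 | h5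
      · rw [s.2.1 x (by linarith) h5, hg.2.2 x hv]
      · have h6 : per p e₀ g (x - p + p) = per p e₀ g (x - p) + p := s.2.2 _
        rw [sub_add_cancel] at h6
        rw [h6, s.2.1 (x - p) (by linarith) (by linarith), hg.2.1 (x - p) (by linarith)]
        ring
    rw [aux e h1 h2, aux e' h1' h2']

theorem per_conj_tr {p e : ℝ} (hp : 0 < p) (r : ℝ) {g : Hm} (hg : g ∈ PS e (e + p)) :
    per p (e + r) (tr r * g * (tr r)⁻¹) = tr r * per p e g * (tr r)⁻¹ := by
  have s1 := per_specS hp le_rfl le_rfl hg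
  have hg' : tr r * g * (tr r)⁻¹ ∈ PS (e + r) (e + r + p) := by
    have := PS_conj hg (tr_mem r)
    simp only [tr_apply] at this
    have e1 : e + p + r = e + r + p := by ring
    rwa [e1] at this
  have s2 := per_specS hp le_rfl le_rfl hg'
  refine per_unique hp s2.2.2 (e := e + r) (fun x => ?_) (fun x hx hx' => ?_)
  · simp only [RelIso.mul_apply, tr_inv_apply, tr_apply]
    have : x + p - r = x - r + p := by ring
    rw [this, s1.2.2]; ring
  · rw [s2.2.1 x hx hx']
    simp only [RelIso.mul_apply, tr_inv_apply, tr_apply]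
    rw [s1.2.1 _ (by linarith) (by linarith)]

theorem per_commute {p q : ℝ} {h : Hm} (hh : ∀ x, h (x + p) = h x + p) (n : ℤ)
    (hq : q = n * p) : tr q * h * (tr q)⁻¹ = h := by
  apply Hm.ext'
  intro x
  simp only [RelIso.mul_apply, tr_inv_apply, tr_apply]
  have := per_zmul hh n (x - q)
  rw [← hq, sub_add_cancel] at this
  exact this.symm

end Pool.Agent.H16.PLR
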