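import Pool.Agent.H16.PLR.Convert

/-!
# Every increasing piecewise affine homeomorphism of the line is a product of two reversible ones

`PL⁺(ℝ)` is the group of all increasing homeomorphisms of `ℝ` that are locally affine outside a
discrete set. An element is reversible if it is conjugate to its inverse. We prove that the least
`m ≥ 1` such that every element of `PL⁺(ℝ)` is a product of `m` reversible elements is `2`.
-/

set_option autoImplicit false

namespace Pool.Agent.Results.MP_701b78_al.TwoReversibles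

/-- `f` is locally affine at `x`: it is given by `t ↦ a * t + b` on an open interval around
`x`. -/
def LocallyAffineAt (f : ℝ → ℝ) (x : ℝ) : Prop :=
  ∃ a b ε : ℝ, 0 < ε ∧ ∀ t, |t - x| < ε → f t = a * t + b

open Pool.Agent.H16.PLR in
/-- The group `PL⁺(ℝ)`: increasing homeomorphisms of `ℝ` whose set of points where they fail to
be locally affine is discrete. The group operation is composition. -/
def PLplus : Subgroup (ℝ ≃ₜ ℝ) where
  carrier := {f | StrictMono f ∧ DiscreteTopology {x : ℝ | ¬ LocallyAffineAt f x}}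
  mul_mem' := by
    rintro f g ⟨hf, hf'⟩ ⟨hg, hg'⟩
    have hfg : StrictMono (f * g : ℝ ≃ₜ ℝ) := hf.comp hg
    refine ⟨hfg, ?_⟩
    have h := P.mul_mem ((toHm_mem f hf).2 hf') ((toHm_mem g hg).2 hg')
    exact (toHm_mem (f * g) hfg).1 h
  one_mem' := by
    have h1 : StrictMono (1 : ℝ ≃ₜ ℝ) := strictMono_id
    exact ⟨h1, (toHm_mem 1 h1).1 P.one_mem⟩
  inv_mem' := by
    rintro f ⟨hf, hf'⟩
    have h1 : StrictMono (f⁻¹ : ℝ ≃ₜ ℝ) := by
      intro x y hxy
      have := ((toHm f hf)⁻¹).strictMono hxy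
      rwa [toHm_inv_apply, toHm_inv_apply] at this
    refine ⟨h1, ?_⟩
    have h2 := P.inv_mem ((toHm_mem f hf).2 hf')
    have h3 : (toHm f hf)⁻¹ = toHm f⁻¹ h1 := by
      apply Hm.ext'
      intro x
      rw [toHm_inv_apply]; rfl
    rw [h3] at h2
    exact (toHm_mem f⁻¹ h1).1 h2

/-- `g` is reversible in `G`: it is conjugate in `G` to its inverse. -/
def Reversible {G : Type*} [Group G] (g : G) : Prop := ∃ h : G, h * g * h⁻¹ = g⁻¹

/-- `R^m(G)`: the set of all products `r₁ r₂ ⋯ r_m` of `m` reversible elements of `G`. -/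
def reversibleProducts (G : Type*) [Group G] (m : ℕ) : Set G :=
  {g | ∃ l : List G, l.length = m ∧ (∀ r ∈ l, Reversible r) ∧ l.prod = g}

theorem translation_mem : Homeomorph.addRight (1 : ℝ) ∈ PLplus := by
  refine ⟨fun x y hxy => by simpa using hxy, ?_⟩
  have : {x : ℝ | ¬ LocallyAffineAt (Homeomorph.addRight (1 : ℝ)) x} = ∅ := by
    ext x
    simp only [Set.mem_setOf_eq, Set.mem_empty_iff_false, iff_false, not_not]
    exact ⟨1, 1, 1, one_pos, fun t _ => by simp⟩
  rw [this]
  infer_instance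

open Pool.Agent.H16.PLR in
/-- Each element of `P` gives an element of `PL⁺(ℝ)`. -/
theorem mem_of_P {f : Hm} (hf : f ∈ P) : f.toHomeomorph ∈ PLplus := by
  refine ⟨f.strictMono, ?_⟩
  exact (isPL_iff f.continuous).1 hf

open Pool.Agent.H16.PLR in
theorem rev_of_P {f h : Hm} (hf : f ∈ P) (hh : h ∈ P) (e : h * f * h⁻¹ = f⁻¹) :
    Reversible (⟨f.toHomeomorph, mem_of_P hf⟩ : PLplus) := by
  refine ⟨⟨h.toHomeomorph, mem_of_P hh⟩, ?_⟩
  apply Subtype.ext
  apply Homeomorph.ext
  intro x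
  exact DFunLike.congr_fun e x

open Pool.Agent.H16.PLR in
theorem result : IsLeast {m : ℕ | 1 ≤ m ∧ reversibleProducts PLplus m = Set.univ} 2 := by
  constructor
  · refine ⟨by norm_num, ?_⟩
    ext f
    simp only [Set.mem_univ, iff_true]
    obtain ⟨f, hf, hf'⟩ := f
    obtain ⟨r₁, hr₁, r₂, hr₂, ⟨h₁, hh₁, e₁⟩, ⟨h₂, hh₂, e₂⟩, e⟩ := main ((toHm_mem f hf).2 hf')
    refine ⟨[⟨r₁.toHomeomorph, mem_of_P hr₁⟩, ⟨r₂.toHomeomorph, mem_of_P hr₂⟩], rfl, ?_, ?_⟩
    · intro r hr
      simp only [List.mem_cons, List.not_mem_nil, or_false] at hr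
      rcases hr with rfl | rfl
      · exact rev_of_P hr₁ hh₁ e₁
      · exact rev_of_P hr₂ hh₂ e₂
    · simp only [List.prod_cons, List.prod_nil, mul_one]
      apply Subtype.ext
      apply Homeomorph.ext
      intro x
      exact (DFunLike.congr_fun e x).symm
  · rintro m ⟨hm, hR⟩
    by_contra hlt
    have hm1 : m = 1 := by omega
    subst hm1
    have : (⟨Homeomorph.addRight (1 : ℝ), translation_mem⟩ : PLplus) ∈
        reversibleProducts PLplus 1 := by
      rw [hR]; trivial
    obtain ⟨l, hl, hrev, hprod⟩ := this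
    obtain ⟨r, rfl⟩ := List.length_eq_one_iff.1 hl
    rw [List.prod_singleton] at hprod
    obtain ⟨h, hh⟩ := hrev r (by simp)
    rw [hprod] at hh
    have e1 : h * ⟨Homeomorph.addRight (1 : ℝ), translation_mem⟩ =
        (⟨Homeomorph.addRight (1 : ℝ), translation_mem⟩ : PLplus)⁻¹ * h := by
      rw [← hh]; group
    have e2 := DFunLike.congr_fun (congrArg Subtype.val e1) (0 : ℝ)
    have e3 : (h : ℝ ≃ₜ ℝ) (0 + 1) = (h : ℝ ≃ₜ ℝ) 0 + -1 := e2
    have e4 : (h : ℝ ≃ₜ ℝ) 0 < (h : ℝ ≃ₜ ℝ) (0 + 1) := h.2.1 (by norm_num)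
    linarith

end Pool.Agent.Results.MP_701b78_al.TwoReversibles
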