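import Pool.Agent.H16.PLR.Comm

/-! The zone lemma: prescribing two developments at once. -/

set_option autoImplicit false

open Set Filter Topology
open scoped commutatorElement

namespace Pool.Agent.H16.PLR

/-- elements of `P` commuting with `x ↦ x + i` -/
def TT (i : ℝ) : Subgroup Hm where
  carrier := {g | g ∈ P ∧ ∀ x, g (x + i) = g x + i}
  mul_mem' := by
    rintro f g ⟨hf, hf'⟩ ⟨hg, hg'⟩
    refine ⟨P.mul_mem hf hg, fun x => ?_⟩
    rw [RelIso.mul_apply, RelIso.mul_apply, hg', hf']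
  one_mem' := ⟨P.one_mem, fun x => rfl⟩
  inv_mem' := by
    rintro f ⟨hf, hf'⟩
    refine ⟨P.inv_mem hf, fun x => ?_⟩
    rw [← f.injective.eq_iff, RelIso.apply_inv_self, hf', RelIso.apply_inv_self]

theorem TT.comm {i : ℝ} {c : Hm} (hc : c ∈ TT i) : c * tr i = tr i * c := by
  apply Hm.ext'
  intro x
  simp only [RelIso.mul_apply, tr_apply]
  exact hc.2 x

theorem tr_mem_TT (i r : ℝ) : tr r ∈ TT i := ⟨tr_mem r, fun x => by simp; ring⟩

/-- `c` is the total development of `K` relative to `x ↦ x + i` -/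
def Dev (i L : ℝ) (K c : Hm) : Prop :=
  ∃ φ ∈ P, φ * tr i * K = tr i * φ ∧ (∀ x ≤ 0, φ x = x) ∧ ∀ x, L + 2 ≤ x → φ x = c x

theorem Dev.mul {i : ℝ} {N N' : ℕ} {K K' c c' : Hm} (hc : c ∈ TT i)
    (hc' : c' ∈ TT i) (hi2 : ∃ n : ℤ, (2 : ℝ) * N + 2 = n * i)
    (hK' : K' ∈ PS 0 (2 * N')) (h : Dev i (2 * N) K c) (h' : Dev i (2 * N') K' c') :
    Dev i (2 * (N + N' + 1 : ℕ)) (K * (tr (2 * N + 2) * K' * (tr (2 * N + 2))⁻¹)) (c * c') := by
  obtain ⟨φ, hφ, e1, φ0, φ1⟩ := h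
  obtain ⟨φ', hφ', e1', φ0', φ1'⟩ := h'
  obtain ⟨M, hM⟩ : ∃ M, M = (2 : ℝ) * N + 2 := ⟨_, rfl⟩
  have hN : (0 : ℝ) ≤ N := Nat.cast_nonneg N
  have hM0 : 0 < M := by linarith
  rw [← hM]
  rw [← hM] at hi2
  set K'' := tr M * K' * (tr M)⁻¹ with hK''
  set ψ := tr M * φ' * (tr M)⁻¹ with hψ
  have hKs : K'' ∈ PS M (M + 2 * N') := by
    have := PS_conj hK' (tr_mem M)
    simpa [add_comm] using this
  have φM : ∀ x, M ≤ x → φ x = c x := fun x hx => φ1 x (by linarith)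
  have below : ∀ x ≤ M, c⁻¹ (φ x) ≤ M := by
    intro x hx
    rw [← c.le_iff_le, RelIso.apply_inv_self, ← φM M le_rfl]
    exact φ.monotone hx
  have ψM : ∀ x ≤ M, ψ x = x := by
    intro x hx
    rw [hψ]
    simp only [RelIso.mul_apply, tr_inv_apply, tr_apply]
    rw [φ0' _ (by linarith)]; ring
  have claim : φ * K'' = c * K'' * c⁻¹ * φ := by
    apply Hm.ext'
    intro x
    simp only [RelIso.mul_apply]
    rcases le_total x M with hx | hx
    · rw [hKs.2.1 x hx, hKs.2.1 _ (below x hx), RelIso.apply_inv_self]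
    · have : M ≤ K'' x := by
        calc M = K'' M := (hKs.2.1 M le_rfl).symm
          _ ≤ K'' x := K''.monotone hx
      rw [φM _ this, φM x hx, RelIso.inv_apply_self]
  have hci : c⁻¹ * tr i * c = tr i := by
    rw [mul_assoc, ← TT.comm hc]; group
  have hψK : ψ * tr i * K'' = tr i * ψ := by
    have ht : (tr M)⁻¹ * tr i * tr M = tr i := by
      rw [tr_inv, ← tr_add, ← tr_add]; congr 1; ring
    have ht' : tr M * tr i = tr i * tr M := by
      rw [← tr_add, ← tr_add, add_comm]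
    calc ψ * tr i * K'' = tr M * φ' * ((tr M)⁻¹ * tr i * tr M) * K' * (tr M)⁻¹ := by
          rw [hψ, hK'']; group
      _ = tr M * (φ' * tr i * K') * (tr M)⁻¹ := by rw [ht]; group
      _ = (tr M * tr i) * φ' * (tr M)⁻¹ := by rw [e1']; group
      _ = tr i * ψ := by rw [ht', hψ]; group
  refine ⟨c * ψ * c⁻¹ * φ, ?_, ?_, fun x hx => ?_, fun x hx => ?_⟩
  · exact P.mul_mem (P.mul_mem (P.mul_mem hc.1 (P.mul_mem (P.mul_mem (tr_mem _) hφ')
      (P.inv_mem (tr_mem _)))) (P.inv_mem hc.1)) hφ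
  · calc c * ψ * c⁻¹ * φ * tr i * (K * K'') = c * ψ * c⁻¹ * (φ * tr i * K) * K'' := by group
      _ = c * ψ * c⁻¹ * tr i * (φ * K'') := by rw [e1]; group
      _ = c * ψ * (c⁻¹ * tr i * c) * K'' * c⁻¹ * φ := by rw [claim]; group
      _ = c * (ψ * tr i * K'') * c⁻¹ * φ := by rw [hci]; group
      _ = (c * tr i) * ψ * c⁻¹ * φ := by rw [hψK]; group
      _ = tr i * (c * ψ * c⁻¹ * φ) := by rw [TT.comm hc]; group
  · simp only [RelIso.mul_apply]
    rw [ψM _ (below x (by linarith)), RelIso.apply_inv_self, φ0 x hx]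
  · push_cast at hx
    have hN' : (0 : ℝ) ≤ N' := Nat.cast_nonneg N'
    simp only [RelIso.mul_apply]
    rw [φM x (by linarith), RelIso.inv_apply_self]
    congr 1
    rw [hψ]
    simp only [RelIso.mul_apply, tr_inv_apply, tr_apply]
    rw [φ1' _ (by linarith)]
    obtain ⟨n, hn⟩ := hi2
    have := per_zmul hc'.2 n (x - M)
    rw [← hn, sub_add_cancel] at this
    exact this.symm

/-- pairs of developments realised in the zone `[0, 2N]` -/
def SR (N : ℕ) (c₁ c₂ : Hm) : Prop :=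
  c₁ ∈ TT 1 ∧ c₂ ∈ TT 2 ∧ ∃ K ∈ PS 0 (2 * N), Dev 1 (2 * N) K c₁ ∧ Dev 2 (2 * N) K c₂

theorem SR.mul {N N' : ℕ} {c₁ c₂ c₁' c₂' : Hm} (h : SR N c₁ c₂) (h' : SR N' c₁' c₂') :
    SR (N + N' + 1) (c₁ * c₁') (c₂ * c₂') := by
  obtain ⟨h1, h2, K, hK, d1, d2⟩ := h
  obtain ⟨h1', h2', K', hK', d1', d2'⟩ := h'
  refine ⟨(TT 1).mul_mem h1 h1', (TT 2).mul_mem h2 h2',
    K * (tr (2 * N + 2) * K' * (tr (2 * N + 2))⁻¹), ?_, ?_, ?_⟩
  · have hN' : (0 : ℝ) ≤ N' := Nat.cast_nonneg N'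
    have hN : (0 : ℝ) ≤ N := Nat.cast_nonneg N
    refine (PS _ _).mul_mem (PS_mono le_rfl (by push_cast; linarith) hK) ?_
    refine PS_conj' hK' (tr_mem _) ?_ ?_
    · simp only [tr_apply]; linarith
    · simp only [tr_apply]; push_cast; linarith
  · exact Dev.mul h1 h1' ⟨2 * N + 2, by push_cast; ring⟩ hK' d1 d1'
  · exact Dev.mul h2 h2' ⟨N + 1, by push_cast; ring⟩ hK' d2 d2'

theorem Dev_frag {i e L : ℝ} (hi : 1 ≤ i) (he : 0 ≤ e) (heL : e + i ≤ L + 2) {κ : Hm}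
    (hκ : κ ∈ PS e (e + 1)) : Dev i L κ⁻¹ (per i e κ) := by
  have hi0 : 0 < i := by linarith
  have s := per_specS hi0 le_rfl (by linarith : e + 1 ≤ e + i) hκ
  obtain ⟨φ, hφ, h1, h2⟩ := exists_glue P.one_mem s.1 (c := e + i)
    (by rw [s.2.1 _ (by linarith) le_rfl, hκ.2.2 _ (by linarith)]; rfl)
  have h1' : ∀ x ≤ e + i, φ x = x := fun x hx => by rw [h1 x hx]; rfl
  have hκi := (PS _ _).inv_mem hκ
  refine ⟨φ, hφ, ?_, fun x hx => h1' x (by linarith), fun x hx => h2 x (by linarith)⟩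
  apply Hm.ext'
  intro x
  simp only [RelIso.mul_apply, tr_apply]
  rcases le_total x e with hx | hx
  · rw [hκi.2.1 x hx, h1' x (by linarith), h1' _ (by linarith)]
  rcases le_total x (e + i) with hx' | hx'
  · have hm := PS_maps (PS_mono le_rfl (by linarith : e + 1 ≤ e + i) hκi) hx hx'
    rw [h1' x hx', h2 _ (by linarith), s.2.2, s.2.1 _ hm.1 hm.2, RelIso.apply_inv_self]
  · rw [hκi.2.2 x (by linarith), h2 _ (by linarith), h2 x hx', s.2.2]

theorem SR_frag₀ {e : ℝ} (he : 0 ≤ e) (he' : e < 2) {κ : Hm} (hκ : κ ∈ PS e (e + 1)) :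
    SR 2 (per 1 e κ) (per 2 e κ) := by
  have s1 := per_specS one_pos le_rfl le_rfl hκ
  have s2 := per_specS two_pos le_rfl (by linarith : e + 1 ≤ e + 2) hκ
  refine ⟨⟨s1.1, s1.2.2⟩, ⟨s2.1, s2.2.2⟩, κ⁻¹, ?_, ?_, ?_⟩
  · exact (PS _ _).inv_mem (PS_mono he (by push_cast; linarith) hκ)
  · exact Dev_frag le_rfl he (by push_cast; linarith) hκ
  · exact Dev_frag (by norm_num) he (by push_cast; linarith) hκ

theorem SR_frag (e : ℝ) {κ : Hm} (hκ : κ ∈ PS e (e + 1)) :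
    SR 2 (per 1 e κ) (per 2 e κ) := by
  obtain ⟨n, h1, h2⟩ := exists_int_shift (two_pos : (0 : ℝ) < 2) 0 e
  have hκ' : tr (n * 2) * κ * (tr (n * 2))⁻¹ ∈ PS (e + n * 2) (e + n * 2 + 1) := by
    have := PS_conj hκ (tr_mem (n * 2))
    simp only [tr_apply] at this
    have e1 : e + 1 + n * 2 = e + n * 2 + 1 := by ring
    rwa [e1] at this
  have h := SR_frag₀ h1 (by linarith) hκ'
  have s1 := per_specS one_pos le_rfl le_rfl hκ
  have s2 := per_specS two_pos le_rfl (by linarith : e + 1 ≤ e + 2) hκ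
  rw [per_conj_tr one_pos _ hκ, per_conj_tr two_pos _ (PS_mono le_rfl (by linarith) hκ),
    per_commute s1.2.2 (n * 2) (by push_cast; ring), per_commute s2.2.2 n rfl] at h
  exact h

theorem SR_comm (e : ℝ) {a b : Hm} (ha : a ∈ PS e (e + 1)) (hb : b ∈ PS e (e + 1)) :
    SR 11 (per 1 e ⁅a, b⁆) 1 := by
  have hb' : tr 1 * b * (tr 1)⁻¹ ∈ PS (e + 1) (e + 1 + 1) := by
    have := PS_conj hb (tr_mem 1)
    simpa only [tr_apply] using this
  set b' := tr 1 * b * (tr 1)⁻¹ with hbdef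
  have sb := per_specS one_pos le_rfl le_rfl hb
  have e1 : per 1 (e + 1) b' = per 1 e b := by
    rw [hbdef, per_conj_tr one_pos 1 hb, per_commute sb.2.2 1 (by simp)]
  have e2 : per 2 (e + 1) b' = per 2 e b' :=
    per_base two_pos hb' le_rfl (by linarith) (by linarith) (by linarith) (by linarith)
  have ha2 : a ∈ PS e (e + 2) := PS_mono le_rfl (by linarith) ha
  have hb2 : b' ∈ PS e (e + 2) := PS_mono (by linarith) (by linarith) hb'
  have hab : a * b' = b' * a := PS_commute ha hb' le_rfl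
  have A := SR_frag e ha
  have B := SR_frag (e + 1) hb'
  have A' := SR_frag e ((PS _ _).inv_mem ha)
  have B' := SR_frag (e + 1) ((PS _ _).inv_mem hb')
  have h := ((A.mul B).mul A').mul B'
  have f1 : per 1 e a * per 1 (e + 1) b' * per 1 e a⁻¹ * per 1 (e + 1) b'⁻¹ =
      per 1 e ⁅a, b⁆ := by
    rw [per_inv one_pos hb', e1, ← per_inv one_pos hb, ← per_mul one_pos ha hb,
      ← per_mul one_pos ((PS _ _).mul_mem ha hb) ((PS _ _).inv_mem ha),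
      ← per_mul one_pos ((PS _ _).mul_mem ((PS _ _).mul_mem ha hb) ((PS _ _).inv_mem ha))
        ((PS _ _).inv_mem hb), commutatorElement_def]
  have f2 : per 2 e a * per 2 (e + 1) b' * per 2 e a⁻¹ * per 2 (e + 1) b'⁻¹ = 1 := by
    rw [per_inv two_pos (PS_mono le_rfl (by linarith) hb' : b' ∈ PS (e + 1) (e + 1 + 2)), e2,
      per_inv two_pos ha2, ← per_mul two_pos ha2 hb2, hab, per_mul two_pos hb2 ha2]
    group
  rw [f1, f2] at h
  exact h

theorem SR_one (e : ℝ) {u v : ℝ} (h1 : e < u) (h2 : u < v) (h3 : v < e + 1) {κ : Hm}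
    (hκ : κ ∈ PS u v) : SR 23 (per 1 e κ) 1 := by
  obtain ⟨a, ha, b, hb, c, hc, d, hd, rfl⟩ := PS_two_commutators h1 h2 h3 hκ
  have h := (SR_comm e ha hb).mul (SR_comm e hc hd)
  have m : ∀ x ∈ PS e (e + 1), ∀ y ∈ PS e (e + 1), ⁅x, y⁆ ∈ PS e (e + 1) := by
    intro x hx y hy
    rw [commutatorElement_def]
    exact (PS _ _).mul_mem ((PS _ _).mul_mem ((PS _ _).mul_mem hx hy) ((PS _ _).inv_mem hx))
      ((PS _ _).inv_mem hy)
  rw [← per_mul one_pos (m a ha b hb) (m c hc d hd), one_mul] at h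
  exact h

theorem SR_two (e : ℝ) {u v : ℝ} (h1 : e < u) (h2 : u < v) (h3 : v < e + 1) {κ : Hm}
    (hκ : κ ∈ PS u v) : SR 26 1 (per 2 e κ) := by
  have hκ' : κ ∈ PS e (e + 1) := PS_mono h1.le h3.le hκ
  have h := (SR_one e h1 h2 h3 ((PS _ _).inv_mem hκ)).mul (SR_frag e hκ')
  rw [← per_mul one_pos ((PS _ _).inv_mem hκ') hκ', inv_mul_cancel, per_one one_pos,
    one_mul] at h
  exact h

/-- extension of a germ to a compactly supported element -/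
theorem exists_germ_ext {Φ : Hm} (hΦ : Φ ∈ P) {e x₀ e' : ℝ} (h1 : e < x₀) (h2 : x₀ < e')
    (h1' : e < Φ x₀) (h2' : Φ x₀ < e') : ∃ u v, e < u ∧ u < v ∧ v < e' ∧ ∃ κ ∈ PS u v,
      ∃ r > 0, ∀ x, x₀ - r ≤ x → x ≤ x₀ + r → κ x = Φ x := by
  have hcont := Φ.continuous.continuousAt (x := x₀)
  have hev : ∀ᶠ x in 𝓝 x₀, e < Φ x ∧ Φ x < e' ∧ e < x ∧ x < e' :=
    (hcont.eventually (lt_mem_nhds h1')).and ((hcont.eventually (gt_mem_nhds h2')).and
      ((lt_mem_nhds h1).and (gt_mem_nhds h2)))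
  rw [Metric.eventually_nhds_iff] at hev
  obtain ⟨s, hs, hev⟩ := hev
  obtain ⟨r, hr, hrs⟩ : ∃ r, 0 < r ∧ r < s := exists_between hs
  obtain ⟨a1, a2, a3, a4⟩ := hev (y := x₀ - r)
    (by rw [Real.dist_eq, abs_of_neg (by linarith)]; linarith)
  obtain ⟨b1, b2, b3, b4⟩ := hev (y := x₀ + r)
    (by rw [Real.dist_eq, abs_of_pos (by linarith)]; linarith)
  obtain ⟨u, hu1, hu2⟩ : ∃ u, e < u ∧ u < min (x₀ - r) (Φ (x₀ - r)) :=
    exists_between (lt_min a3 a1)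
  obtain ⟨v, hv1, hv2⟩ : ∃ v, max (x₀ + r) (Φ (x₀ + r)) < v ∧ v < e' :=
    exists_between (max_lt b4 b2)
  rw [lt_min_iff] at hu2
  rw [max_lt_iff] at hv1
  obtain ⟨α1, β1, hα1, f1, f1'⟩ := exists_aff hu2.1 hu2.2
  obtain ⟨α2, β2, hα2, f2, f2'⟩ := exists_aff hv1.1 hv1.2
  obtain ⟨k1, hk1, k11, k12⟩ := exists_glue (aff_mem α1 β1 hα1) hΦ (c := x₀ - r) f1'
  obtain ⟨k2, hk2, k21, k22⟩ := exists_glue hk1 (aff_mem α2 β2 hα2) (c := x₀ + r)
    (by rw [k12 _ (by linarith), f2])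
  obtain ⟨κ, hκ, hκ'⟩ := exists_restr hk2 (u := u) (v := v) (by linarith)
    (by rw [k21 u (by linarith), k11 u (by linarith), f1]) (by rw [k22 v (by linarith), f2'])
  refine ⟨u, v, hu1, by linarith, hv2, κ, hκ, r, hr, fun x hx hx' => ?_⟩
  rw [hκ' x (by linarith) (by linarith), k21 x hx', k12 x hx]

theorem TT1_decomp {c : Hm} (hc : c ∈ TT 1) : ∃ j : ℤ, SR 47 (c * tr j) 1 := by
  obtain ⟨n, h1, h2⟩ := exists_int_shift one_pos 0 (c 0)
  refine ⟨n, ?_⟩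
  set Φ := c * tr n with hΦdef
  have hΦ : Φ ∈ TT 1 := (TT 1).mul_mem hc (tr_mem_TT _ _)
  have hΦ0 : Φ 0 = c 0 + n * 1 := by
    rw [hΦdef]; simp only [RelIso.mul_apply, tr_apply]
    have := per_zmul hc.2 n 0
    simpa using this
  rw [← hΦ0] at h1 h2
  obtain ⟨u, v, g1, g2, g3, κ, hκ, r, hr, hr'⟩ := exists_germ_ext hΦ.1 (e := (Φ 0 - 1) / 2)
    (x₀ := 0) (e' := (Φ 0 - 1) / 2 + 1) (by linarith) (by linarith) (by linarith) (by linarith)
  set e := (Φ 0 - 1) / 2 with he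
  have A := SR_one e g1 g2 g3 hκ
  have s := per_specS one_pos g1.le g3.le hκ
  set k₁ := per 1 e κ with hk₁
  have hk₁T : k₁ ∈ TT 1 := ⟨s.1, s.2.2⟩
  set Ψ := k₁⁻¹ * Φ with hΨ
  have hΨT : Ψ ∈ TT 1 := (TT 1).mul_mem ((TT 1).inv_mem hk₁T) hΦ
  obtain ⟨r', hr1, hr2⟩ : ∃ r', 0 < r' ∧ r' < min (min r (1 / 3)) (min (-e) (e + 1)) :=
    exists_between (by
      rw [lt_min_iff, lt_min_iff, lt_min_iff]
      exact ⟨⟨hr, by norm_num⟩, by linarith, by linarith⟩)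
  rw [lt_min_iff, lt_min_iff, lt_min_iff] at hr2
  obtain ⟨⟨m1, m2⟩, m3, m4⟩ := hr2
  have hΨid : ∀ x, -r' ≤ x → x ≤ r' → Ψ x = x := by
    intro x hx hx'
    rw [hΨ, RelIso.mul_apply, ← k₁.injective.eq_iff, RelIso.apply_inv_self,
      s.2.1 x (by linarith) (by linarith), hr' x (by linarith) (by linarith)]
  have hΨid' : ∀ x, 1 - r' ≤ x → x ≤ 1 + r' → Ψ x = x := by
    intro x hx hx'
    have := hΨT.2 (x - 1)
    rw [sub_add_cancel, hΨid (x - 1) (by linarith) (by linarith)] at this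
    linarith
  obtain ⟨κ₂, hκ₂, hκ₂'⟩ := exists_restr hΨT.1 (u := r') (v := 1 - r') (by linarith)
    (hΨid _ (by linarith) le_rfl) (hΨid' _ le_rfl (by linarith))
  have B := SR_one 0 hr1 (by linarith) (by linarith) hκ₂
  have s2 := per_specS one_pos hr1.le (by linarith : 1 - r' ≤ 0 + 1) hκ₂
  have e1 : per 1 0 κ₂ = Ψ := by
    refine per_unique one_pos s2.2.2 hΨT.2 (e := 0) (fun x hx hx' => ?_)
    rw [s2.2.1 x hx hx']
    rcases le_total x r' with h | h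
    · rw [hκ₂.2.1 x h, hΨid x (by linarith) h]
    rcases le_total x (1 - r') with h' | h'
    · exact hκ₂' x h h'
    · rw [hκ₂.2.2 x h', hΨid' x h' (by linarith)]
  have h := A.mul B
  rw [e1] at h
  have e2 : k₁ * Ψ = Φ := by rw [hΨ]; group
  rw [e2, one_mul] at h
  exact h

theorem TT2_decomp {c : Hm} (hc : c ∈ TT 2) : ∃ j : ℤ, SR 134 1 (c * tr (j * 2)) := by
  obtain ⟨n, h1, h2⟩ := exists_int_shift (two_pos : (0 : ℝ) < 2) 0 (c 0)
  refine ⟨n, ?_⟩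
  set Φ := c * tr (n * 2) with hΦdef
  have hΦ : Φ ∈ TT 2 := (TT 2).mul_mem hc (tr_mem_TT _ _)
  have hΦ0 : Φ 0 = c 0 + n * 2 := by
    rw [hΦdef]; simp only [RelIso.mul_apply, tr_apply]
    have := per_zmul hc.2 n 0
    simpa using this
  rw [← hΦ0] at h1 h2
  obtain ⟨w, hw⟩ : ∃ w, w = Φ 0 / 2 := ⟨_, rfl⟩
  have hw0 : 0 ≤ w := by linarith
  have hw1 : w < 1 := by linarith
  -- first fragment: 0 ↦ w
  obtain ⟨u₁, v₁, g1, g2, g3, κ₁, hκ₁, r₁, hr₁, hr₁'⟩ := exists_germ_ext (tr_mem w)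
    (e := (w - 1) / 2) (x₀ := 0) (e' := (w - 1) / 2 + 1) (by linarith) (by linarith)
    (by simp only [tr_apply]; linarith) (by simp only [tr_apply]; linarith)
  set e₁ := (w - 1) / 2 with he₁
  have S₁ := SR_two e₁ g1 g2 g3 hκ₁
  have s₁ := per_specS two_pos g1.le (by linarith : v₁ ≤ e₁ + 2) hκ₁
  set k₁ := per 2 e₁ κ₁ with hk₁
  have hk₁T : k₁ ∈ TT 2 := ⟨s₁.1, s₁.2.2⟩
  have hk₁0 : k₁ 0 = w := by
    rw [s₁.2.1 0 (by linarith) (by linarith), hr₁' 0 (by linarith) (by linarith)]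
    simp
  set Φ' := Φ * k₁⁻¹ with hΦ'
  have hΦ'T : Φ' ∈ TT 2 := (TT 2).mul_mem hΦ ((TT 2).inv_mem hk₁T)
  have hΦ'w : Φ' w = 2 * w := by
    rw [hΦ', RelIso.mul_apply, ← hk₁0, RelIso.inv_apply_self, hk₁0, hw]; ring
  -- second fragment
  obtain ⟨u₂, v₂, g1', g2', g3', κ₂, hκ₂, r₂, hr₂, hr₂'⟩ := exists_germ_ext hΦ'T.1
    (e := w - (1 - w) / 2) (x₀ := w) (e' := w - (1 - w) / 2 + 1) (by linarith) (by linarith)
    (by rw [hΦ'w]; linarith) (by rw [hΦ'w]; linarith)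
  set e₂ := w - (1 - w) / 2 with he₂
  have S₂ := SR_two e₂ g1' g2' g3' hκ₂
  have s₂ := per_specS two_pos g1'.le (by linarith : v₂ ≤ e₂ + 2) hκ₂
  set k₂ := per 2 e₂ κ₂ with hk₂
  have hk₂T : k₂ ∈ TT 2 := ⟨s₂.1, s₂.2.2⟩
  set Ψ := k₂⁻¹ * Φ' with hΨ
  have hΨT : Ψ ∈ TT 2 := (TT 2).mul_mem ((TT 2).inv_mem hk₂T) hΦ'T
  obtain ⟨r, hr0, hrm⟩ : ∃ r, 0 < r ∧ r < min r₂ (min (w - e₂) (e₂ + 1 - w)) :=
    exists_between (by
      rw [lt_min_iff, lt_min_iff]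
      exact ⟨hr₂, by linarith, by linarith⟩)
  rw [lt_min_iff, lt_min_iff] at hrm
  obtain ⟨m1, m2, m3⟩ := hrm
  have hΨid : ∀ x, w - r ≤ x → x ≤ w + r → Ψ x = x := by
    intro x hx hx'
    rw [hΨ, RelIso.mul_apply, ← k₂.injective.eq_iff, RelIso.apply_inv_self,
      s₂.2.1 x (by linarith) (by linarith), hr₂' x (by linarith) (by linarith)]
  have hΨw : Ψ w = w := hΨid w (by linarith) (by linarith)
  have y1 : w < Ψ (w + 1) := by
    calc w = Ψ w := hΨw.symm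
      _ < Ψ (w + 1) := Ψ.strictMono (by linarith)
  have y2 : Ψ (w + 1) < w + 2 := by
    calc Ψ (w + 1) < Ψ (w + 2) := Ψ.strictMono (by linarith)
      _ = w + 2 := by rw [hΨT.2, hΨw]
  -- third fragment
  obtain ⟨e₃, he₃, he₃'⟩ : ∃ e₃, max w (Ψ (w + 1) - 1) < e₃ ∧ e₃ < min (w + 1) (Ψ (w + 1)) :=
    exists_between (by
      rw [max_lt_iff, lt_min_iff, lt_min_iff]
      exact ⟨⟨by linarith, y1⟩, by linarith, by linarith⟩)
  rw [max_lt_iff] at he₃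
  rw [lt_min_iff] at he₃'
  obtain ⟨u₃, v₃, q1, q2, q3, κ₃, hκ₃, r₃, hr₃, hr₃'⟩ := exists_germ_ext hΨT.1
    (e := e₃) (x₀ := w + 1) (e' := e₃ + 1) (by linarith) (by linarith) (by linarith)
    (by linarith)
  have S₃ := SR_two e₃ q1 q2 q3 hκ₃
  have s₃ := per_specS two_pos q1.le (by linarith : v₃ ≤ e₃ + 2) hκ₃
  set k₃ := per 2 e₃ κ₃ with hk₃
  have hk₃T : k₃ ∈ TT 2 := ⟨s₃.1, s₃.2.2⟩
  have hk₃id : ∀ x, e₃ - 1 ≤ x → x ≤ e₃ → k₃ x = x := by
    intro x hx hx'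
    have := s₃.2.2 x
    rw [s₃.2.1 (x + 2) (by linarith) (by linarith), hκ₃.2.2 _ (by linarith)] at this
    linarith
  have hk₃id' : ∀ x, v₃ - 2 ≤ x → x ≤ u₃ → k₃ x = x := by
    intro x hx hx'
    rcases le_total x e₃ with h | h
    · have := s₃.2.2 x
      rw [s₃.2.1 (x + 2) (by linarith) (by linarith), hκ₃.2.2 _ (by linarith)] at this
      linarith
    · rw [s₃.2.1 x h (by linarith), hκ₃.2.1 x hx']
  set Ω := k₃⁻¹ * Ψ with hΩ
  have hΩT : Ω ∈ TT 2 := (TT 2).mul_mem ((TT 2).inv_mem hk₃T) hΨT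
  obtain ⟨s, hs0, hsm⟩ : ∃ s, 0 < s ∧ s < min (min r r₃) (min (min (u₃ - w) (w - (v₃ - 2)))
      (min (w + 1 - e₃) (1 / 3))) :=
    exists_between (by
      rw [lt_min_iff, lt_min_iff, lt_min_iff, lt_min_iff, lt_min_iff]
      exact ⟨⟨hr0, hr₃⟩, ⟨by linarith, by linarith⟩, by linarith, by norm_num⟩)
  rw [lt_min_iff, lt_min_iff, lt_min_iff, lt_min_iff, lt_min_iff] at hsm
  obtain ⟨⟨t1, t2⟩, ⟨t3, t4⟩, t5, t6⟩ := hsm
  have Ωw : ∀ x, w - s ≤ x → x ≤ w + s → Ω x = x := by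
    intro x hx hx'
    rw [hΩ, RelIso.mul_apply, hΨid x (by linarith) (by linarith), ← k₃.injective.eq_iff,
      RelIso.apply_inv_self, hk₃id' x (by linarith) (by linarith)]
  have Ωw1 : ∀ x, w + 1 - s ≤ x → x ≤ w + 1 + s → Ω x = x := by
    intro x hx hx'
    rw [hΩ, RelIso.mul_apply, ← k₃.injective.eq_iff, RelIso.apply_inv_self,
      s₃.2.1 x (by linarith) (by linarith), hr₃' x (by linarith) (by linarith)]
  have Ωw2 : ∀ x, w + 2 - s ≤ x → x ≤ w + 2 + s → Ω x = x := by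
    intro x hx hx'
    have := hΩT.2 (x - 2)
    rw [sub_add_cancel, Ωw (x - 2) (by linarith) (by linarith)] at this
    linarith
  obtain ⟨κ₄, hκ₄, hκ₄'⟩ := exists_restr hΩT.1 (u := w + s) (v := w + 1 - s) (by linarith)
    (Ωw _ (by linarith) le_rfl) (Ωw1 _ le_rfl (by linarith))
  obtain ⟨κ₅, hκ₅, hκ₅'⟩ := exists_restr hΩT.1 (u := w + 1 + s) (v := w + 2 - s) (by linarith)
    (Ωw1 _ (by linarith) le_rfl) (Ωw2 _ le_rfl (by linarith))
  have S₄ := SR_two w (by linarith) (by linarith) (by linarith) hκ₄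
  have S₅ := SR_two (w + 1) (by linarith) (by linarith) (by linarith) hκ₅
  have e5 : per 2 (w + 1) κ₅ = per 2 w κ₅ :=
    per_base two_pos hκ₅ (by linarith) (by linarith) (by linarith) (by linarith) (by linarith)
  have m4 : κ₄ ∈ PS w (w + 2) := PS_mono (by linarith) (by linarith) hκ₄
  have m5 : κ₅ ∈ PS w (w + 2) := PS_mono (by linarith) (by linarith) hκ₅
  have s45 := per_specS two_pos le_rfl le_rfl ((PS _ _).mul_mem m4 m5)
  have e45 : per 2 w κ₄ * per 2 w κ₅ = Ω := by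
    rw [← per_mul two_pos m4 m5]
    refine per_unique two_pos s45.2.2 hΩT.2 (e := w) (fun x hx hx' => ?_)
    rw [s45.2.1 x hx hx', RelIso.mul_apply]
    rcases le_total x (w + 1) with h | h
    · rw [hκ₅.2.1 x (by linarith)]
      rcases le_total x (w + s) with h' | h'
      · rw [hκ₄.2.1 x h', Ωw x (by linarith) h']
      rcases le_total x (w + 1 - s) with h'' | h''
      · exact hκ₄' x h' h''
      · rw [hκ₄.2.2 x h'', Ωw1 x h'' (by linarith)]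
    · have hge : w + 1 ≤ κ₅ x := by
        calc w + 1 = κ₅ (w + 1) := (hκ₅.2.1 _ (by linarith)).symm
          _ ≤ κ₅ x := κ₅.monotone h
      rw [hκ₄.2.2 _ (by linarith)]
      rcases le_total x (w + 1 + s) with h' | h'
      · rw [hκ₅.2.1 x h', Ωw1 x (by linarith) h']
      rcases le_total x (w + 2 - s) with h'' | h''
      · exact hκ₅' x h' h''
      · rw [hκ₅.2.2 x h'', Ωw2 x h'' (by linarith)]
  have h := (((S₂.mul S₃).mul S₄).mul S₅).mul S₁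
  rw [e5] at h
  have e6 : k₂ * k₃ * per 2 w κ₄ * per 2 w κ₅ * k₁ = Φ := by
    rw [mul_assoc (k₂ * k₃) (per 2 w κ₄) (per 2 w κ₅), e45, hΩ, hΨ, hΦ']; group
  rw [e6] at h
  simpa using h

/-- **Zone lemma.** Uniformly long zones suffice to prescribe both developments. -/
theorem zone {c₁ c₂ : Hm} (h₁ : c₁ ∈ TT 1) (h₂ : c₂ ∈ TT 2) :
    ∃ j₁ j₂ : ℤ, SR 182 (c₁ * tr j₁) (c₂ * tr (j₂ * 2)) := by
  obtain ⟨j₁, A⟩ := TT1_decomp h₁
  obtain ⟨j₂, B⟩ := TT2_decomp h₂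
  refine ⟨j₁, j₂, ?_⟩
  have := A.mul B
  rw [mul_one, one_mul] at this
  exact this

end Pool.Agent.H16.PLR
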